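import Mathlib

/-! Two lemmas on eventually true conditions (as in `Pool/Agent/TH445/OI/A3.lean`), and the weight `th`. -/

set_option autoImplicit false

namespace Pool.Agent.K1H89.Ev

lemma evN (P : ℝ → Prop) (h : ∀ᶠ x : ℝ in Filter.atTop, P x) : ∃ N₀ : ℕ, ∀ N : ℕ, N₀ ≤ N → P N := by
  obtain ⟨x0, hx0⟩ := Filter.eventually_atTop.1 h
  exact ⟨⌈x0⌉₊, fun N hN => hx0 N ((Nat.le_ceil _).trans (by exact_mod_cast hN))⟩

lemma ev_pow (k : ℕ) (c : ℝ) (s : ℝ) (hs : 0 < s) : ∀ᶠ x : ℝ in Filter.atTop, c * Real.log x ^ k ≤ x ^ s := by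
  have h1 : (fun x : ℝ => Real.log x ^ (k : ℝ)) =o[Filter.atTop] fun x : ℝ => x ^ s :=
    isLittleO_log_rpow_rpow_atTop (k : ℝ) hs
  have h3 := (h1.const_mul_left c).def (c := 1) one_pos
  filter_upwards [h3, Filter.eventually_ge_atTop (1 : ℝ)] with x hx hx1
  rw [one_mul, Real.norm_of_nonneg (Real.rpow_nonneg (by linarith) _), Real.rpow_natCast] at hx
  exact (le_abs_self _).trans hx

end Pool.Agent.K1H89.Ev

namespace Pool.Agent.K1H89.PL

open Finset

/-- `log |m|` if `|m|` is a prime, and `0` otherwise -/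
noncomputable def th (m : ℤ) : ℝ := if m.natAbs.Prime then Real.log (m.natAbs : ℝ) else 0

lemma th_nonneg (m : ℤ) : 0 ≤ th m := by
  unfold th
  split_ifs with h
  · exact Real.log_nonneg (by exact_mod_cast h.one_le)
  · exact le_rfl

lemma th_neg (m : ℤ) : th (-m) = th m := by
  unfold th
  rw [Int.natAbs_neg]

lemma th_le_log {m : ℤ} {X : ℝ} (hX : 1 ≤ X) (h : |(m : ℝ)| ≤ X) : th m ≤ Real.log X := by
  unfold th
  split_ifs with hp
  · apply Real.log_le_log (by exact_mod_cast hp.pos)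
    rw [Nat.cast_natAbs, Int.cast_abs]
    exact h
  · exact Real.log_nonneg hX

lemma th_natCast (n : ℕ) : th (n : ℤ) = if n.Prime then Real.log n else 0 := by
  unfold th
  rw [Int.natAbs_natCast]

end Pool.Agent.K1H89.PL
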