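import Mathlib
import Pool.Agent.TH445.OI.A3
import Pool.Agent.K1H89.PL.B0

/-! Primes in short progressions `V + q t`, `t < M`, at the scale `H` (from the theorem of Siegel and Walfisz). -/

set_option autoImplicit false

namespace Pool.Agent.K1H89.PL

open Finset

/-- the sum of `th m` over `m < y`, `m ≡ c (mod q)` -/
noncomputable def tR (y q c : ℕ) : ℝ := ∑ m ∈ (range y).filter (fun m => m ≡ c [MOD q]), th (m : ℤ)

lemma tR_nonneg (y q c : ℕ) : 0 ≤ tR y q c := sum_nonneg fun _ _ => th_nonneg _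

lemma tR_le (y q c : ℕ) : tR y q c ≤ Real.log 4 * y := by
  have h1 : tR y q c ≤ ∑ m ∈ range y, th (m : ℤ) :=
    sum_le_sum_of_subset_of_nonneg (filter_subset _ _) (fun _ _ _ => th_nonneg _)
  have h2 : ∑ m ∈ range y, th (m : ℤ) ≤ Chebyshev.theta (y : ℝ) := by
    unfold Chebyshev.theta
    rw [Nat.floor_natCast, sum_filter]
    have h3 : ∑ m ∈ range y, th (m : ℤ) ≤ ∑ m ∈ Ioc 0 y, th (m : ℤ) + th ((0 : ℕ) : ℤ) := by
      have h4 : range y ⊆ insert 0 (Ioc 0 y) := by
        intro m hm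
        rw [mem_range] at hm
        rw [mem_insert, mem_Ioc]
        omega
      refine (sum_le_sum_of_subset_of_nonneg h4 (fun _ _ _ => th_nonneg _)).trans ?_
      rw [sum_insert (by simp), add_comm]
    have h5 : th ((0 : ℕ) : ℤ) = 0 := by rw [th_natCast]; simp
    rw [h5, add_zero] at h3
    refine h3.trans (le_of_eq (sum_congr rfl fun m _ => th_natCast m))
  exact h1.trans (h2.trans (Chebyshev.theta_le_log4_mul_x (Nat.cast_nonneg _)))

open Pool.Agent.TH445.OI (evN ev_pow sw_psi)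

/-- Siegel-Walfisz for `tR` -/
lemma tR_sw (U K : ℕ) : ∃ y0 : ℕ, ∀ y : ℕ, y0 ≤ y → ∀ q : ℕ, 1 ≤ q → (q : ℝ) ≤ Real.log y ^ K →
    ∀ c : ℕ, c.Coprime q → |tR (y + 1) q c - y / (Nat.totient q : ℝ)| ≤ y / Real.log y ^ U := by
  obtain ⟨y1, h1⟩ := sw_psi (U + 1) K
  obtain ⟨C, hC, y2, h2⟩ := Pool.Agent.H442R2.EHI.PntErrAux.largeU (U + 1)
  obtain ⟨y3, h3⟩ := evN _ (ev_pow (U + 1) 8 (1 / 2) (by norm_num))
  obtain ⟨y4, h4⟩ := evN _ (Real.tendsto_log_atTop.eventually_ge_atTop (4 * C + 8))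
  refine ⟨max (max y1 y2) (max (max y3 y4) 1), fun y hy q hq hqK c hcop => ?_⟩
  have hy1 : y1 ≤ y := by omega
  have hy2 : y2 ≤ y := by omega
  have hy3 : y3 ≤ y := by omega
  have hy4 : y4 ≤ y := by omega
  have hy5 : 1 ≤ y := by omega
  have hyR : (1 : ℝ) ≤ y := by exact_mod_cast hy5
  have hy0 : (0 : ℝ) < y := by linarith
  set L := Real.log y with hL
  have hL4 : 4 * C + 8 ≤ L := h4 y hy4
  have hL1 : 1 ≤ L := by linarith
  have hL0 : 0 < L := by linarith
  have hφ : (1 : ℝ) ≤ (Nat.totient q : ℝ) := by exact_mod_cast Nat.totient_pos.2 hq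
  have hφ0 : (0 : ℝ) < (Nat.totient q : ℝ) := by linarith
  -- the class of c
  have hcq : (c % q).Coprime q := by
    unfold Nat.Coprime at *
    rw [← Nat.gcd_rec, Nat.gcd_comm]
    exact hcop
  have h5 := h1 y hy1 q hq hqK (c % q) (Nat.mod_lt _ hq) hcq
  have h6 := h2 y hy2
  have hpsi1 : H343E.psi1 (y : ℝ) = Chebyshev.psi (y : ℝ) := by
    unfold H343E.psi1 Chebyshev.psi
    rfl
  -- comparison of psiAP and tR
  have hset : (range (y + 1)).filter (fun m => m ≡ c [MOD q]) ⊆
      insert 0 ((Icc 1 y).filter (fun n => n ≡ c % q [MOD q])) := by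
    intro m hm
    rw [mem_filter, mem_range] at hm
    rw [mem_insert, mem_filter, mem_Icc]
    rcases Nat.eq_zero_or_pos m with h | h
    · exact Or.inl h
    · exact Or.inr ⟨⟨h, by omega⟩, hm.2.trans (Nat.mod_modEq c q).symm⟩
  have hpsiAP : H343E.psiAP (y : ℝ) q (c % q) =
      ∑ n ∈ (Icc 1 y).filter (fun n => n ≡ c % q [MOD q]), ArithmeticFunction.vonMangoldt n := by
    unfold H343E.psiAP
    rw [Nat.floor_natCast]
  have hth0 : th ((0 : ℕ) : ℤ) = 0 := by rw [th_natCast]; simp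
  have htR : tR (y + 1) q c = ∑ n ∈ (Icc 1 y).filter (fun n => n ≡ c % q [MOD q]), th (n : ℤ) := by
    unfold tR
    apply le_antisymm
    · refine (sum_le_sum_of_subset_of_nonneg hset (fun _ _ _ => th_nonneg _)).trans ?_
      rw [sum_insert (by simp), hth0, zero_add]
    · apply sum_le_sum_of_subset_of_nonneg _ (fun _ _ _ => th_nonneg _)
      intro m hm
      rw [mem_filter, mem_Icc] at hm
      rw [mem_filter, mem_range]
      exact ⟨by omega, hm.2.trans (Nat.mod_modEq c q)⟩
  have hle1 : tR (y + 1) q c ≤ H343E.psiAP (y : ℝ) q (c % q) := by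
    rw [htR, hpsiAP]
    apply sum_le_sum
    intro n _
    rw [th_natCast]
    split_ifs with hp
    · rw [ArithmeticFunction.vonMangoldt_apply_prime hp]
    · exact ArithmeticFunction.vonMangoldt_nonneg
  have hle2 : H343E.psiAP (y : ℝ) q (c % q) - tR (y + 1) q c ≤ Chebyshev.psi (y : ℝ) - Chebyshev.theta (y : ℝ) := by
    rw [htR, hpsiAP, Chebyshev.psi_sub_theta_eq_sum_not_prime, Nat.floor_natCast, ← sum_sub_distrib]
    have e1 : ∑ n ∈ (Icc 1 y).filter (fun n => n ≡ c % q [MOD q]),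
        (ArithmeticFunction.vonMangoldt n - th (n : ℤ)) =
        ∑ n ∈ ((Icc 1 y).filter (fun n => n ≡ c % q [MOD q])).filter (fun n => ¬ n.Prime),
          ArithmeticFunction.vonMangoldt n := by
      rw [sum_filter (p := fun n : ℕ => ¬ n.Prime)]
      apply sum_congr rfl
      intro n _
      rw [th_natCast]
      by_cases hp : n.Prime
      · simp [hp, ArithmeticFunction.vonMangoldt_apply_prime hp]
      · simp [hp]
    rw [e1]
    apply sum_le_sum_of_subset_of_nonneg
    · intro n hn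
      rw [mem_filter, mem_filter, mem_Icc] at hn
      rw [mem_filter, mem_Ioc]
      exact ⟨⟨by omega, hn.1.1.2⟩, hn.2⟩
    · intro n _ _
      exact ArithmeticFunction.vonMangoldt_nonneg
  have hle3 := Chebyshev.psi_sub_theta_le hyR
  have h7 : 8 * L ^ (U + 1) ≤ (y : ℝ) ^ (1 / 2 : ℝ) := h3 y hy3
  rw [← Real.sqrt_eq_rpow] at h7
  have hsq : √(y : ℝ) * √(y : ℝ) = y := Real.mul_self_sqrt hy0.le
  have hs0 : 0 ≤ √(y : ℝ) := Real.sqrt_nonneg _
  have h8 : 2 * √(y : ℝ) * L ≤ (1 / 4) * (y / L ^ U) := by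
    rw [← mul_div_assoc, le_div_iff₀ (by positivity)]
    calc 2 * √(y : ℝ) * L * L ^ U = (1 / 4) * (√(y : ℝ) * (8 * L ^ (U + 1))) := by ring
      _ ≤ (1 / 4) * (√(y : ℝ) * √(y : ℝ)) := by gcongr
      _ = (1 / 4) * y := by rw [hsq]
  have h9 : (y : ℝ) / L ^ (U + 1) ≤ (1 / 8) * (y / L ^ U) := by
    rw [div_le_iff₀ (by positivity)]
    have : (1 / 8) * ((y : ℝ) / L ^ U) * L ^ (U + 1) = (1 / 8) * y * L := by
      rw [pow_succ]
      field_simp
    rw [this]
    nlinarith
  have h10 : |Chebyshev.psi (y : ℝ) - y| ≤ (1 / 2) * (y / L ^ U) := by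
    refine h6.trans ?_
    have e2 : C * (y / L ^ (U + 1)) ≤ (1 / 4) * (y / L ^ U) := by
      have e3 : C * ((y : ℝ) / L ^ (U + 1)) = (C / L) * (y / L ^ U) := by
        rw [pow_succ]
        field_simp
      rw [e3]
      apply mul_le_mul_of_nonneg_right _ (by positivity)
      rw [div_le_iff₀ hL0]
      linarith
    have e4 : (2 : ℝ) ≤ (1 / 4) * (y / L ^ U) := by
      refine le_trans ?_ h8
      have : 1 ≤ √(y : ℝ) := by rw [Real.one_le_sqrt]; exact hyR
      nlinarith
    linarith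
  have h11 : |Chebyshev.psi (y : ℝ) / (Nat.totient q : ℝ) - y / (Nat.totient q : ℝ)| ≤ (1 / 2) * (y / L ^ U) := by
    rw [← sub_div, abs_div, abs_of_pos hφ0]
    exact (div_le_self (abs_nonneg _) hφ).trans h10
  rw [hpsi1] at h5
  have h12 := h5.trans h9
  rw [abs_le] at h11 h12 ⊢
  constructor
  · linarith
  · have : 0 ≤ (y : ℝ) / L ^ U := by positivity
    linarith

lemma tR_scale (A B : ℕ) : ∃ H0 : ℕ, ∀ H : ℕ, H0 ≤ H → ∀ q : ℕ, 1 ≤ q → (q : ℝ) ≤ Real.log H ^ B →
    ∀ c : ℕ, c.Coprime q → ∀ y : ℕ, (y : ℝ) ≤ H * Real.log H ^ B →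
    |tR y q c - y / (Nat.totient q : ℝ)| ≤ H / Real.log H ^ A := by
  obtain ⟨y0, h0⟩ := tR_sw (A + B + 1) (B + 1)
  obtain ⟨x1, h1⟩ := evN _ (ev_pow (A + 1) 4 (1 / 2) (by norm_num))
  obtain ⟨x2, h2⟩ := evN _ (Real.tendsto_log_atTop.eventually_ge_atTop ((2 : ℝ) ^ (A + B + 2) + 8))
  refine ⟨max (max x1 x2) ((y0 + 1) ^ 2 + 1), fun H hH q hq hqB c hcop y hy => ?_⟩
  have hH1 := h1 H (by omega)
  have hH2 := h2 H (by omega)
  have hH3 : (y0 + 1) ^ 2 + 1 ≤ H := by omega
  set L := Real.log H with hL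
  have hp2 : (1 : ℝ) ≤ 2 ^ (A + B + 2) := one_le_pow₀ (by norm_num)
  have hL8 : 8 ≤ L := by linarith
  have hL0 : 0 < L := by linarith
  have hL1 : 1 ≤ L := by linarith
  have hHpos : (0 : ℝ) < H := by
    have : 0 < H := by omega
    exact_mod_cast this
  have hHR : (1 : ℝ) ≤ H := by
    have : 1 ≤ H := by omega
    exact_mod_cast this
  rw [← Real.sqrt_eq_rpow] at hH1
  have hsq : √(H : ℝ) * √(H : ℝ) = H := Real.mul_self_sqrt hHpos.le
  have hs1 : 1 ≤ √(H : ℝ) := by rw [Real.one_le_sqrt]; exact hHR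
  have hLA1 : 1 ≤ L ^ (A + 1) := one_le_pow₀ hL1
  have hLA : 0 < L ^ A := by positivity
  have hφ : (1 : ℝ) ≤ (Nat.totient q : ℝ) := by exact_mod_cast Nat.totient_pos.2 hq
  have hφ0 : (0 : ℝ) < (Nat.totient q : ℝ) := by linarith
  have hbig : 4 ≤ H / L ^ A := by
    rw [le_div_iff₀ hLA]
    have : L ^ A ≤ L ^ (A + 1) := pow_le_pow_right₀ hL1 (by omega)
    nlinarith
  have hsqle : √(H : ℝ) ≤ H / L ^ (A + 1) := by
    rw [le_div_iff₀ (by positivity)]
    nlinarith
  by_cases hcase : (H : ℝ) / L ^ (A + 1) ≤ (y : ℝ) - 1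
  · have hy1 : 1 ≤ y := by
      by_contra h
      have : y = 0 := by omega
      rw [this] at hcase
      have : 0 ≤ (H : ℝ) / L ^ (A + 1) := by positivity
      norm_num at hcase
      linarith
    obtain ⟨z, rfl⟩ : ∃ z, y = z + 1 := ⟨y - 1, by omega⟩
    push_cast at hcase hy ⊢
    rw [add_sub_cancel_right] at hcase
    have hz : √(H : ℝ) ≤ z := hsqle.trans hcase
    have hz0 : (0 : ℝ) < z := by linarith
    have hy0z : y0 ≤ z := by
      have h3 : ((y0 + 1 : ℕ) : ℝ) ≤ √(H : ℝ) := by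
        apply Real.le_sqrt_of_sq_le
        have : (y0 + 1) ^ 2 ≤ H := by omega
        exact_mod_cast this
      have h4 : ((y0 + 1 : ℕ) : ℝ) ≤ z := h3.trans hz
      have h5 : y0 + 1 ≤ z := by exact_mod_cast h4
      omega
    have hlz : L / 2 ≤ Real.log z := by
      have h3 : Real.log (√(H : ℝ)) ≤ Real.log z := Real.log_le_log (by positivity) hz
      rw [Real.log_sqrt hHpos.le] at h3
      exact h3
    have hlz0 : 0 < Real.log z := by linarith
    have hlz1 : (2 : ℝ) ^ B ≤ Real.log z := by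
      have h3 : (2 : ℝ) ^ B * 2 ≤ 2 ^ (A + B + 2) := by
        rw [← pow_succ]
        exact pow_le_pow_right₀ (by norm_num) (by omega)
      linarith
    have hqz : (q : ℝ) ≤ Real.log z ^ (B + 1) := by
      refine hqB.trans ?_
      calc L ^ B ≤ (2 * Real.log z) ^ B := pow_le_pow_left₀ hL0.le (by linarith) _
        _ = 2 ^ B * Real.log z ^ B := mul_pow _ _ _
        _ ≤ Real.log z * Real.log z ^ B := by gcongr
        _ = Real.log z ^ (B + 1) := by ring
    have h3 := h0 z hy0z q hq hqz c hcop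
    have h4 : (z : ℝ) / Real.log z ^ (A + B + 1) ≤ (1 / 2) * (H / L ^ A) := by
      rw [div_le_iff₀ (by positivity)]
      have h5 : (L / 2) ^ (A + B + 1) ≤ Real.log z ^ (A + B + 1) := pow_le_pow_left₀ (by positivity) hlz _
      have h6 : (2 : ℝ) ^ (A + B + 2) ≤ L := by linarith
      have h7 : (z : ℝ) ≤ H * L ^ B := by linarith
      calc (z : ℝ) ≤ H * L ^ B := h7
        _ = (1 / 2) * (H / L ^ A) * (L ^ A * L ^ B * 2) := by field_simp
        _ ≤ (1 / 2) * (H / L ^ A) * (L / 2) ^ (A + B + 1) := by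
            gcongr
            rw [div_pow, le_div_iff₀ (by positivity)]
            calc L ^ A * L ^ B * 2 * 2 ^ (A + B + 1) = L ^ A * L ^ B * 2 ^ (A + B + 2) := by ring
              _ ≤ L ^ A * L ^ B * L := by gcongr
              _ = L ^ (A + B + 1) := by ring
        _ ≤ (1 / 2) * (H / L ^ A) * Real.log z ^ (A + B + 1) := by gcongr
    have h5 : |(z : ℝ) / (Nat.totient q : ℝ) - (z + 1) / (Nat.totient q : ℝ)| ≤ 1 := by
      rw [← sub_div, abs_div, abs_of_pos hφ0]
      have : |(z : ℝ) - (z + 1)| = 1 := by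
        rw [show (z : ℝ) - (z + 1) = -1 by ring, abs_neg, abs_one]
      rw [this]
      exact (div_le_one hφ0).2 hφ
    have h6 := h3.trans h4
    rw [abs_le] at h5 h6 ⊢
    constructor <;> linarith
  · push Not at hcase
    have h3 := tR_le y q c
    have h4 := tR_nonneg y q c
    have hlog4 : Real.log 4 ≤ 2 := by
      rw [show (4 : ℝ) = 2 ^ 2 by norm_num, Real.log_pow]
      have := Real.log_two_lt_d9
      push_cast
      linarith
    have hyn : (0 : ℝ) ≤ y := Nat.cast_nonneg _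
    have h5 : (y : ℝ) / (Nat.totient q : ℝ) ≤ y := div_le_self hyn hφ
    have h6 : 0 ≤ (y : ℝ) / (Nat.totient q : ℝ) := by positivity
    have h7 : (H : ℝ) / L ^ (A + 1) ≤ (1 / 8) * (H / L ^ A) := by
      rw [div_le_iff₀ (by positivity)]
      have : (1 / 8) * ((H : ℝ) / L ^ A) * L ^ (A + 1) = (1 / 8) * H * L := by
        rw [pow_succ]
        field_simp
      rw [this]
      nlinarith
    rw [abs_le]
    constructor
    · nlinarith
    · nlinarith

/-- the progression `V, V + q, ..., V + (M - 1) q` -/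
lemma sum_nat (V q M : ℕ) (hq : 1 ≤ q) :
    ∑ t ∈ range M, th ((V + q * t : ℕ) : ℤ) = tR (V + q * M) q V - tR V q V := by
  have key : ∀ a : ℕ, a ≡ V [MOD q] → tR (a + q) q V = tR a q V + th (a : ℤ) := by
    intro a ha
    unfold tR
    rw [sum_filter, sum_filter, sum_range_add]
    congr 1
    rw [sum_eq_single 0]
    · simp [ha]
    · intro j hj hj0
      rw [mem_range] at hj
      rw [if_neg]
      intro h
      have h1 : a + j ≡ a + 0 [MOD q] := h.trans ha.symm
      have h2 : j ≡ 0 [MOD q] := Nat.ModEq.add_left_cancel' a h1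
      have h3 := (Nat.modEq_zero_iff_dvd.1 h2)
      exact hj0 (Nat.eq_zero_of_dvd_of_lt h3 hj)
    · intro h
      exact absurd (mem_range.2 (by omega)) h
  induction M with
  | zero => simp
  | succ M ih =>
    rw [sum_range_succ, ih]
    have h1 : V + q * (M + 1) = (V + q * M) + q := by ring
    have h2 : V + q * M ≡ V [MOD q] := by
      have : q * M ≡ 0 [MOD q] := (Nat.modEq_zero_iff_dvd.2 (dvd_mul_right q M))
      simpa using Nat.ModEq.add_left V this
    rw [h1, key _ h2]
    ring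

lemma one_nat (A B : ℕ) : ∃ H0 : ℕ, ∀ H : ℕ, H0 ≤ H → ∀ q : ℕ, 1 ≤ q → (q : ℝ) ≤ Real.log H ^ B →
    ∀ V M : ℕ, V.Coprime q → ((V : ℝ) + q * M) ≤ H * Real.log H ^ B →
    |∑ t ∈ range M, th ((V + q * t : ℕ) : ℤ) - (q : ℝ) / (Nat.totient q : ℝ) * M| ≤ H / Real.log H ^ A := by
  obtain ⟨H1, h1⟩ := tR_scale (A + 1) B
  obtain ⟨H2, h2⟩ := evN _ (Real.tendsto_log_atTop.eventually_ge_atTop (2 : ℝ))
  refine ⟨max H1 H2, fun H hH q hq hqB V M hcop hVM => ?_⟩
  have hL := h2 H (by omega)
  set L := Real.log H with hLd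
  have hL0 : 0 < L := by linarith
  have h3 := h1 H (by omega) q hq hqB V hcop (V + q * M) (by push_cast; exact hVM)
  have hqM : (0 : ℝ) ≤ (q : ℝ) * M := by positivity
  have h4 := h1 H (by omega) q hq hqB V hcop V (by linarith)
  rw [sum_nat V q M hq]
  have hH0 : (0 : ℝ) ≤ H := Nat.cast_nonneg _
  have h5 : (H : ℝ) / L ^ (A + 1) ≤ (1 / 2) * (H / L ^ A) := by
    rw [div_le_iff₀ (by positivity)]
    have : (1 / 2) * ((H : ℝ) / L ^ A) * L ^ (A + 1) = (1 / 2) * H * L := by
      rw [pow_succ]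
      field_simp
    rw [this]
    nlinarith
  have h6 : ((V + q * M : ℕ) : ℝ) / (Nat.totient q : ℝ) - V / (Nat.totient q : ℝ) =
      (q : ℝ) / (Nat.totient q : ℝ) * M := by
    push_cast
    ring
  rw [← h6]
  have h7 := h3.trans h5
  have h8 := h4.trans h5
  rw [abs_le] at h7 h8 ⊢
  constructor <;> linarith

lemma one_dim (A B : ℕ) : ∃ H0 : ℕ, ∀ H : ℕ, H0 ≤ H → ∀ q : ℕ, 1 ≤ q → (q : ℝ) ≤ Real.log H ^ B →
    ∀ (V : ℤ) (M : ℕ), |(V : ℝ)| ≤ H * Real.log H ^ B → |(V : ℝ) + q * M| ≤ H * Real.log H ^ B →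
    |∑ t ∈ range M, th (V + q * t) -
      (if IsCoprime V (q : ℤ) then (q : ℝ) / (Nat.totient q : ℝ) * M else 0)| ≤ H / Real.log H ^ A := by
  obtain ⟨H1, h1⟩ := one_nat (A + 1) (B + 1)
  obtain ⟨H2, h2⟩ := evN _ (Real.tendsto_log_atTop.eventually_ge_atTop (2 : ℝ))
  obtain ⟨H3, h3⟩ := evN _ (ev_pow (A + B) 2 1 one_pos)
  refine ⟨max (max H1 H2) (max H3 1), fun H hH q hq hqB V M hV hVM => ?_⟩
  have hL := h2 H (by omega)
  have h3' := h3 H (by omega)
  rw [Real.rpow_one] at h3'
  have hH1 : (1 : ℝ) ≤ H := by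
    have : 1 ≤ H := by omega
    exact_mod_cast this
  set L := Real.log H with hLd
  have hL0 : 0 < L := by linarith
  have hL1 : 1 ≤ L := by linarith
  have hHL : (0 : ℝ) ≤ H / L ^ A := by positivity
  by_cases hc : IsCoprime V (q : ℤ)
  · rw [if_pos hc]
    have hLB : L ^ B ≤ L ^ (B + 1) := pow_le_pow_right₀ hL1 (by omega)
    have hqB' : (q : ℝ) ≤ L ^ (B + 1) := hqB.trans hLB
    have hscale : (H : ℝ) * L ^ B + q ≤ H * L ^ (B + 1) := by
      calc (H : ℝ) * L ^ B + q ≤ H * L ^ B + H * L ^ B := by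
            have : (q : ℝ) ≤ 1 * L ^ B := by linarith
            nlinarith [pow_pos hL0 B]
        _ = H * (L ^ B * 2) := by ring
        _ ≤ H * (L ^ B * L) := by gcongr
        _ = H * L ^ (B + 1) := by ring
    have h5 : (H : ℝ) / L ^ (A + 1) ≤ (1 / 2) * (H / L ^ A) := by
      rw [div_le_iff₀ (by positivity)]
      have : (1 / 2) * ((H : ℝ) / L ^ A) * L ^ (A + 1) = (1 / 2) * H * L := by
        rw [pow_succ]
        field_simp
      rw [this]
      nlinarith
    have hq0 : (0 : ℝ) ≤ q := Nat.cast_nonneg _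
    -- the case of nonnegative terms
    have pos : ∀ (V : ℤ) (M : ℕ), 0 ≤ V → IsCoprime V (q : ℤ) → (V : ℝ) + q * M ≤ H * L ^ (B + 1) →
        |∑ t ∈ range M, th (V + q * t) - (q : ℝ) / (Nat.totient q : ℝ) * M| ≤ (1 / 2) * (H / L ^ A) := by
      intro V M hV0 hVc hVM
      obtain ⟨v, rfl⟩ := Int.eq_ofNat_of_zero_le hV0
      have h6 := h1 H (by omega) q hq hqB' v M (Nat.isCoprime_iff_coprime.1 hVc) (by
        push_cast at hVM
        exact hVM)
      refine le_trans (le_of_eq ?_) (h6.trans h5)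
      push_cast
      rfl
    rcases le_or_gt 0 V with hV0 | hV0
    · refine (pos V M hV0 hc ?_).trans (by linarith)
      exact (le_abs_self _).trans (hVM.trans (by gcongr))
    · -- split
      obtain ⟨k, hk1, hk2⟩ : ∃ k : ℕ, V + q * k ≤ 0 ∧ 0 < V + q * (k + 1) := by
        refine ⟨((-V) / q).toNat, ?_, ?_⟩
        · have hq' : (0 : ℤ) < q := by exact_mod_cast hq
          have h7 : 0 ≤ (-V) / (q : ℤ) := Int.ediv_nonneg (by omega) hq'.le
          rw [Int.toNat_of_nonneg h7]
          have := Int.mul_ediv_self_le (x := -V) (k := (q : ℤ)) hq'.ne'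
          linarith
        · have hq' : (0 : ℤ) < q := by exact_mod_cast hq
          have h7 : 0 ≤ (-V) / (q : ℤ) := Int.ediv_nonneg (by omega) hq'.le
          rw [Int.toNat_of_nonneg h7]
          have := Int.lt_mul_ediv_self_add (x := -V) (k := (q : ℤ)) hq'
          linarith
      have hneg : ∀ M1 : ℕ, 1 ≤ M1 → M1 ≤ k + 1 →
          |∑ t ∈ range M1, th (V + q * t) - (q : ℝ) / (Nat.totient q : ℝ) * M1| ≤ (1 / 2) * (H / L ^ A) := by
        intro M1 hM1 hM1k
        have e1 : ∑ t ∈ range M1, th (V + q * t) =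
            ∑ t ∈ range M1, th (-(V + q * ((M1 : ℤ) - 1)) + q * t) := by
          rw [← sum_range_reflect]
          apply sum_congr rfl
          intro t ht
          rw [mem_range] at ht
          rw [← th_neg]
          congr 1
          have : ((M1 - 1 - t : ℕ) : ℤ) = (M1 : ℤ) - 1 - t := by omega
          rw [this]
          ring
        rw [e1]
        apply pos
        · have hq' : (0 : ℤ) < q := by exact_mod_cast hq
          have : (M1 : ℤ) - 1 ≤ k := by omega
          nlinarith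
        · have : -(V + q * ((M1 : ℤ) - 1)) = -V + q * (-((M1 : ℤ) - 1)) := by ring
          rw [this]
          exact hc.neg_left.add_mul_left_left _
        · push_cast
          have h8 : -(V : ℝ) ≤ H * L ^ B := (neg_le_abs _).trans hV
          calc -((V : ℝ) + q * ((M1 : ℝ) - 1)) + q * M1 = -(V : ℝ) + q := by ring
            _ ≤ H * L ^ B + q := by linarith
            _ ≤ H * L ^ (B + 1) := hscale
      rcases Nat.eq_zero_or_pos M with hM0 | hM0
      · subst hM0
        simp only [range_zero, sum_empty, Nat.cast_zero, mul_zero, sub_zero, abs_zero]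
        exact hHL
      rcases le_or_gt M (k + 1) with hMk | hMk
      · exact (hneg M hM0 hMk).trans (by linarith)
      · obtain ⟨M2, rfl⟩ : ∃ M2, M = (k + 1) + M2 := ⟨M - (k + 1), by omega⟩
        rw [sum_range_add]
        have h6 := hneg (k + 1) (by omega) le_rfl
        have h7 := pos (V + q * ((k : ℤ) + 1)) M2 hk2.le (hc.add_mul_left_left _) (by
          push_cast
          push_cast at hVM
          have h9 := (le_abs_self _).trans hVM
          have h10 : (H : ℝ) * L ^ B ≤ H * L ^ (B + 1) := by gcongr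
          linarith)
        have e2 : ∑ t ∈ range M2, th (V + q * ((k : ℤ) + 1) + q * t) =
            ∑ t ∈ range M2, th (V + q * ((k + 1 + t : ℕ) : ℤ)) := by
          apply sum_congr rfl
          intro t _
          congr 1
          push_cast
          ring
        rw [e2] at h7
        push_cast at h6 h7 ⊢
        rw [abs_le] at h6 h7 ⊢
        constructor <;> linarith
  · rw [if_neg hc, sub_zero, abs_of_nonneg (sum_nonneg fun _ _ => th_nonneg _)]
    set g : ℕ := Int.gcd V q with hg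
    have hg1 : g ≠ 1 := fun h => hc (Int.isCoprime_iff_gcd_eq_one.2 h)
    have hgq : g ∣ q := by
      have := Int.gcd_dvd_right V (q : ℤ)
      exact_mod_cast this
    have hgq' : g ≤ q := Nat.le_of_dvd hq hgq
    have hterm : ∀ t : ℕ, th (V + q * t) ≤ if (V + q * (t : ℤ) = g ∨ V + q * (t : ℤ) = -g) then (q : ℝ) else 0 := by
      intro t
      unfold th
      split_ifs with hp h4
      · have h5 : (V + q * (t : ℤ)).natAbs = g := by rcases h4 with h4 | h4 <;> rw [h4] <;> simp
        rw [h5]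
        have h6 : Real.log (g : ℝ) ≤ g := by
          rcases Nat.eq_zero_or_pos g with h | h
          · rw [h]; simp
          · have := Real.log_le_sub_one_of_pos (show (0 : ℝ) < g by exact_mod_cast h)
            linarith
        exact h6.trans (by exact_mod_cast hgq')
      · exfalso
        apply h4
        have h5 : (g : ℤ) ∣ V + q * t := dvd_add (Int.gcd_dvd_left V (q : ℤ)) (dvd_mul_of_dvd_left (Int.gcd_dvd_right V (q : ℤ)) _)
        have h6 : g ∣ (V + q * (t : ℤ)).natAbs := Int.natCast_dvd.1 h5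
        rcases (Nat.dvd_prime hp).1 h6 with h7 | h7
        · exact absurd h7 hg1
        · rw [h7]
          exact Int.natAbs_eq _
      · positivity
      · exact le_rfl
    refine (sum_le_sum fun t _ => hterm t).trans ?_
    rw [← sum_filter, sum_const, nsmul_eq_mul]
    have hcard : ((range M).filter (fun t : ℕ => V + q * (t : ℤ) = g ∨ V + q * (t : ℤ) = -g)).card ≤ 2 := by
      have hq' : (q : ℤ) ≠ 0 := by
        have : q ≠ 0 := by omega
        exact_mod_cast this
      rw [filter_or]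
      refine (card_union_le _ _).trans ?_
      have one : ∀ x : ℤ, ((range M).filter (fun t : ℕ => V + q * (t : ℤ) = x)).card ≤ 1 := by
        intro x
        rw [card_le_one]
        intro a ha b hb
        rw [mem_filter] at ha hb
        have h5 : (q : ℤ) * a = q * b := by linarith [ha.2, hb.2]
        have h6 := mul_left_cancel₀ hq' h5
        exact_mod_cast h6
      linarith [one g, one (-g)]
    have hcR : (((range M).filter (fun t : ℕ => V + q * (t : ℤ) = g ∨ V + q * (t : ℤ) = -g)).card : ℝ) ≤ 2 := by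
      exact_mod_cast hcard
    calc (((range M).filter (fun t : ℕ => V + q * (t : ℤ) = g ∨ V + q * (t : ℤ) = -g)).card : ℝ) * q
        ≤ 2 * q := by gcongr
      _ ≤ 2 * L ^ B := by linarith
      _ ≤ H / L ^ A := by
          rw [le_div_iff₀ (by positivity)]
          calc 2 * L ^ B * L ^ A = 2 * L ^ (A + B) := by ring
            _ ≤ H := h3'

end Pool.Agent.K1H89.PL
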