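import Mathlib
import Pool.Agent.K1H89.PL.B0

/-! Triangular systems of progressions. -/

set_option autoImplicit false

namespace Pool.Agent.K1H89.PL

open Finset

/-- the local main term -/
noncomputable def mt (R : ℕ) (y : ℝ) (x : ℤ) : ℝ := by
  classical exact if IsCoprime x (R : ℤ) then y else 0

lemma mt_add (R : ℕ) (y : ℝ) (x z : ℤ) : mt R y (x + R * z) = mt R y x := by
  classical
  unfold mt
  have : IsCoprime (x + R * z) (R : ℤ) ↔ IsCoprime x (R : ℤ) := IsCoprime.add_mul_left_left_iff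
  simp only [this]

lemma mt_nonneg (R : ℕ) {y : ℝ} (hy : 0 ≤ y) (x : ℤ) : 0 ≤ mt R y x := by
  unfold mt
  split_ifs
  · exact hy
  · exact le_rfl

lemma mt_le (R : ℕ) {y : ℝ} (hy : 0 ≤ y) (x : ℤ) : mt R y x ≤ y := by
  unfold mt
  split_ifs
  · exact le_rfl
  · exact hy

lemma tri (R M : ℕ) (ρ X E Λ : ℝ) (hρ : 0 ≤ ρ) (hρΛ : ρ ≤ Λ) (hE : 0 ≤ E)
    (hth : ∀ x : ℤ, |(x : ℝ)| ≤ X → th x ≤ Λ) :
    ∀ (k : ℕ) (c : Fin k → Fin k → ℤ) (V : Fin k → ℤ), (∀ j i, j < i → c j i = 0) →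
    (∀ j (x : ℤ), |(x : ℝ)| ≤ X → |(x : ℝ) + R * c j j * M| ≤ X →
      |∑ t ∈ range M, th (x + R * c j j * t) - mt R (ρ * M) x| ≤ E) →
    (∀ j, |((V j : ℤ) : ℝ)| + R * (∑ i, |((c j i : ℤ) : ℝ)|) * M ≤ X) →
    |∑ t : Fin k → Fin M, ∏ j, th (V j + R * ∑ i, c j i * (t i : ℕ)) - ∏ j, mt R (ρ * M) (V j)| ≤
      k * E * (Λ * M) ^ (k - 1) := by
  have hΛ : 0 ≤ Λ := hρ.trans hρΛ
  have hM0 : (0 : ℝ) ≤ M := Nat.cast_nonneg _
  intro k
  induction k with
  | zero =>
    intro c V _ _ _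
    simp
  | succ k ih =>
    intro c V hc hone hV
    -- the sum over the first variable
    have hsplit : ∑ t : Fin (k + 1) → Fin M, ∏ j, th (V j + R * ∑ i, c j i * (t i : ℕ)) =
        ∑ t₀ : Fin M, th (V 0 + R * c 0 0 * (t₀ : ℕ)) * ∑ t' : Fin k → Fin M,
          ∏ j : Fin k, th ((V j.succ + R * (c j.succ 0 * (t₀ : ℕ))) +
            R * ∑ i : Fin k, c j.succ i.succ * (t' i : ℕ)) := by
      rw [← (Fin.consEquiv (fun _ : Fin (k + 1) => Fin M)).sum_comp, Fintype.sum_prod_type]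
      apply sum_congr rfl
      intro t₀ _
      rw [mul_sum]
      apply sum_congr rfl
      intro t' _
      rw [Fin.prod_univ_succ]
      congr 1
      · congr 1
        rw [Fin.sum_univ_succ]
        have : ∑ i : Fin k, c 0 i.succ * (((Fin.consEquiv (fun _ : Fin (k + 1) => Fin M)) (t₀, t') i.succ : ℕ) : ℤ) = 0 := by
          apply sum_eq_zero
          intro i _
          rw [hc 0 i.succ (Fin.succ_pos i), zero_mul]
        rw [this]
        simp [Fin.consEquiv]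
        ring
      · apply prod_congr rfl
        intro j _
        congr 1
        rw [Fin.sum_univ_succ]
        simp [Fin.consEquiv]
        ring
    rw [hsplit, Fin.prod_univ_succ]
    set m' : ℝ := ∏ j : Fin k, mt R (ρ * M) (V j.succ) with hm'
    have hρM : 0 ≤ ρ * M := by positivity
    have hm'0 : 0 ≤ m' := prod_nonneg fun _ _ => mt_nonneg R hρM _
    have hm'1 : m' ≤ (Λ * M) ^ k := by
      have : m' ≤ ∏ _j : Fin k, (Λ * M) := by
        apply prod_le_prod (fun _ _ => mt_nonneg R hρM _)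
        intro j _
        exact (mt_le R hρM _).trans (by gcongr)
      simpa using this
    have hX0 : ∀ t₀ : Fin M, |((V 0 + R * c 0 0 * (t₀ : ℕ) : ℤ) : ℝ)| ≤ X := by
      intro t₀
      refine le_trans ?_ (hV 0)
      push_cast
      refine (abs_add_le _ _).trans ?_
      gcongr
      rw [abs_mul, abs_mul, Nat.abs_cast, Nat.abs_cast]
      have h1 : |((c 0 0 : ℤ) : ℝ)| ≤ ∑ i, |((c 0 i : ℤ) : ℝ)| :=
        single_le_sum (f := fun i => |((c 0 i : ℤ) : ℝ)|) (fun _ _ => abs_nonneg _) (mem_univ 0)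
      have h2 : ((t₀ : ℕ) : ℝ) ≤ M := by exact_mod_cast t₀.2.le
      gcongr
    have hinner : ∀ t₀ : Fin M, |∑ t' : Fin k → Fin M,
          ∏ j : Fin k, th ((V j.succ + R * (c j.succ 0 * (t₀ : ℕ))) +
            R * ∑ i : Fin k, c j.succ i.succ * (t' i : ℕ)) - m'| ≤ k * E * (Λ * M) ^ (k - 1) := by
      intro t₀
      have h := ih (fun j i => c j.succ i.succ) (fun j => V j.succ + R * (c j.succ 0 * (t₀ : ℕ)))
        (fun j i hji => hc _ _ (Fin.succ_lt_succ_iff.2 hji)) (fun j x h1 h2 => hone j.succ x h1 h2) ?_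
      · simp only [mt_add] at h
        exact h
      · intro j
        refine le_trans ?_ (hV j.succ)
        rw [Fin.sum_univ_succ]
        push_cast
        have h2 : ((t₀ : ℕ) : ℝ) ≤ M := by exact_mod_cast t₀.2.le
        have h3 : |((V j.succ : ℤ) : ℝ) + R * (((c j.succ 0 : ℤ) : ℝ) * ((t₀ : ℕ) : ℝ))| ≤
            |((V j.succ : ℤ) : ℝ)| + R * |((c j.succ 0 : ℤ) : ℝ)| * M := by
          refine (abs_add_le _ _).trans ?_
          gcongr
          rw [abs_mul, abs_mul, Nat.abs_cast, Nat.abs_cast, mul_assoc]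
          gcongr
        refine (add_le_add_left h3 _).trans (le_of_eq ?_)
        ring
    have hsum0 : |∑ t₀ : Fin M, th (V 0 + R * c 0 0 * (t₀ : ℕ)) - mt R (ρ * M) (V 0)| ≤ E := by
      have h1 := hone 0 (V 0) ?_ ?_
      · rw [← Fin.sum_univ_eq_sum_range (fun t : ℕ => th (V 0 + R * c 0 0 * (t : ℕ))) M] at h1
        exact h1
      · refine le_trans ?_ (hV 0)
        have : 0 ≤ (R : ℝ) * (∑ i, |((c 0 i : ℤ) : ℝ)|) * M := by positivity
        linarith
      · refine le_trans ?_ (hV 0)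
        refine (abs_add_le _ _).trans ?_
        gcongr
        rw [abs_mul, abs_mul, Nat.abs_cast, Nat.abs_cast]
        have h1 : |((c 0 0 : ℤ) : ℝ)| ≤ ∑ i, |((c 0 i : ℤ) : ℝ)| :=
          single_le_sum (f := fun i => |((c 0 i : ℤ) : ℝ)|) (fun _ _ => abs_nonneg _) (mem_univ 0)
        gcongr
    set S : Fin M → ℝ := fun t₀ => ∑ t' : Fin k → Fin M,
          ∏ j : Fin k, th ((V j.succ + R * (c j.succ 0 * (t₀ : ℕ))) +
            R * ∑ i : Fin k, c j.succ i.succ * (t' i : ℕ)) with hS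
    have hident : ∑ t₀ : Fin M, th (V 0 + R * c 0 0 * (t₀ : ℕ)) * S t₀ - mt R (ρ * M) (V 0) * m' =
        (∑ t₀ : Fin M, th (V 0 + R * c 0 0 * (t₀ : ℕ)) - mt R (ρ * M) (V 0)) * m' +
        ∑ t₀ : Fin M, th (V 0 + R * c 0 0 * (t₀ : ℕ)) * (S t₀ - m') := by
      simp only [mul_sub, sum_sub_distrib, ← sum_mul]
      ring
    rw [hident]
    refine (abs_add_le _ _).trans ?_
    have hA : |(∑ t₀ : Fin M, th (V 0 + R * c 0 0 * (t₀ : ℕ)) - mt R (ρ * M) (V 0)) * m'| ≤ E * (Λ * M) ^ k := by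
      rw [abs_mul, abs_of_nonneg hm'0]
      exact mul_le_mul hsum0 hm'1 hm'0 hE
    have hB : |∑ t₀ : Fin M, th (V 0 + R * c 0 0 * (t₀ : ℕ)) * (S t₀ - m')| ≤ k * E * (Λ * M) ^ k := by
      refine (abs_sum_le_sum_abs _ _).trans ?_
      have h1 : ∀ t₀ ∈ (univ : Finset (Fin M)), |th (V 0 + R * c 0 0 * (t₀ : ℕ)) * (S t₀ - m')| ≤
          Λ * (k * E * (Λ * M) ^ (k - 1)) := by
        intro t₀ _
        rw [abs_mul, abs_of_nonneg (th_nonneg _)]
        exact mul_le_mul (hth _ (hX0 t₀)) (hinner t₀) (abs_nonneg _) hΛ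
      refine (sum_le_sum h1).trans ?_
      rw [sum_const, card_univ, Fintype.card_fin, nsmul_eq_mul]
      rcases Nat.eq_zero_or_pos k with hk | hk
      · subst hk
        simp
      · obtain ⟨k', rfl⟩ : ∃ k', k = k' + 1 := ⟨k - 1, by omega⟩
        apply le_of_eq
        simp only [Nat.add_sub_cancel]
        ring
    push_cast
    calc _ ≤ E * (Λ * M) ^ k + k * E * (Λ * M) ^ k := add_le_add hA hB
      _ = ((k : ℝ) + 1) * E * (Λ * M) ^ (k + 1 - 1) := by
          rw [Nat.add_sub_cancel]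
          ring

end Pool.Agent.K1H89.PL
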