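import Mathlib
import Pool.Agent.K1H89.PL.A2

/-! Boxes of coefficient vectors, shifts of boxes, Newton polynomials. -/

set_option autoImplicit false

namespace Pool.Agent.K1H89.PL

open Finset Polynomial

/-- the value at `n` -/
def pv {d : ℕ} (v : ℕ → ℤ) (a : Fin (d + 1) → ℤ) (n : ℕ) : ℤ := v n + ∑ j, a j * (n : ℤ) ^ (j : ℕ)

/-- one coordinate of the box -/
noncomputable def cls (H W : ℕ) (c : ℤ) : Finset ℤ := (Icc (-(H : ℤ)) H).filter (fun x => x ≡ c [ZMOD W])

/-- the box -/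
noncomputable def box (d H W : ℕ) (g : Fin (d + 1) → ℤ) : Finset (Fin (d + 1) → ℤ) :=
  Fintype.piFinset (fun j => cls H W (g j))

lemma card_ioc (u v c : ℤ) (W : ℕ) (hW : 1 ≤ W) (huv : u ≤ v) :
    |(((Ioc u v).filter (fun x => x ≡ c [ZMOD W])).card : ℝ) - ((v : ℝ) - u) / W| ≤ 1 := by
  have hW0 : (0 : ℤ) < W := by exact_mod_cast hW
  have h := Int.Ioc_filter_modEq_card u v hW0 c
  have h1 : ((((Ioc u v).filter (fun x => x ≡ c [ZMOD W])).card : ℤ) : ℝ) =
      (((max (⌊((v : ℚ) - c) / ((W : ℤ) : ℚ)⌋ - ⌊((u : ℚ) - c) / ((W : ℤ) : ℚ)⌋) 0 : ℤ)) : ℝ) := by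
    exact_mod_cast h
  rw [Int.cast_natCast] at h1
  rw [h1]
  have hWq : (0 : ℚ) < ((W : ℤ) : ℚ) := by exact_mod_cast hW0
  have hle : ⌊((u : ℚ) - c) / ((W : ℤ) : ℚ)⌋ ≤ ⌊((v : ℚ) - c) / ((W : ℤ) : ℚ)⌋ := by
    apply Int.floor_le_floor
    apply div_le_div_of_nonneg_right _ hWq.le
    have : (u : ℚ) ≤ v := by exact_mod_cast huv
    linarith
  rw [max_eq_left (by linarith)]
  have a1 := Int.floor_le (((v : ℚ) - c) / ((W : ℤ) : ℚ))
  have a2 := Int.lt_floor_add_one (((v : ℚ) - c) / ((W : ℤ) : ℚ))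
  have a3 := Int.floor_le (((u : ℚ) - c) / ((W : ℤ) : ℚ))
  have a4 := Int.lt_floor_add_one (((u : ℚ) - c) / ((W : ℤ) : ℚ))
  have a5 : ((v : ℚ) - c) / ((W : ℤ) : ℚ) - ((u : ℚ) - c) / ((W : ℤ) : ℚ) = ((v : ℚ) - u) / ((W : ℤ) : ℚ) := by
    rw [← sub_div]; congr 1; ring
  have b1 : |((⌊((v : ℚ) - c) / ((W : ℤ) : ℚ)⌋ - ⌊((u : ℚ) - c) / ((W : ℤ) : ℚ)⌋ : ℤ) : ℚ) -
      ((v : ℚ) - u) / ((W : ℤ) : ℚ)| ≤ 1 := by
    push_cast at *
    rw [abs_le]
    constructor <;> linarith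
  have b2 : ((|((⌊((v : ℚ) - c) / ((W : ℤ) : ℚ)⌋ - ⌊((u : ℚ) - c) / ((W : ℤ) : ℚ)⌋ : ℤ) : ℚ) -
      ((v : ℚ) - u) / ((W : ℤ) : ℚ)| : ℚ) : ℝ) ≤ ((1 : ℚ) : ℝ) := by exact_mod_cast b1
  push_cast at b2 ⊢
  exact b2

lemma cls_card (H W : ℕ) (c : ℤ) (hW : 1 ≤ W) : |((cls H W c).card : ℝ) - (2 * H + 1) / W| ≤ 1 := by
  have h := card_ioc (-(H : ℤ) - 1) H c W hW (by omega)
  have e : Ioc (-(H : ℤ) - 1) (H : ℤ) = Icc (-(H : ℤ)) H := by
    ext x
    rw [mem_Ioc, mem_Icc]
    omega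
  rw [e] at h
  unfold cls
  refine le_trans (le_of_eq ?_) h
  congr 2
  push_cast
  ring

lemma cls_low (H W : ℕ) (c : ℤ) (hW : 1 ≤ W) (hWH : W ≤ H) : (H : ℝ) / W ≤ ((cls H W c).card : ℝ) := by
  have h := (abs_le.1 (cls_card H W c hW)).1
  have hW0 : (0 : ℝ) < W := by exact_mod_cast hW
  have hWH' : (W : ℝ) ≤ H := by exact_mod_cast hWH
  have h2 : (H : ℝ) / W + 1 ≤ (2 * H + 1) / W := by
    rw [div_add_one hW0.ne', div_le_div_iff_of_pos_right hW0]
    linarith
  linarith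

/-- elements leaving the interval under a shift -/
lemma leave (H W : ℕ) (c u : ℤ) (U : ℝ) (hW : 1 ≤ W) (hu : |(u : ℝ)| ≤ U) :
    (((cls H W c).filter (fun x => ¬ (x + u ∈ Icc (-(H : ℤ)) H))).card : ℝ) ≤ U / W + 1 := by
  have hW0 : (0 : ℝ) < W := by exact_mod_cast hW
  rcases le_or_gt 0 u with h0 | h0
  · have h := (abs_le.1 (card_ioc ((H : ℤ) - u) H c W hW (by omega))).2
    have hsub : (cls H W c).filter (fun x => ¬ (x + u ∈ Icc (-(H : ℤ)) H)) ⊆
        (Ioc ((H : ℤ) - u) H).filter (fun x => x ≡ c [ZMOD W]) := by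
      intro x hx
      unfold cls at hx
      rw [mem_filter, mem_filter, mem_Icc, mem_Icc] at hx
      rw [mem_filter, mem_Ioc]
      refine ⟨?_, hx.1.2⟩
      have h1 := hx.2
      have h2 := hx.1.1
      constructor
      · by_contra hcon
        exact h1 ⟨by omega, by omega⟩
      · exact h2.2
    have h2 : (((cls H W c).filter (fun x => ¬ (x + u ∈ Icc (-(H : ℤ)) H))).card : ℝ) ≤
        (((Ioc ((H : ℤ) - u) H).filter (fun x => x ≡ c [ZMOD W])).card : ℝ) := by
      exact_mod_cast card_le_card hsub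
    have h3 : ((H : ℤ) : ℝ) - (((H : ℤ) - u : ℤ) : ℝ) = u := by push_cast; ring
    rw [h3] at h
    have h4 : (u : ℝ) / W ≤ U / W := by
      apply div_le_div_of_nonneg_right _ hW0.le
      exact (le_abs_self _).trans hu
    linarith
  · have h := (abs_le.1 (card_ioc (-(H : ℤ) - 1) (-(H : ℤ) - 1 - u) c W hW (by omega))).2
    have hsub : (cls H W c).filter (fun x => ¬ (x + u ∈ Icc (-(H : ℤ)) H)) ⊆
        (Ioc (-(H : ℤ) - 1) (-(H : ℤ) - 1 - u)).filter (fun x => x ≡ c [ZMOD W]) := by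
      intro x hx
      unfold cls at hx
      rw [mem_filter, mem_filter, mem_Icc, mem_Icc] at hx
      rw [mem_filter, mem_Ioc]
      refine ⟨?_, hx.1.2⟩
      have h1 := hx.2
      have h2 := hx.1.1
      constructor
      · omega
      · by_contra hcon
        exact h1 ⟨by omega, by omega⟩
    have h2 : (((cls H W c).filter (fun x => ¬ (x + u ∈ Icc (-(H : ℤ)) H))).card : ℝ) ≤
        (((Ioc (-(H : ℤ) - 1) (-(H : ℤ) - 1 - u)).filter (fun x => x ≡ c [ZMOD W])).card : ℝ) := by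
      exact_mod_cast card_le_card hsub
    have h3 : ((-(H : ℤ) - 1 - u : ℤ) : ℝ) - ((-(H : ℤ) - 1 : ℤ) : ℝ) = -u := by push_cast; ring
    rw [h3] at h
    have h4 : (-(u : ℝ)) / W ≤ U / W := by
      apply div_le_div_of_nonneg_right _ hW0.le
      exact (neg_le_abs _).trans hu
    linarith

lemma card_bad (d H W : ℕ) (g : Fin (d + 1) → ℤ) (u : Fin (d + 1) → ℤ) (U : ℝ) (hW : 1 ≤ W) (hWH : W ≤ H)
    (hu : ∀ j, |((u j : ℤ) : ℝ)| ≤ U) (hWu : ∀ j, (W : ℤ) ∣ u j) :
    (((box d H W g).filter (fun a => ¬ (a + u ∈ box d H W g))).card : ℝ) ≤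
      ((d : ℝ) + 1) * ((U + W) / H) * (box d H W g).card := by
  classical
  have hH0 : (0 : ℝ) < H := by exact_mod_cast (by omega : 0 < H)
  have hW0 : (0 : ℝ) < W := by exact_mod_cast hW
  have hsub : (box d H W g).filter (fun a => ¬ (a + u ∈ box d H W g)) ⊆
      univ.biUnion (fun j : Fin (d + 1) => Fintype.piFinset (Function.update (fun j => cls H W (g j)) j
        ((cls H W (g j)).filter (fun x => ¬ (x + u j ∈ Icc (-(H : ℤ)) H))))) := by
    intro a ha
    rw [mem_filter] at ha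
    obtain ⟨ha1, ha2⟩ := ha
    unfold box at ha1 ha2
    rw [Fintype.mem_piFinset] at ha1 ha2
    push Not at ha2
    obtain ⟨j, hj⟩ := ha2
    rw [mem_biUnion]
    refine ⟨j, mem_univ _, ?_⟩
    rw [Fintype.mem_piFinset]
    intro i
    by_cases hij : i = j
    · subst hij
      rw [Function.update_self, mem_filter]
      refine ⟨ha1 i, fun hcon => hj ?_⟩
      unfold cls
      rw [mem_filter]
      refine ⟨hcon, ?_⟩
      have h1 : a i ≡ g i [ZMOD W] := (mem_filter.1 (ha1 i)).2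
      have h2 : u i ≡ 0 [ZMOD W] := (Int.modEq_zero_iff_dvd.2 (hWu i))
      simpa using h1.add h2
    · rw [Function.update_of_ne hij]
      exact ha1 i
  have hcard : ∀ j : Fin (d + 1), ((Fintype.piFinset (Function.update (fun j => cls H W (g j)) j
        ((cls H W (g j)).filter (fun x => ¬ (x + u j ∈ Icc (-(H : ℤ)) H))))).card : ℝ) ≤
        ((U + W) / H) * (box d H W g).card := by
    intro j
    unfold box
    rw [Fintype.card_piFinset, Fintype.card_piFinset, ← mul_prod_erase univ _ (mem_univ j),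
      ← mul_prod_erase univ (fun i => (cls H W (g i)).card) (mem_univ j)]
    have e : ∏ i ∈ univ.erase j, (Function.update (fun j => cls H W (g j)) j
        ((cls H W (g j)).filter (fun x => ¬ (x + u j ∈ Icc (-(H : ℤ)) H))) i).card =
        ∏ i ∈ univ.erase j, (cls H W (g i)).card := by
      apply prod_congr rfl
      intro i hi
      rw [Function.update_of_ne (ne_of_mem_erase hi)]
    rw [e, Function.update_self]
    push_cast
    rw [← mul_assoc]
    gcongr
    have h1 := leave H W (g j) (u j) U hW (hu j)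
    have h2 := cls_low H W (g j) hW hWH
    have hU : 0 ≤ U := (abs_nonneg _).trans (hu j)
    calc _ ≤ U / W + 1 := h1
      _ = ((U + W) / H) * (H / W) := by field_simp
      _ ≤ ((U + W) / H) * (cls H W (g j)).card := by gcongr
  calc (((box d H W g).filter (fun a => ¬ (a + u ∈ box d H W g))).card : ℝ)
      ≤ ((univ.biUnion (fun j : Fin (d + 1) => Fintype.piFinset (Function.update (fun j => cls H W (g j)) j
        ((cls H W (g j)).filter (fun x => ¬ (x + u j ∈ Icc (-(H : ℤ)) H)))))).card : ℝ) := by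
        exact_mod_cast card_le_card hsub
    _ ≤ ∑ j : Fin (d + 1), ((Fintype.piFinset (Function.update (fun j => cls H W (g j)) j
        ((cls H W (g j)).filter (fun x => ¬ (x + u j ∈ Icc (-(H : ℤ)) H))))).card : ℝ) := by
        exact_mod_cast card_biUnion_le
    _ ≤ ∑ _j : Fin (d + 1), ((U + W) / H) * (box d H W g).card := sum_le_sum fun j _ => hcard j
    _ = ((d : ℝ) + 1) * ((U + W) / H) * (box d H W g).card := by
        rw [sum_const, card_univ, Fintype.card_fin, nsmul_eq_mul]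
        push_cast
        ring

lemma box_shift (d H W : ℕ) (g : Fin (d + 1) → ℤ) (u : Fin (d + 1) → ℤ) (U Γ : ℝ) (hW : 1 ≤ W) (hWH : W ≤ H)
    (hu : ∀ j, |((u j : ℤ) : ℝ)| ≤ U) (hWu : ∀ j, (W : ℤ) ∣ u j) (Φ : (Fin (d + 1) → ℤ) → ℝ)
    (h0 : ∀ a, 0 ≤ Φ a) (h1 : ∀ a ∈ box d H W g, Φ a ≤ Γ) (h2 : ∀ a ∈ box d H W g, Φ (a + u) ≤ Γ) :
    |∑ a ∈ box d H W g, Φ (a + u) - ∑ a ∈ box d H W g, Φ a| ≤
      Γ * (((d : ℝ) + 1) * ((U + W) / H) * (box d H W g).card) := by
  classical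
  set B := box d H W g with hB
  have e1 := sum_filter_add_sum_filter_not B (fun a => a + u ∈ B) (fun a => Φ (a + u))
  have e2 := sum_filter_add_sum_filter_not B (fun a => a - u ∈ B) (fun a => Φ a)
  have e3 : ∑ a ∈ B.filter (fun a => a + u ∈ B), Φ (a + u) = ∑ a ∈ B.filter (fun a => a - u ∈ B), Φ a := by
    apply sum_bij' (fun a _ => a + u) (fun a _ => a - u)
    · intro a ha
      rw [mem_filter] at ha ⊢
      exact ⟨ha.2, by rw [add_sub_cancel_right]; exact ha.1⟩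
    · intro a ha
      rw [mem_filter] at ha ⊢
      exact ⟨ha.2, by rw [sub_add_cancel]; exact ha.1⟩
    · intro a _
      exact add_sub_cancel_right a u
    · intro a _
      exact sub_add_cancel a u
    · intro a _
      rfl
  have f1 : ∑ a ∈ B.filter (fun a => ¬ (a + u ∈ B)), Φ (a + u) ≤ Γ * (((d : ℝ) + 1) * ((U + W) / H) * B.card) := by
    calc _ ≤ ∑ a ∈ B.filter (fun a => ¬ (a + u ∈ B)), Γ := sum_le_sum fun a ha => h2 a (mem_filter.1 ha).1
      _ = Γ * ((B.filter (fun a => ¬ (a + u ∈ B))).card : ℝ) := by rw [sum_const, nsmul_eq_mul]; ring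
      _ ≤ _ := by
        by_cases hne : B.Nonempty
        · obtain ⟨b, hb⟩ := hne
          have : 0 ≤ Γ := (h0 b).trans (h1 b hb)
          exact mul_le_mul_of_nonneg_left (card_bad d H W g u U hW hWH hu hWu) this
        · rw [not_nonempty_iff_eq_empty.1 hne]
          simp
  have f2 : ∑ a ∈ B.filter (fun a => ¬ (a - u ∈ B)), Φ a ≤ Γ * (((d : ℝ) + 1) * ((U + W) / H) * B.card) := by
    calc _ ≤ ∑ a ∈ B.filter (fun a => ¬ (a - u ∈ B)), Γ := sum_le_sum fun a ha => h1 a (mem_filter.1 ha).1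
      _ = Γ * ((B.filter (fun a => ¬ (a - u ∈ B))).card : ℝ) := by rw [sum_const, nsmul_eq_mul]; ring
      _ ≤ _ := by
        by_cases hne : B.Nonempty
        · obtain ⟨b, hb⟩ := hne
          have : 0 ≤ Γ := (h0 b).trans (h1 b hb)
          have h3 := card_bad d H W g (-u) U hW hWH (fun j => by
            rw [Pi.neg_apply, Int.cast_neg, abs_neg]; exact hu j) (fun j => by
            rw [Pi.neg_apply]; exact (hWu j).neg_right)
          refine mul_le_mul_of_nonneg_left ?_ this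
          simpa only [sub_eq_add_neg] using h3
        · rw [not_nonempty_iff_eq_empty.1 hne]
          simp
  have g1 : 0 ≤ ∑ a ∈ B.filter (fun a => ¬ (a + u ∈ B)), Φ (a + u) := sum_nonneg fun _ _ => h0 _
  have g2 : 0 ≤ ∑ a ∈ B.filter (fun a => ¬ (a - u ∈ B)), Φ a := sum_nonneg fun _ _ => h0 _
  rw [abs_le]
  constructor <;> linarith

/-! Newton polynomials -/

/-- `∏_{l < i} (X - n_l)` -/
noncomputable def NP {k : ℕ} (n : Fin k → ℕ) (i : Fin k) : ℤ[X] :=
  ∏ l ∈ univ.filter (fun l => l < i), (X - C (n l : ℤ))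

lemma coeff_prod_le {ι : Type} (s : Finset ι) (x : ι → ℕ) (N : ℝ) (hN : 0 ≤ N) (hx : ∀ i ∈ s, (x i : ℝ) ≤ N) :
    ∀ m : ℕ, |((∏ i ∈ s, (X - C (x i : ℤ)) : ℤ[X]).coeff m : ℝ)| ≤ (1 + N) ^ s.card := by
  classical
  induction s using Finset.induction_on with
  | empty =>
    intro m
    simp only [prod_empty, card_empty, pow_zero, coeff_one]
    split_ifs <;> simp
  | insert i s hi ih =>
    intro m
    rw [prod_insert hi, card_insert_of_notMem hi, sub_mul, coeff_sub, coeff_C_mul]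
    have h1 : |(((X * ∏ i ∈ s, (X - C (x i : ℤ)) : ℤ[X]).coeff m : ℤ) : ℝ)| ≤ (1 + N) ^ s.card := by
      rcases m with _ | m
      · rw [mul_coeff_zero, coeff_X_zero, zero_mul]
        simp
        positivity
      · rw [coeff_X_mul]
        exact ih (fun j hj => hx j (mem_insert_of_mem hj)) m
    have h2 := ih (fun j hj => hx j (mem_insert_of_mem hj)) m
    push_cast
    refine (abs_sub _ _).trans ?_
    rw [abs_mul, Nat.abs_cast, pow_succ]
    have h3 : (x i : ℝ) * |((∏ i ∈ s, (X - C (x i : ℤ)) : ℤ[X]).coeff m : ℝ)| ≤ N * (1 + N) ^ s.card := by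
      gcongr
      exact hx i (mem_insert_self _ _)
    push_cast at h1 h3
    linarith

lemma NP_eval {k : ℕ} (n : Fin k → ℕ) (i : Fin k) (x : ℤ) :
    (NP n i).eval x = ∏ l ∈ univ.filter (fun l => l < i), (x - n l) := by
  unfold NP
  rw [eval_prod]
  apply prod_congr rfl
  intro l _
  simp

lemma NP_deg {k : ℕ} (n : Fin k → ℕ) (i : Fin k) : (NP n i).natDegree < k := by
  unfold NP
  rw [natDegree_prod_of_monic _ _ (fun l _ => monic_X_sub_C _)]
  simp only [natDegree_X_sub_C, sum_const, smul_eq_mul, mul_one]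
  have h1 : (univ.filter (fun l : Fin k => l < i)).card < (univ : Finset (Fin k)).card := by
    apply card_lt_card
    rw [filter_ssubset]
    exact ⟨i, mem_univ _, lt_irrefl _⟩
  simpa using h1

lemma NP_sum {k d : ℕ} (hk : k ≤ d + 1) (n : Fin k → ℕ) (i : Fin k) (x : ℤ) :
    ∑ j : Fin (d + 1), (NP n i).coeff j * x ^ (j : ℕ) = (NP n i).eval x := by
  rw [eval_eq_sum_range' (lt_of_lt_of_le (NP_deg n i) hk),
    Fin.sum_univ_eq_sum_range (fun j => (NP n i).coeff j * x ^ j)]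

/-- the product of all differences -/
def Dl {k : ℕ} (n : Fin k → ℕ) : ℕ := ∏ j, ∏ i ∈ univ.filter (fun i => i < j), (n j - n i)

lemma NP_diag {k : ℕ} (n : Fin k → ℕ) (hn : StrictMono n) (j : Fin k) :
    (NP n j).eval (n j : ℤ) = ((∏ i ∈ univ.filter (fun i => i < j), (n j - n i) : ℕ) : ℤ) := by
  rw [NP_eval]
  push_cast
  apply prod_congr rfl
  intro l hl
  rw [mem_filter] at hl
  have := hn hl.2
  rw [Nat.cast_sub this.le]

lemma NP_zero {k : ℕ} (n : Fin k → ℕ) {i j : Fin k} (h : j < i) : (NP n i).eval (n j : ℤ) = 0 := by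
  rw [NP_eval]
  apply prod_eq_zero (i := j) (by rw [mem_filter]; exact ⟨mem_univ _, h⟩)
  simp

lemma diag_dvd {k : ℕ} (n : Fin k → ℕ) (j : Fin k) : (∏ i ∈ univ.filter (fun i => i < j), (n j - n i)) ∣ Dl n :=
  dvd_prod_of_mem _ (mem_univ j)

lemma diag_pos {k : ℕ} (n : Fin k → ℕ) (hn : StrictMono n) (j : Fin k) :
    0 < ∏ i ∈ univ.filter (fun i => i < j), (n j - n i) := by
  apply prod_pos
  intro i hi
  rw [mem_filter] at hi
  have := hn hi.2
  omega

lemma Dl_pos {k : ℕ} (n : Fin k → ℕ) (hn : StrictMono n) : 0 < Dl n := prod_pos fun j _ => diag_pos n hn j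

lemma Dl_le {k : ℕ} (n : Fin k → ℕ) (N : ℝ) (hN : 1 ≤ N) (hx : ∀ i, (n i : ℝ) ≤ N) :
    (Dl n : ℝ) ≤ (N ^ k) ^ k := by
  unfold Dl
  push_cast
  have h1 : ∀ j ∈ (univ : Finset (Fin k)), (∏ i ∈ univ.filter (fun i => i < j), ((n j - n i : ℕ) : ℝ)) ≤ N ^ k := by
    intro j _
    calc ∏ i ∈ univ.filter (fun i => i < j), ((n j - n i : ℕ) : ℝ)
        ≤ ∏ _i ∈ univ.filter (fun i => i < j), N := by
          apply prod_le_prod (fun _ _ => Nat.cast_nonneg _)
          intro i _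
          refine le_trans ?_ (hx j)
          exact_mod_cast Nat.sub_le _ _
      _ = N ^ (univ.filter (fun i : Fin k => i < j)).card := by rw [prod_const]
      _ ≤ N ^ k := by
          apply pow_le_pow_right₀ hN
          simpa using card_le_univ (univ.filter (fun i : Fin k => i < j))
  refine (prod_le_prod (fun _ _ => prod_nonneg fun _ _ => Nat.cast_nonneg _) h1).trans ?_
  simp

end Pool.Agent.K1H89.PL
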