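import Mathlib
import Pool.Agent.K1H89.PL.A3

/-! The average over a box of the product of `th` at `k` values. -/

set_option autoImplicit false

namespace Pool.Agent.K1H89.PL

open Finset Polynomial

/-- `R / φ(R)` -/
noncomputable def rho (R : ℕ) : ℝ := (R : ℝ) / (Nat.totient R : ℝ)

lemma rho_ge {R : ℕ} (hR : 1 ≤ R) : 1 ≤ rho R := by
  unfold rho
  have h : (0 : ℝ) < (Nat.totient R : ℝ) := by exact_mod_cast Nat.totient_pos.2 hR
  rw [one_le_div h]
  exact_mod_cast Nat.totient_le R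

lemma rho_mul {R c : ℕ} (hc : c ∣ R) (hR : 1 ≤ R) :
    ((R * c : ℕ) : ℝ) / (Nat.totient (R * c) : ℝ) = rho R := by
  have hc0 : 0 < c := Nat.pos_of_dvd_of_pos hc hR
  have h := Nat.totient_gcd_mul_totient_mul R c
  rw [Nat.gcd_eq_right hc] at h
  have hφc : 0 < Nat.totient c := Nat.totient_pos.2 hc0
  have h2 : Nat.totient (R * c) = Nat.totient R * c := by
    apply Nat.eq_of_mul_eq_mul_left hφc
    rw [h]; ring
  rw [h2]
  unfold rho
  push_cast
  have h3 : (c : ℝ) ≠ 0 := by exact_mod_cast hc0.ne'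
  have h4 : (Nat.totient R : ℝ) ≠ 0 := by exact_mod_cast (Nat.totient_pos.2 hR).ne'
  field_simp

lemma coprime_mul {R c : ℕ} (hc : c ∣ R) (x : ℤ) : IsCoprime x ((R * c : ℕ) : ℤ) ↔ IsCoprime x (R : ℤ) := by
  push_cast
  rw [IsCoprime.mul_right_iff]
  refine ⟨fun h => h.1, fun h => ⟨h, ?_⟩⟩
  exact h.of_isCoprime_of_dvd_right (Int.natCast_dvd_natCast.2 hc)

lemma mt_mul (R : ℕ) (y z : ℝ) (x : ℤ) : mt R (y * z) x = mt R y x * z := by
  unfold mt
  split_ifs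
  · rfl
  · ring

/-- the shift attached to `t` -/
noncomputable def sh {k d : ℕ} (n : Fin k → ℕ) (R : ℕ) {M : ℕ} (t : Fin k → Fin M) : Fin (d + 1) → ℤ :=
  fun j => R * ∑ i, (t i : ℕ) * (NP n i).coeff j

lemma pv_sh {k d : ℕ} (hk : k ≤ d + 1) (v : ℕ → ℤ) (a : Fin (d + 1) → ℤ) (n : Fin k → ℕ) (R : ℕ) {M : ℕ}
    (t : Fin k → Fin M) (x : ℕ) :
    pv v (a + sh n R t) x = pv v a x + R * ∑ i, (NP n i).eval (x : ℤ) * (t i : ℕ) := by
  unfold pv sh
  simp only [Pi.add_apply, add_mul, sum_add_distrib]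
  rw [add_assoc]
  congr 2
  simp only [mul_assoc, sum_mul, ← mul_sum]
  congr 1
  rw [sum_comm]
  apply sum_congr rfl
  intro i _
  rw [← NP_sum hk n i (x : ℤ), sum_mul]
  apply sum_congr rfl
  intro j _
  ring

lemma sh_bound {k d : ℕ} (n : Fin k → ℕ) (R : ℕ) {M : ℕ} (t : Fin k → Fin M) (N : ℝ) (hN : 0 ≤ N)
    (hx : ∀ i, (n i : ℝ) ≤ N) (j : Fin (d + 1)) :
    |((sh n R t j : ℤ) : ℝ)| ≤ R * (M * (k * (1 + N) ^ k)) := by
  unfold sh
  push_cast
  rw [abs_mul, Nat.abs_cast]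
  gcongr
  refine (abs_sum_le_sum_abs _ _).trans ?_
  have h1 : ∀ i ∈ (univ : Finset (Fin k)), |((t i : ℕ) : ℝ) * (((NP n i).coeff j : ℤ) : ℝ)| ≤ M * (1 + N) ^ k := by
    intro i _
    rw [abs_mul, Nat.abs_cast]
    have h2 : |(((NP n i).coeff j : ℤ) : ℝ)| ≤ (1 + N) ^ k := by
      refine (coeff_prod_le (univ.filter (fun l => l < i)) n N hN (fun l _ => hx l) j).trans ?_
      apply pow_le_pow_right₀ (by linarith)
      simpa using card_le_univ (univ.filter (fun l : Fin k => l < i))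
    have h3 : (((t i : ℕ)) : ℝ) ≤ M := by exact_mod_cast (t i).2.le
    gcongr
  refine (sum_le_sum h1).trans (le_of_eq ?_)
  rw [sum_const, card_univ, Fintype.card_fin, nsmul_eq_mul]
  ring

lemma NP_eval_le {k : ℕ} (n : Fin k → ℕ) (i j : Fin k) (N : ℝ) (hN : 1 ≤ N) (hx : ∀ i, (n i : ℝ) ≤ N) :
    |(((NP n i).eval (n j : ℤ) : ℤ) : ℝ)| ≤ N ^ k := by
  rw [NP_eval]
  push_cast
  rw [abs_prod]
  calc ∏ l ∈ univ.filter (fun l => l < i), |((n j : ℕ) : ℝ) - ((n l : ℕ) : ℝ)|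
      ≤ ∏ _l ∈ univ.filter (fun l => l < i), N := by
        apply prod_le_prod (fun _ _ => abs_nonneg _)
        intro l _
        rw [abs_le]
        have h1 := hx j
        have h2 := hx l
        have h3 : (0 : ℝ) ≤ n j := Nat.cast_nonneg _
        have h4 : (0 : ℝ) ≤ n l := Nat.cast_nonneg _
        constructor <;> linarith
    _ = N ^ (univ.filter (fun l : Fin k => l < i)).card := by rw [prod_const]
    _ ≤ N ^ k := by
        apply pow_le_pow_right₀ hN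
        simpa using card_le_univ (univ.filter (fun l : Fin k => l < i))

lemma pv_bound {d : ℕ} (v : ℕ → ℤ) (a : Fin (d + 1) → ℤ) (H : ℕ) (x : ℕ) (N P : ℝ) (hN : 1 ≤ N) (hxN : (x : ℝ) ≤ N)
    (hv : |((v x : ℤ) : ℝ)| ≤ P) (ha : ∀ j, |a j| ≤ H) :
    |((pv v a x : ℤ) : ℝ)| ≤ P + (d + 1) * (H * N ^ d) := by
  unfold pv
  push_cast
  refine (abs_add_le _ _).trans ?_
  gcongr
  refine (abs_sum_le_sum_abs _ _).trans ?_
  have h1 : ∀ j ∈ (univ : Finset (Fin (d + 1))), |((a j : ℤ) : ℝ) * (x : ℝ) ^ (j : ℕ)| ≤ H * N ^ d := by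
    intro j _
    rw [abs_mul, abs_pow, Nat.abs_cast]
    have h2 : |((a j : ℤ) : ℝ)| ≤ H := by exact_mod_cast ha j
    have h3 : (x : ℝ) ^ (j : ℕ) ≤ N ^ d :=
      (pow_le_pow_left₀ (Nat.cast_nonneg _) hxN _).trans (pow_le_pow_right₀ hN (by have := j.2; omega))
    gcongr
  refine (sum_le_sum h1).trans (le_of_eq ?_)
  rw [sum_const, card_univ, Fintype.card_fin, nsmul_eq_mul]
  push_cast
  ring

lemma mem_box_abs {d H W : ℕ} {g a : Fin (d + 1) → ℤ} (ha : a ∈ box d H W g) (j : Fin (d + 1)) : |a j| ≤ H := by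
  unfold box at ha
  rw [Fintype.mem_piFinset] at ha
  have := ha j
  unfold cls at this
  rw [mem_filter, mem_Icc] at this
  rw [abs_le]
  exact this.1

/-- `∏_j th (value at n_j)` -/
noncomputable def Ph {d k : ℕ} (v : ℕ → ℤ) (n : Fin k → ℕ) (a : Fin (d + 1) → ℤ) : ℝ := ∏ j, th (pv v a (n j))

lemma Ph_nonneg {d k : ℕ} (v : ℕ → ℤ) (n : Fin k → ℕ) (a : Fin (d + 1) → ℤ) : 0 ≤ Ph v n a :=
  prod_nonneg fun _ _ => th_nonneg _

/-- the combination of the two error terms -/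
lemma avg_core {d k H W M : ℕ} (hk : k ≤ d + 1) (hW : 1 ≤ W) (hWH : W ≤ H) (hM : 1 ≤ M) (v : ℕ → ℤ)
    (g : Fin (d + 1) → ℤ) (n : Fin k → ℕ) (hn : StrictMono n) (N P X Λ E : ℝ) (hN : 1 ≤ N)
    (hx : ∀ i, (n i : ℝ) ≤ N) (hv : ∀ i, |((v (n i) : ℤ) : ℝ)| ≤ P)
    (hΛ : ∀ x : ℤ, |(x : ℝ)| ≤ X → th x ≤ Λ) (hρ : rho (W * Dl n) ≤ Λ) (hE : 0 ≤ E)
    (hone : ∀ q : ℕ, 1 ≤ q → q ∣ W * Dl n → ∀ x : ℤ, |(x : ℝ)| ≤ X → |(x : ℝ) + ((W * Dl n * q : ℕ) : ℝ) * M| ≤ X →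
      |∑ t ∈ range M, th (x + ((W * Dl n * q : ℕ) : ℤ) * t) - mt (W * Dl n) (rho (W * Dl n) * M) x| ≤ E)
    (hX : (P + (d + 1) * (H * N ^ d)) + ((W * Dl n : ℕ) : ℝ) * (k * N ^ k) * M ≤ X) :
    |∑ a ∈ box d H W g, Ph v n a - ∑ a ∈ box d H W g, ∏ j, mt (W * Dl n) (rho (W * Dl n)) (pv v a (n j))| ≤
      (Λ ^ k * (((d : ℝ) + 1) * ((((W * Dl n : ℕ) : ℝ) * (M * (k * (1 + N) ^ k)) + W) / H)) + k * E * Λ ^ (k - 1) / M) *
        (box d H W g).card := by
  set R := W * Dl n with hR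
  have hR1 : 1 ≤ R := Nat.mul_pos hW (Dl_pos n hn)
  have hρ1 := rho_ge hR1
  have hρ0 : 0 ≤ rho R := by linarith
  have hΛ0 : 0 ≤ Λ := by linarith
  have hM0 : (0 : ℝ) < M := by exact_mod_cast hM
  set B := box d H W g with hB
  -- values after the shift
  have hval : ∀ a ∈ B, ∀ t : Fin k → Fin M, ∀ j, |((pv v (a + sh n R t) (n j) : ℤ) : ℝ)| ≤ X := by
    intro a ha t j
    rw [pv_sh hk]
    push_cast
    refine (abs_add_le _ _).trans (le_trans (add_le_add (pv_bound v a H (n j) N P hN (hx j) (hv j) (mem_box_abs ha)) ?_) hX)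
    rw [abs_mul, Nat.abs_cast, mul_assoc]
    gcongr
    refine (abs_sum_le_sum_abs _ _).trans ?_
    have h1 : ∀ i ∈ (univ : Finset (Fin k)), |(((NP n i).eval ((n j : ℕ) : ℤ) : ℤ) : ℝ) * ((t i : ℕ) : ℝ)| ≤ N ^ k * M := by
      intro i _
      rw [abs_mul, Nat.abs_cast]
      have h2 := NP_eval_le n i j N hN hx
      have h3 : (((t i : ℕ)) : ℝ) ≤ M := by exact_mod_cast (t i).2.le
      gcongr
    refine (sum_le_sum h1).trans (le_of_eq ?_)
    rw [sum_const, card_univ, Fintype.card_fin, nsmul_eq_mul]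
    ring
  have hval0 : ∀ a ∈ B, ∀ j, |((pv v a (n j) : ℤ) : ℝ)| ≤ X := by
    intro a ha j
    refine le_trans (pv_bound v a H (n j) N P hN (hx j) (hv j) (mem_box_abs ha)) (le_trans ?_ hX)
    have : 0 ≤ (R : ℝ) * (k * N ^ k) * M := by positivity
    linarith
  have hPh : ∀ a : Fin (d + 1) → ℤ, (∀ j, |((pv v a (n j) : ℤ) : ℝ)| ≤ X) → Ph v n a ≤ Λ ^ k := by
    intro a ha
    unfold Ph
    calc ∏ j, th (pv v a (n j)) ≤ ∏ _j : Fin k, Λ := prod_le_prod (fun _ _ => th_nonneg _) fun j _ => hΛ _ (ha j)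
      _ = Λ ^ k := by simp
  set U : ℝ := (R : ℝ) * (M * (k * (1 + N) ^ k)) with hU
  set S0 : ℝ := ∑ a ∈ B, Ph v n a with hS0
  set e1 : ℝ := Λ ^ k * (((d : ℝ) + 1) * ((U + W) / H) * B.card) with he1
  -- shifts
  have hshift : ∀ t : Fin k → Fin M, |∑ a ∈ B, Ph v n (a + sh n R t) - S0| ≤ e1 := by
    intro t
    apply box_shift d H W g (sh n R t) U (Λ ^ k) hW hWH
    · intro j
      exact sh_bound n R t N (by linarith) hx j
    · intro j
      unfold sh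
      rw [hR]
      push_cast
      exact (dvd_mul_right _ _).mul_right _
    · exact fun a => Ph_nonneg v n a
    · exact fun a ha => hPh a (hval0 a ha)
    · exact fun a ha => hPh _ (hval a ha t)
  -- the sum over t
  have htri : ∀ a ∈ B, |∑ t : Fin k → Fin M, Ph v n (a + sh n R t) - ∏ j, mt R (rho R * M) (pv v a (n j))| ≤
      k * E * (Λ * M) ^ (k - 1) := by
    intro a ha
    have h := tri R M (rho R) X E Λ hρ0 hρ hE hΛ k (fun j i => (NP n i).eval (n j : ℤ)) (fun j => pv v a (n j))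
      (fun j i hji => NP_zero n hji) ?_ ?_
    · have e : ∀ t : Fin k → Fin M, Ph v n (a + sh n R t) = ∏ j, th (pv v a (n j) + R * ∑ i, (NP n i).eval (n j : ℤ) * (t i : ℕ)) := by
        intro t
        unfold Ph
        apply prod_congr rfl
        intro j _
        rw [pv_sh hk]
      simp only [e]
      exact h
    · intro j x h1 h2
      have hd := NP_diag n hn j
      have h3 := hone _ (diag_pos n hn j) ((diag_dvd n j).mul_left W) x h1 (by
        refine le_trans (le_of_eq ?_) h2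
        rw [hd]
        push_cast
        rfl)
      refine le_trans (le_of_eq ?_) h3
      rw [hd]
      push_cast
      rfl
    · intro j
      refine le_trans ?_ hX
      have h1 := pv_bound v a H (n j) N P hN (hx j) (hv j) (mem_box_abs ha)
      have h2 : ∑ i, |(((NP n i).eval (n j : ℤ) : ℤ) : ℝ)| ≤ k * N ^ k := by
        refine (sum_le_sum fun i _ => NP_eval_le n i j N hN hx).trans (le_of_eq ?_)
        rw [sum_const, card_univ, Fintype.card_fin, nsmul_eq_mul]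
      gcongr
  -- conclusion
  set Mk : ℝ := (M : ℝ) ^ k with hMk
  have hMk0 : 0 < Mk := by positivity
  have hcardt : ((univ : Finset (Fin k → Fin M)).card : ℝ) = Mk := by
    rw [card_univ, Fintype.card_pi]
    simp [hMk]
  have h1 : |∑ t : Fin k → Fin M, ∑ a ∈ B, Ph v n (a + sh n R t) - Mk * S0| ≤ Mk * e1 := by
    have : ∑ t : Fin k → Fin M, ∑ a ∈ B, Ph v n (a + sh n R t) - Mk * S0 =
        ∑ t : Fin k → Fin M, (∑ a ∈ B, Ph v n (a + sh n R t) - S0) := by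
      rw [sum_sub_distrib, sum_const, nsmul_eq_mul, hcardt]
    rw [this]
    refine (abs_sum_le_sum_abs _ _).trans ((sum_le_sum fun t _ => hshift t).trans (le_of_eq ?_))
    rw [sum_const, nsmul_eq_mul, hcardt]
  have h2 : |∑ a ∈ B, ∑ t : Fin k → Fin M, Ph v n (a + sh n R t) - Mk * ∑ a ∈ B, ∏ j, mt R (rho R) (pv v a (n j))| ≤
      (k * E * (Λ * M) ^ (k - 1)) * B.card := by
    have : ∑ a ∈ B, ∑ t : Fin k → Fin M, Ph v n (a + sh n R t) - Mk * ∑ a ∈ B, ∏ j, mt R (rho R) (pv v a (n j)) =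
        ∑ a ∈ B, (∑ t : Fin k → Fin M, Ph v n (a + sh n R t) - ∏ j, mt R (rho R * M) (pv v a (n j))) := by
      rw [sum_sub_distrib, mul_sum]
      congr 1
      apply sum_congr rfl
      intro a _
      simp only [mt_mul, prod_mul_distrib]
      rw [prod_const, card_univ, Fintype.card_fin]
      ring
    rw [this]
    refine (abs_sum_le_sum_abs _ _).trans ((sum_le_sum fun a ha => htri a ha).trans (le_of_eq ?_))
    rw [sum_const, nsmul_eq_mul]
    ring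
  rw [sum_comm] at h1
  have h3 : |Mk * (S0 - ∑ a ∈ B, ∏ j, mt R (rho R) (pv v a (n j)))| ≤
      Mk * e1 + (k * E * (Λ * M) ^ (k - 1)) * B.card := by
    rw [abs_le] at h1 h2 ⊢
    constructor <;> nlinarith
  rw [abs_mul, abs_of_pos hMk0] at h3
  have h4 : |S0 - ∑ a ∈ B, ∏ j, mt R (rho R) (pv v a (n j))| ≤
      (Mk * e1 + (k * E * (Λ * M) ^ (k - 1)) * B.card) / Mk := by
    rw [le_div_iff₀ hMk0, mul_comm]
    exact h3
  refine h4.trans (le_of_eq ?_)
  rw [add_div, mul_div_cancel_left₀ e1 hMk0.ne', he1]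
  have e : (k * E * (Λ * M) ^ (k - 1)) * (B.card : ℝ) / Mk = k * E * Λ ^ (k - 1) / M * B.card := by
    rcases Nat.eq_zero_or_pos k with hk0 | hk0
    · have : (k : ℝ) = 0 := by exact_mod_cast hk0
      rw [this]
      ring
    · obtain ⟨k', hk'⟩ : ∃ k', k = k' + 1 := ⟨k - 1, by omega⟩
      rw [hMk, hk', Nat.add_sub_cancel]
      rw [mul_pow, pow_succ]
      field_simp
  rw [e]
  ring

end Pool.Agent.K1H89.PL
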