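import Mathlib
import Pool.Agent.K1H89.PL.A4

/-! The average over a box: the final form. -/

set_option autoImplicit false

namespace Pool.Agent.K1H89.PL

open Finset Polynomial

lemma R_le {k D B : ℕ} (hk : k ≤ D) (L : ℝ) (hL : 1 ≤ L) (W : ℕ) (hW : (W : ℝ) ≤ L ^ B) (n : Fin k → ℕ)
    (hx : ∀ i, (n i : ℝ) ≤ L ^ B) : ((W * Dl n : ℕ) : ℝ) ≤ L ^ (B + B * D * D) := by
  have h1 : (1 : ℝ) ≤ L ^ B := one_le_pow₀ hL
  have h2 := Dl_le n (L ^ B) h1 hx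
  push_cast
  calc (W : ℝ) * Dl n ≤ L ^ B * ((L ^ B) ^ k) ^ k := by gcongr
    _ ≤ L ^ B * ((L ^ B) ^ D) ^ D := by
        gcongr
        calc ((L ^ B) ^ k) ^ k ≤ ((L ^ B) ^ D) ^ k := by gcongr
          _ ≤ ((L ^ B) ^ D) ^ D := pow_le_pow_right₀ (one_le_pow₀ h1) hk
    _ = L ^ (B + B * D * D) := by rw [← pow_mul, ← pow_mul, ← pow_add, mul_assoc]

end Pool.Agent.K1H89.PL
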