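import Mathlib
import Pool.Agent.K1H89.PL.A1
import Pool.Agent.K1H89.PL.A4
import Pool.Agent.K1H89.PL.B5

/-! The average over a box: the final form. -/

set_option autoImplicit false

namespace Pool.Agent.K1H89.PL

open Finset Polynomial
open Pool.Agent.TH445.OI (evN ev_pow)

theorem avg (d A B : ℕ) : ∃ H0 : ℕ, ∀ H : ℕ, H0 ≤ H → ∀ W : ℕ, 1 ≤ W → (W : ℝ) ≤ Real.log H ^ B →
    ∀ v : ℕ → ℤ, (∀ n : ℕ, (n : ℝ) ≤ Real.log H ^ B → |((v n : ℤ) : ℝ)| ≤ H * Real.log H ^ B) →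
    ∀ g : Fin (d + 1) → ℤ, ∀ k : ℕ, k ≤ d + 1 → ∀ n : Fin k → ℕ, StrictMono n →
    (∀ j, (n j : ℝ) ≤ Real.log H ^ B) →
    |∑ a ∈ box d H W g, Ph v n a - ∑ a ∈ box d H W g, ∏ j, mt (W * Dl n) (rho (W * Dl n)) (pv v a (n j))| ≤
      (box d H W g).card / Real.log H ^ A := by
  obtain ⟨D, hD⟩ : ∃ D, D = d + 1 := ⟨_, rfl⟩
  obtain ⟨eR, heR⟩ : ∃ e, e = B + B * D * D := ⟨_, rfl⟩
  obtain ⟨eG, heG⟩ : ∃ e, e = (eR + 2) * D := ⟨_, rfl⟩
  obtain ⟨B1, hB1⟩ : ∃ e, e = eG + eR + (B + 1) * D + A + 2 := ⟨_, rfl⟩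
  obtain ⟨A1, hA1⟩ : ∃ e, e = eG + B1 + A + 2 := ⟨_, rfl⟩
  obtain ⟨B2, hB2⟩ : ∃ e, e = 2 * eR + B * D + 2 := ⟨_, rfl⟩
  obtain ⟨H1, h1⟩ := one_dim A1 B2
  obtain ⟨H2, h2⟩ := evN _ (Real.tendsto_log_atTop.eventually_ge_atTop (4 * (D : ℝ) ^ 2 + 4))
  obtain ⟨H3, h3⟩ := evN _ (ev_pow (B1 + B2 + eG + B + A + 2) 2 1 one_pos)
  refine ⟨max (max H1 H2) (max H3 1), fun H hH W hW1 hWB v hv g k hk n hn hx => ?_⟩
  have hc1 := h2 H (by omega)
  have hc2 := h3 H (by omega)
  rw [Real.rpow_one] at hc2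
  set L := Real.log H with hL
  have hD1 : (1 : ℝ) ≤ D := by
    have : 1 ≤ D := by omega
    exact_mod_cast this
  have hDD : (D : ℝ) ≤ (D : ℝ) ^ 2 := by nlinarith
  have hL4 : 4 ≤ L := by nlinarith
  have hL1 : 1 ≤ L := by linarith
  have hL0 : 0 < L := by linarith
  have hH1 : (1 : ℝ) ≤ H := by
    have : 1 ≤ H := by omega
    exact_mod_cast this
  have hH0 : (0 : ℝ) < H := by linarith
  have pw : ∀ {a b : ℕ}, a ≤ b → L ^ a ≤ L ^ b := fun h => pow_le_pow_right₀ hL1 h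
  have p0 : ∀ a : ℕ, 0 < L ^ a := fun a => by positivity
  have hbig : 2 * L ^ (B1 + B2 + eG + B + A + 2) ≤ H := hc2
  have hN : (1 : ℝ) ≤ L ^ B := one_le_pow₀ hL1
  have hRle : ((W * Dl n : ℕ) : ℝ) ≤ L ^ eR := by
    rw [heR]
    exact R_le (by omega) L hL1 W hWB n hx
  have hR1 : 1 ≤ W * Dl n := Nat.mul_pos hW1 (Dl_pos n hn)
  set R := W * Dl n with hR
  have hWH : W ≤ H := by
    have : (W : ℝ) ≤ H := by
      calc (W : ℝ) ≤ L ^ B := hWB
        _ ≤ L ^ (B1 + B2 + eG + B + A + 2) := pw (by omega)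
        _ ≤ H := by linarith [p0 (B1 + B2 + eG + B + A + 2)]
    exact_mod_cast this
  -- M
  obtain ⟨M, hM⟩ : ∃ M : ℕ, M = ⌊(H : ℝ) / L ^ B1⌋₊ := ⟨_, rfl⟩
  have hM2 : (2 : ℝ) ≤ H / L ^ B1 := by
    rw [le_div_iff₀ (p0 B1)]
    calc 2 * L ^ B1 ≤ 2 * L ^ (B1 + B2 + eG + B + A + 2) := by
          have := pw (show B1 ≤ B1 + B2 + eG + B + A + 2 by omega)
          linarith
      _ ≤ H := hbig
  have hMle : (M : ℝ) ≤ H / L ^ B1 := by rw [hM]; exact Nat.floor_le (by positivity)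
  have hMge : (H : ℝ) / L ^ B1 / 2 ≤ M := by
    have := Nat.lt_floor_add_one ((H : ℝ) / L ^ B1)
    rw [← hM] at this
    linarith
  have hM1 : 1 ≤ M := by
    have : (1 : ℝ) ≤ M := by linarith
    exact_mod_cast this
  have hMH : (M : ℝ) ≤ H := hMle.trans (div_le_self hH0.le (one_le_pow₀ hL1))
  obtain ⟨Λ, hΛ⟩ : ∃ Λ : ℝ, Λ = L ^ (eR + 2) := ⟨_, rfl⟩
  have hΛ2 : 2 * L ≤ Λ := by
    rw [hΛ]
    calc 2 * L ≤ L * L := by nlinarith
      _ = L ^ 2 := by ring
      _ ≤ L ^ (eR + 2) := pw (by omega)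
  have hΛ1 : 1 ≤ Λ := by linarith
  have hkD : k ≤ D := by omega
  have hkDR : (k : ℝ) ≤ D := by exact_mod_cast hkD
  have hΛk : ∀ j : ℕ, j ≤ D → Λ ^ j ≤ L ^ eG := by
    intro j hj
    rw [hΛ, ← pow_mul, heG]
    exact pw (Nat.mul_le_mul_left _ hj)
  have main := avg_core (d := d) (k := k) (H := H) (W := W) (M := M) hk hW1 hWH hM1 v g n hn (L ^ B) (H * L ^ B)
    (H * L ^ B2) Λ (H / L ^ A1) hN hx (fun i => hv _ (hx i)) ?_ ?_ (by positivity) ?_ ?_
  · refine main.trans ?_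
    rw [div_eq_inv_mul ((box d H W g).card : ℝ)]
    apply mul_le_mul_of_nonneg_right _ (Nat.cast_nonneg _)
    -- the two error terms
    have hA1' : Λ ^ k * (((d : ℝ) + 1) * ((((R : ℕ) : ℝ) * (M * (k * (1 + L ^ B) ^ k)) + W) / H)) ≤
        2 * (L ^ (A + 1))⁻¹ := by
      have e1 : ((d : ℝ) + 1) = D := by rw [hD]; push_cast; ring
      rw [e1]
      have e2 : (1 + L ^ B) ^ k ≤ L ^ ((B + 1) * D) := by
        calc (1 + L ^ B) ^ k ≤ (L ^ (B + 1)) ^ k := by
              apply pow_le_pow_left₀ (by positivity)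
              rw [pow_succ]
              nlinarith
          _ = L ^ ((B + 1) * k) := by rw [← pow_mul]
          _ ≤ L ^ ((B + 1) * D) := pw (Nat.mul_le_mul_left _ hkD)
      have e3 : (((R : ℕ) : ℝ) * (M * (k * (1 + L ^ B) ^ k)) + W) / H ≤
          D * (L ^ (eR + (B + 1) * D) / L ^ B1) + L ^ B / H := by
        rw [add_div]
        have e4 : ((R : ℕ) : ℝ) * (M * (k * (1 + L ^ B) ^ k)) / H ≤ D * (L ^ (eR + (B + 1) * D) / L ^ B1) := by
          rw [div_le_iff₀ hH0]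
          calc ((R : ℕ) : ℝ) * (M * (k * (1 + L ^ B) ^ k)) ≤ L ^ eR * (H / L ^ B1 * (D * L ^ ((B + 1) * D))) := by gcongr
            _ = D * (L ^ (eR + (B + 1) * D) / L ^ B1) * H := by
                rw [pow_add]
                ring
        have e5 : (W : ℝ) / H ≤ L ^ B / H := by gcongr
        exact add_le_add e4 e5
      calc Λ ^ k * ((D : ℝ) * ((((R : ℕ) : ℝ) * (M * (k * (1 + L ^ B) ^ k)) + W) / H))
          ≤ L ^ eG * (D * (D * (L ^ (eR + (B + 1) * D) / L ^ B1) + L ^ B / H)) := by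
            gcongr
            exact hΛk k hkD
        _ = (D * D) * L ^ eG * (L ^ (eR + (B + 1) * D) / L ^ B1) + D * L ^ eG * L ^ B / H := by ring
        _ ≤ (L ^ (A + 1))⁻¹ + (L ^ (A + 1))⁻¹ := by
            apply add_le_add
            · rw [← mul_div_assoc, div_le_iff₀ (p0 _), ← one_div, one_div_mul_eq_div, le_div_iff₀ (p0 _)]
              have hDDL : (D : ℝ) * D ≤ L := by nlinarith
              calc (D : ℝ) * D * L ^ eG * L ^ (eR + (B + 1) * D) * L ^ (A + 1)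
                  ≤ L * L ^ eG * L ^ (eR + (B + 1) * D) * L ^ (A + 1) := by gcongr
                _ = L ^ (eG + eR + (B + 1) * D + A + 2) := by
                    rw [← pow_succ', ← pow_add, ← pow_add]
                    congr 1
                    ring
                _ = L ^ B1 := by rw [hB1]
            · rw [div_le_iff₀ hH0, ← one_div, one_div_mul_eq_div, le_div_iff₀ (p0 _)]
              calc (D : ℝ) * L ^ eG * L ^ B * L ^ (A + 1) ≤ L * L ^ eG * L ^ B * L ^ (A + 1) := by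
                    gcongr
                    nlinarith
                _ = L ^ (eG + B + A + 2) := by
                    rw [← pow_succ', ← pow_add, ← pow_add]
                    congr 1
                    ring
                _ ≤ L ^ (B1 + B2 + eG + B + A + 2) := pw (by omega)
                _ ≤ H := by linarith [p0 (B1 + B2 + eG + B + A + 2)]
        _ = 2 * (L ^ (A + 1))⁻¹ := by ring
    have hA2 : (k : ℝ) * (H / L ^ A1) * Λ ^ (k - 1) / M ≤ (L ^ (A + 1))⁻¹ := by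
      have hM0 : (0 : ℝ) < M := by exact_mod_cast hM1
      rw [div_le_iff₀ hM0]
      calc (k : ℝ) * (H / L ^ A1) * Λ ^ (k - 1) ≤ D * (H / L ^ A1) * L ^ eG := by
            gcongr
            exact hΛk _ (by omega)
        _ ≤ (L ^ (A + 1))⁻¹ * (H / L ^ B1 / 2) := by
            rw [hA1]
            have : (L ^ (A + 1))⁻¹ * (H / L ^ B1 / 2) = (1 / 2) * (H * (L ^ (A + 1))⁻¹ * (L ^ B1)⁻¹) := by
              field_simp
            rw [this]
            have e6 : (D : ℝ) * (H / L ^ (eG + B1 + A + 2)) * L ^ eG = (D / L) * (H * (L ^ (A + 1))⁻¹ * (L ^ B1)⁻¹) := by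
              have : L ^ (eG + B1 + A + 2) = L ^ eG * L ^ B1 * L ^ (A + 1) * L := by
                rw [← pow_add, ← pow_add, ← pow_succ]
                congr 1
              rw [this]
              field_simp
            rw [e6]
            apply mul_le_mul_of_nonneg_right _ (by positivity)
            rw [div_le_iff₀ hL0]
            nlinarith
        _ ≤ (L ^ (A + 1))⁻¹ * M := by gcongr
    calc _ ≤ 2 * (L ^ (A + 1))⁻¹ + (L ^ (A + 1))⁻¹ := add_le_add hA1' hA2
      _ = 3 * (L ^ (A + 1))⁻¹ := by ring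
      _ ≤ (L ^ A)⁻¹ := by
          rw [pow_succ, mul_inv]
          have : 3 * ((L ^ A)⁻¹ * L⁻¹) = (L ^ A)⁻¹ * (3 / L) := by ring
          rw [this]
          apply mul_le_of_le_one_right (by positivity)
          rw [div_le_one hL0]
          linarith
  · -- th bound
    intro x hx
    have hX1 : (1 : ℝ) ≤ H * L ^ B2 := by
      have := one_le_pow₀ hL1 (n := B2)
      nlinarith
    refine (th_le_log hX1 hx).trans (le_trans ?_ hΛ2)
    have hXH : (H : ℝ) * L ^ B2 ≤ (H : ℝ) ^ 2 := by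
      rw [pow_two]
      gcongr
      calc L ^ B2 ≤ L ^ (B1 + B2 + eG + B + A + 2) := pw (by omega)
        _ ≤ H := by linarith [p0 (B1 + B2 + eG + B + A + 2)]
    have := Real.log_le_log (by positivity) hXH
    rw [Real.log_pow] at this
    push_cast at this
    exact this
  · -- rho bound
    unfold rho
    have hφ : (1 : ℝ) ≤ (Nat.totient R : ℝ) := by exact_mod_cast Nat.totient_pos.2 hR1
    refine (div_le_self (Nat.cast_nonneg _) hφ).trans (hRle.trans ?_)
    rw [hΛ]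
    exact pw (by omega)
  · -- one dimension
    intro q hq1 hqR x hx1 hx2
    have hRq1 : 1 ≤ R * q := Nat.mul_pos hR1 hq1
    have hqle : (q : ℝ) ≤ L ^ eR := by
      refine le_trans ?_ hRle
      exact_mod_cast Nat.le_of_dvd hR1 hqR
    have hRq : ((R * q : ℕ) : ℝ) ≤ L ^ B2 := by
      push_cast
      calc (R : ℝ) * q ≤ L ^ eR * L ^ eR := by gcongr
        _ = L ^ (eR + eR) := by rw [← pow_add]
        _ ≤ L ^ B2 := pw (by omega)
    have h := h1 H (by omega) (R * q) hRq1 hRq x M hx1 hx2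
    have e : mt R (rho R * M) x = if IsCoprime x ((R * q : ℕ) : ℤ) then
        ((R * q : ℕ) : ℝ) / (Nat.totient (R * q) : ℝ) * M else 0 := by
      unfold mt
      rw [rho_mul hqR hR1]
      by_cases hcx : IsCoprime x (R : ℤ)
      · rw [if_pos hcx, if_pos ((coprime_mul hqR x).2 hcx)]
      · rw [if_neg hcx, if_neg (fun h => hcx ((coprime_mul hqR x).1 h))]
    rw [e]
    exact h
  · -- range
    have e1 : ((d : ℝ) + 1) = D := by rw [hD]; push_cast; ring
    rw [e1]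
    have g1 : (H : ℝ) * L ^ B ≤ H * L ^ (eR + B * D) := by
      gcongr
      rw [heR]
      nlinarith [Nat.zero_le (B * D * D), Nat.zero_le (B * D)]
    have g2 : (D : ℝ) * (H * (L ^ B) ^ d) ≤ D * (H * L ^ (eR + B * D)) := by
      rw [← pow_mul]
      gcongr
      have : B * d ≤ B * D := Nat.mul_le_mul_left _ (by omega)
      omega
    have g3 : ((R : ℕ) : ℝ) * (k * (L ^ B) ^ k) * M ≤ D * (H * L ^ (eR + B * D)) := by
      rw [← pow_mul, pow_add]
      calc ((R : ℕ) : ℝ) * (k * L ^ (B * k)) * M ≤ L ^ eR * (D * L ^ (B * D)) * H := by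
            gcongr
        _ = D * (H * (L ^ eR * L ^ (B * D))) := by ring
    calc (H : ℝ) * L ^ B + D * (H * (L ^ B) ^ d) + ((R : ℕ) : ℝ) * (k * (L ^ B) ^ k) * M
        ≤ H * L ^ (eR + B * D) + D * (H * L ^ (eR + B * D)) + D * (H * L ^ (eR + B * D)) := add_le_add (add_le_add g1 g2) g3
      _ = (1 + 2 * D) * (H * L ^ (eR + B * D)) := by ring
      _ ≤ L * (H * L ^ (eR + B * D)) := by
          gcongr
          nlinarith
      _ = H * L ^ (eR + B * D + 1) := by ring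
      _ ≤ H * L ^ B2 := by
          gcongr
          omega

end Pool.Agent.K1H89.PL
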