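import Mathlib
import Pool.Agent.K1H89.PL.A4

/-! The local factors. -/

set_option autoImplicit false

namespace Pool.Agent.K1H89.PL

open Finset Polynomial

lemma few_mod (H W p : ℕ) (c y : ℤ) (hW : 1 ≤ W) (hp : p.Prime) (hpW : p.Coprime W) :
    (((cls H W c).filter (fun x => (p : ℤ) ∣ y + x)).card : ℝ) ≤ (2 * H + 1) / (p * W) + 1 := by
  have hpos : (0 : ℝ) ≤ (2 * H + 1) / (p * W) := by positivity
  rcases ((cls H W c).filter (fun x => (p : ℤ) ∣ y + x)).eq_empty_or_nonempty with h | ⟨x0, hx0⟩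
  · rw [h, card_empty]
    push_cast
    linarith
  · have hsub : (cls H W c).filter (fun x => (p : ℤ) ∣ y + x) ⊆ cls H (p * W) x0 := by
      intro x hx
      unfold cls at hx hx0 ⊢
      rw [mem_filter, mem_filter] at hx hx0
      rw [mem_filter]
      refine ⟨hx.1.1, ?_⟩
      have h1 : x ≡ x0 [ZMOD W] := hx.1.2.trans hx0.1.2.symm
      have h2 : x ≡ x0 [ZMOD p] := by
        rw [Int.modEq_iff_dvd]
        have := dvd_sub hx0.2 hx.2
        have e : y + x0 - (y + x) = x0 - x := by ring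
        rwa [e] at this
      have h3 := (Int.modEq_and_modEq_iff_modEq_mul (m := (p : ℤ)) (n := (W : ℤ)) (a := x) (b := x0) (by
        simpa using hpW)).1 ⟨h2, h1⟩
      push_cast
      exact h3
    have h1 := (abs_le.1 (cls_card H (p * W) x0 (Nat.mul_pos hp.pos hW))).2
    have h2 : (((cls H W c).filter (fun x => (p : ℤ) ∣ y + x)).card : ℝ) ≤ ((cls H (p * W) x0).card : ℝ) := by
      exact_mod_cast card_le_card hsub
    push_cast at h1
    linarith

lemma few_mod' (H W p : ℕ) (c y : ℤ) (hW : 1 ≤ W) (hp : p.Prime) (hpW : p.Coprime W) (hH : p * W ≤ H) :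
    (((cls H W c).filter (fun x => (p : ℤ) ∣ y + x)).card : ℝ) ≤ 2 / p * (cls H W c).card := by
  have h1 := few_mod H W p c y hW hp hpW
  have h2 := (abs_le.1 (cls_card H W c hW)).1
  have hW0 : (0 : ℝ) < W := by exact_mod_cast hW
  have hp2 : (2 : ℝ) ≤ p := by exact_mod_cast hp.two_le
  have hp0 : (0 : ℝ) < p := by linarith
  have hH' : (p : ℝ) * W ≤ H := by exact_mod_cast hH
  have h3 : (2 : ℝ) ≤ (2 * H + 1) / (p * W) := by
    rw [le_div_iff₀ (by positivity)]
    linarith
  have h4 : 2 / (p : ℝ) * ((2 * H + 1) / W - 1) ≤ 2 / p * (cls H W c).card := by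
    gcongr
    linarith
  have h5 : 2 / (p : ℝ) * ((2 * H + 1) / W - 1) = 2 * ((2 * H + 1) / (p * W)) - 2 / p := by
    field_simp
  have h6 : 2 / (p : ℝ) ≤ 1 := by rw [div_le_one hp0]; exact hp2
  linarith

lemma box_mod (d H W p : ℕ) (g : Fin (d + 1) → ℤ) (v : ℕ → ℤ) (n : ℕ) (hW : 1 ≤ W) (hp : p.Prime)
    (hpW : p.Coprime W) (hH : p * W ≤ H) :
    (((box d H W g).filter (fun a => (p : ℤ) ∣ pv v a n)).card : ℝ) ≤ 2 / p * (box d H W g).card := by
  classical
  set T : Finset (Fin d → ℤ) := Fintype.piFinset (fun j : Fin d => cls H W (g j.succ)) with hT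
  have hmaps : ∀ a ∈ (box d H W g).filter (fun a => (p : ℤ) ∣ pv v a n), Fin.tail a ∈ T := by
    intro a ha
    rw [mem_filter] at ha
    unfold box at ha
    rw [Fintype.mem_piFinset] at ha
    rw [hT, Fintype.mem_piFinset]
    intro j
    exact ha.1 j.succ
  have hcard := card_eq_sum_card_fiberwise hmaps
  have hfib : ∀ b ∈ T, ((((box d H W g).filter (fun a => (p : ℤ) ∣ pv v a n)).filter (fun a => Fin.tail a = b)).card : ℝ) ≤
      2 / p * (cls H W (g 0)).card := by
    intro b _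
    refine le_trans ?_ (few_mod' H W p (g 0) (v n + ∑ j : Fin d, b j * (n : ℤ) ^ ((j : ℕ) + 1)) hW hp hpW hH)
    have : (((box d H W g).filter (fun a => (p : ℤ) ∣ pv v a n)).filter (fun a => Fin.tail a = b)).card ≤
        ((cls H W (g 0)).filter (fun x => (p : ℤ) ∣ (v n + ∑ j : Fin d, b j * (n : ℤ) ^ ((j : ℕ) + 1)) + x)).card := by
      apply card_le_card_of_injOn (fun a => a 0)
      · intro a ha
        simp only [coe_filter, Set.mem_ofPred_eq, mem_filter] at ha ⊢
        obtain ⟨⟨ha1, ha2⟩, ha3⟩ := ha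
        unfold box at ha1
        rw [Fintype.mem_piFinset] at ha1
        refine ⟨ha1 0, ?_⟩
        have e : pv v a n = (v n + ∑ j : Fin d, b j * (n : ℤ) ^ ((j : ℕ) + 1)) + a 0 := by
          unfold pv
          rw [Fin.sum_univ_succ, ← ha3]
          simp only [Fin.val_zero, pow_zero, mul_one, Fin.tail, Fin.val_succ]
          ring
        rwa [e] at ha2
      · intro a ha b' hb' hab
        simp only [coe_filter, Set.mem_ofPred_eq] at ha hb'
        have h1 : Fin.tail a = Fin.tail b' := ha.2.trans hb'.2.symm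
        rw [← Fin.cons_self_tail a, ← Fin.cons_self_tail b', h1]
        congr 1
    exact_mod_cast this
  have hbox : ((box d H W g).card : ℝ) = (cls H W (g 0)).card * T.card := by
    unfold box
    rw [hT, Fintype.card_piFinset, Fintype.card_piFinset, Fin.prod_univ_succ]
    push_cast
    ring
  rw [hcard, hbox]
  push_cast
  refine (sum_le_sum hfib).trans (le_of_eq ?_)
  rw [sum_const, nsmul_eq_mul]
  ring

lemma pow_lin (c x : ℝ) (hc : 0 ≤ c) (hx0 : 0 ≤ x) (hx1 : x ≤ 1) (k : ℕ) :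
    (1 + c * x) ^ k ≤ 1 + ((1 + c) ^ k - 1) * x := by
  induction k with
  | zero => simp
  | succ k ih =>
    have h1 : (1 : ℝ) ≤ (1 + c) ^ k := one_le_pow₀ (by linarith)
    calc (1 + c * x) ^ (k + 1) = (1 + c * x) ^ k * (1 + c * x) := pow_succ _ _
      _ ≤ (1 + ((1 + c) ^ k - 1) * x) * (1 + c * x) := by gcongr
      _ = 1 + (((1 + c) ^ k - 1) + c + c * ((1 + c) ^ k - 1) * x) * x := by ring
      _ ≤ 1 + (((1 + c) ^ k - 1) + c + c * ((1 + c) ^ k - 1) * 1) * x := by
          have : 0 ≤ (1 + c) ^ k - 1 := by linarith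
          gcongr
      _ = 1 + ((1 + c) ^ (k + 1) - 1) * x := by ring

/-- the primes dividing `Δ` but not `W` -/
def pf (W Δ : ℕ) : Finset ℕ := Δ.primeFactors.filter (fun p => ¬ p ∣ W)

lemma rho_prod {n : ℕ} (hn : 1 ≤ n) : rho n = ∏ p ∈ n.primeFactors, ((p : ℝ) / (p - 1)) := by
  have h := Nat.totient_mul_prod_primeFactors n
  have h2 : (Nat.totient n : ℝ) * ∏ p ∈ n.primeFactors, (p : ℝ) = n * ∏ p ∈ n.primeFactors, ((p : ℝ) - 1) := by
    have h3 : ((Nat.totient n * ∏ p ∈ n.primeFactors, p : ℕ) : ℝ) = ((n * ∏ p ∈ n.primeFactors, (p - 1) : ℕ) : ℝ) := by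
      rw [h]
    push_cast at h3
    rw [h3]
    congr 1
    apply prod_congr rfl
    intro p hp
    have := (Nat.prime_of_mem_primeFactors hp).one_le
    rw [Nat.cast_sub this]
    simp
  unfold rho
  rw [prod_div_distrib]
  have h4 : (0 : ℝ) < (Nat.totient n : ℝ) := by exact_mod_cast Nat.totient_pos.2 hn
  have h5 : (0 : ℝ) < ∏ p ∈ n.primeFactors, ((p : ℝ) - 1) := by
    apply prod_pos
    intro p hp
    have : (2 : ℝ) ≤ p := by exact_mod_cast (Nat.prime_of_mem_primeFactors hp).two_le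
    linarith
  rw [div_eq_div_iff h4.ne' h5.ne', ← h2]
  ring

lemma rho_split {W Δ : ℕ} (hW : 1 ≤ W) (hΔ : 1 ≤ Δ) : rho (W * Δ) = rho W * ∏ p ∈ pf W Δ, ((p : ℝ) / (p - 1)) := by
  have hWΔ : 1 ≤ W * Δ := Nat.mul_pos hW hΔ
  rw [rho_prod hWΔ, rho_prod hW]
  have e : (W * Δ).primeFactors = W.primeFactors ∪ pf W Δ := by
    rw [Nat.primeFactors_mul (by omega) (by omega)]
    ext p
    unfold pf
    simp only [mem_union, mem_filter, Nat.mem_primeFactors]
    constructor
    · rintro (h | h)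
      · exact Or.inl h
      · by_cases hpW : p ∣ W
        · exact Or.inl ⟨h.1, hpW, by omega⟩
        · exact Or.inr ⟨h, hpW⟩
    · rintro (h | h)
      · exact Or.inl h
      · exact Or.inr h.1
  rw [e, prod_union]
  rw [disjoint_left]
  intro p hp hp2
  unfold pf at hp2
  rw [mem_filter] at hp2
  exact hp2.2 (Nat.dvd_of_mem_primeFactors hp)

/-- `∏ (1 + C / p)` over the primes dividing `Δ` but not `W` -/
noncomputable def GG (W Δ : ℕ) (C : ℝ) : ℝ := ∏ p ∈ pf W Δ, (1 + C / p)

lemma pf_prime {W Δ p : ℕ} (hp : p ∈ pf W Δ) : p.Prime ∧ p ∣ Δ ∧ ¬ p ∣ W := by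
  unfold pf at hp
  rw [mem_filter] at hp
  exact ⟨Nat.prime_of_mem_primeFactors hp.1, Nat.dvd_of_mem_primeFactors hp.1, hp.2⟩

lemma GG_ge_sum (W Δ : ℕ) (C : ℝ) (hC : 0 ≤ C) : 1 + ∑ p ∈ pf W Δ, C / p ≤ GG W Δ C := by
  unfold GG
  induction pf W Δ using Finset.induction_on with
  | empty => simp
  | insert p s hp ih =>
    rw [sum_insert hp, prod_insert hp]
    have h1 : 0 ≤ C / (p : ℝ) := by positivity
    have h2 : 0 ≤ ∑ q ∈ s, C / (q : ℝ) := sum_nonneg fun q _ => by positivity
    nlinarith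

lemma GG_ge_one (W Δ : ℕ) (C : ℝ) (hC : 0 ≤ C) : 1 ≤ GG W Δ C := by
  have h := GG_ge_sum W Δ C hC
  have : 0 ≤ ∑ p ∈ pf W Δ, C / p := sum_nonneg fun p _ => by positivity
  linarith

lemma rho_le_GG {W Δ : ℕ} (hW : 1 ≤ W) (hΔ : 1 ≤ Δ) (k : ℕ) : rho (W * Δ) ^ k ≤ rho W ^ k * GG W Δ (3 ^ k) := by
  have h0 : 0 ≤ rho W := by linarith [rho_ge hW]
  rw [rho_split hW hΔ, mul_pow]
  gcongr
  unfold GG
  rw [← prod_pow]
  apply prod_le_prod
  · intro p hp
    have : (2 : ℝ) ≤ p := by exact_mod_cast (pf_prime hp).1.two_le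
    have : (0 : ℝ) ≤ (p : ℝ) / (p - 1) := div_nonneg (by linarith) (by linarith)
    positivity
  · intro p hp
    have h2 : (2 : ℝ) ≤ p := by exact_mod_cast (pf_prime hp).1.two_le
    have h3 : (p : ℝ) / (p - 1) ≤ 1 + 2 * (1 / p) := by
      rw [div_le_iff₀ (by linarith)]
      have : (1 + 2 * (1 / (p : ℝ))) * (p - 1) = p + 1 - 2 / p := by field_simp; ring
      rw [this]
      have : 2 / (p : ℝ) ≤ 1 := by rw [div_le_one (by linarith)]; exact h2
      linarith
    have h4 : (0 : ℝ) ≤ (p : ℝ) / (p - 1) := div_nonneg (by linarith) (by linarith)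
    have h5 : (0 : ℝ) ≤ 1 / (p : ℝ) := by positivity
    have h6 : 1 / (p : ℝ) ≤ 1 := by rw [div_le_one (by linarith)]; linarith
    calc ((p : ℝ) / (p - 1)) ^ k ≤ (1 + 2 * (1 / p)) ^ k := by gcongr
      _ ≤ 1 + ((1 + 2) ^ k - 1) * (1 / p) := pow_lin 2 _ (by norm_num) h5 h6 k
      _ ≤ 1 + (3 : ℝ) ^ k * (1 / p) := by
          gcongr
          norm_num
      _ = 1 + (3 : ℝ) ^ k / p := by ring

lemma pv_congr {d H W : ℕ} {g a : Fin (d + 1) → ℤ} (ha : a ∈ box d H W g) (v : ℕ → ℤ) (x : ℕ) :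
    pv v a x ≡ pv v g x [ZMOD W] := by
  unfold box at ha
  rw [Fintype.mem_piFinset] at ha
  unfold pv
  apply Int.ModEq.add_left
  apply Int.ModEq.sum
  intro j _
  have := ha j
  unfold cls at this
  rw [mem_filter] at this
  exact this.2.mul_right _

lemma cop_congr {W : ℕ} {x y : ℤ} (h : x ≡ y [ZMOD W]) : IsCoprime x (W : ℤ) ↔ IsCoprime y (W : ℤ) := by
  obtain ⟨z, hz⟩ := h.symm.dvd
  have e : x = y + W * z := by linarith
  rw [e]
  exact IsCoprime.add_mul_left_left_iff

open Classical in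
/-- the local main term -/
theorem loc (d H W : ℕ) (hW : 1 ≤ W) (g : Fin (d + 1) → ℤ) (v : ℕ → ℤ) (k : ℕ) (n : Fin k → ℕ) (hn : StrictMono n)
    (hH : ∀ p ∈ pf W (Dl n), p * W ≤ H) :
    |∑ a ∈ box d H W g, ∏ j, mt (W * Dl n) (rho (W * Dl n)) (pv v a (n j)) -
      (if ∀ j, IsCoprime (pv v g (n j)) (W : ℤ) then rho W ^ k else 0) * (box d H W g).card| ≤
      rho W ^ k * (GG W (Dl n) (3 ^ k) - 1) * (box d H W g).card := by
  set R := W * Dl n with hR
  have hΔ := Dl_pos n hn
  have hR1 : 1 ≤ R := Nat.mul_pos hW hΔ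
  have hρW : 1 ≤ rho W := rho_ge hW
  have hρR : 1 ≤ rho R := rho_ge hR1
  have hG := GG_ge_one W (Dl n) (3 ^ k) (by positivity)
  set B := box d H W g with hB
  have hB0 : (0 : ℝ) ≤ B.card := Nat.cast_nonneg _
  have hterm : ∀ a : Fin (d + 1) → ℤ, ∏ j, mt R (rho R) (pv v a (n j)) = if ∀ j, IsCoprime (pv v a (n j)) (R : ℤ) then rho R ^ k else 0 := by
    intro a
    split_ifs with h
    · calc ∏ j, mt R (rho R) (pv v a (n j)) = ∏ _j : Fin k, rho R := by
            apply prod_congr rfl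
            intro j _
            unfold mt
            rw [if_pos (h j)]
        _ = rho R ^ k := by simp
    · push Not at h
      obtain ⟨j, hj⟩ := h
      apply prod_eq_zero (mem_univ j)
      unfold mt
      rw [if_neg hj]
  simp only [hterm]
  rw [← sum_filter, sum_const, nsmul_eq_mul]
  set Q := B.filter (fun a => ∀ j, IsCoprime (pv v a (n j)) (R : ℤ)) with hQ
  split_ifs with hc
  · have hup : (Q.card : ℝ) ≤ B.card := by exact_mod_cast card_le_card (filter_subset _ _)
    have hlow : (1 - ∑ p ∈ pf W (Dl n), (2 * k : ℝ) / p) * B.card ≤ Q.card := by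
      have hsub : B ⊆ Q ∪ (pf W (Dl n)).biUnion (fun p => (univ : Finset (Fin k)).biUnion (fun j =>
          B.filter (fun a => (p : ℤ) ∣ pv v a (n j)))) := by
        intro a ha
        rw [mem_union]
        by_cases h : ∀ j, IsCoprime (pv v a (n j)) (R : ℤ)
        · left
          rw [hQ, mem_filter]
          exact ⟨ha, h⟩
        · right
          push Not at h
          obtain ⟨j, hj⟩ := h
          have hW2 : IsCoprime (pv v a (n j)) (W : ℤ) := (cop_congr (pv_congr ha v (n j))).2 (hc j)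
          have hj2 : ¬ IsCoprime (pv v a (n j)) ((Dl n : ℕ) : ℤ) := by
            intro h2
            apply hj
            rw [hR]
            push_cast
            exact hW2.mul_right h2
          rw [Int.isCoprime_iff_gcd_eq_one] at hj2
          obtain ⟨p, hp, hpd⟩ := Nat.exists_prime_and_dvd hj2
          have hp1 : (p : ℤ) ∣ pv v a (n j) := (Int.natCast_dvd_natCast.2 hpd).trans (Int.gcd_dvd_left _ _)
          have hp2 : (p : ℤ) ∣ ((Dl n : ℕ) : ℤ) := (Int.natCast_dvd_natCast.2 hpd).trans (Int.gcd_dvd_right _ _)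
          have hp3 : p ∣ Dl n := by exact_mod_cast hp2
          have hpW : ¬ p ∣ W := by
            intro h3
            have h4 : (p : ℤ) ∣ 1 := by
              obtain ⟨x, y, hxy⟩ := hW2
              rw [← hxy]
              exact dvd_add (hp1.mul_left _) ((Int.natCast_dvd_natCast.2 h3).mul_left _)
            have h5 : p ∣ 1 := by exact_mod_cast h4
            exact hp.one_lt.ne' (Nat.dvd_one.1 h5)
          rw [mem_biUnion]
          refine ⟨p, ?_, ?_⟩
          · unfold pf
            rw [mem_filter, Nat.mem_primeFactors]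
            exact ⟨⟨hp, hp3, hΔ.ne'⟩, hpW⟩
          · rw [mem_biUnion]
            refine ⟨j, mem_univ _, ?_⟩
            rw [mem_filter]
            exact ⟨ha, hp1⟩
      have h1 : (B.card : ℝ) ≤ Q.card + ∑ p ∈ pf W (Dl n), ∑ j : Fin k, ((B.filter (fun a => (p : ℤ) ∣ pv v a (n j))).card : ℝ) := by
        have h2 := (card_le_card hsub).trans (card_union_le _ _)
        have h3 : ((pf W (Dl n)).biUnion (fun p => (univ : Finset (Fin k)).biUnion (fun j =>
          B.filter (fun a => (p : ℤ) ∣ pv v a (n j))))).card ≤ ∑ p ∈ pf W (Dl n), ∑ j : Fin k, (B.filter (fun a => (p : ℤ) ∣ pv v a (n j))).card :=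
          card_biUnion_le.trans (sum_le_sum fun p _ => card_biUnion_le)
        exact_mod_cast h2.trans (Nat.add_le_add_left h3 _)
      have h2 : ∑ p ∈ pf W (Dl n), ∑ j : Fin k, ((B.filter (fun a => (p : ℤ) ∣ pv v a (n j))).card : ℝ) ≤
          ∑ p ∈ pf W (Dl n), (2 * k : ℝ) / p * B.card := by
        apply sum_le_sum
        intro p hp
        obtain ⟨q1, q2, q3⟩ := pf_prime hp
        calc ∑ j : Fin k, ((B.filter (fun a => (p : ℤ) ∣ pv v a (n j))).card : ℝ) ≤ ∑ _j : Fin k, 2 / (p : ℝ) * B.card :=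
              sum_le_sum fun j _ => box_mod d H W p g v (n j) hW q1 ((Nat.Prime.coprime_iff_not_dvd q1).2 q3) (hH p hp)
          _ = (2 * k : ℝ) / p * B.card := by
              rw [sum_const, card_univ, Fintype.card_fin, nsmul_eq_mul]
              ring
      rw [← sum_mul] at h2
      linarith
    have hk3 : (2 * k : ℝ) ≤ 3 ^ k := by
      have : 2 * k ≤ 3 ^ k := by
        induction k with
        | zero => simp
        | succ k ih =>
          clear * -
          induction k with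
          | zero => norm_num
          | succ k ih => rw [pow_succ]; omega
      exact_mod_cast this
    have hsum : ∑ p ∈ pf W (Dl n), (2 * k : ℝ) / p ≤ GG W (Dl n) (3 ^ k) - 1 := by
      have h1 := GG_ge_sum W (Dl n) (3 ^ k) (by positivity)
      have h2 : ∑ p ∈ pf W (Dl n), (2 * k : ℝ) / p ≤ ∑ p ∈ pf W (Dl n), (3 : ℝ) ^ k / p := by
        apply sum_le_sum
        intro p _
        gcongr
      linarith
    have hρ := rho_le_GG hW hΔ k
    rw [← hR] at hρ
    have hρWk : 0 < rho W ^ k := by positivity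
    have hρRW : rho W ^ k ≤ rho R ^ k := by
      apply pow_le_pow_left₀ (by linarith)
      rw [hR, rho_split hW hΔ]
      apply le_mul_of_one_le_right (by linarith)
      have : ∏ p ∈ pf W (Dl n), (1 : ℝ) ≤ ∏ p ∈ pf W (Dl n), ((p : ℝ) / (p - 1)) := by
        apply prod_le_prod (fun _ _ => zero_le_one)
        intro p hp
        have : (2 : ℝ) ≤ p := by exact_mod_cast (pf_prime hp).1.two_le
        rw [one_le_div (by linarith)]
        linarith
      simpa using this
    rw [abs_le]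
    constructor
    · -- lower bound
      have h1 : rho W ^ k * (Q.card : ℝ) ≤ Q.card * rho R ^ k := by
        rw [mul_comm]
        gcongr
      have h2 : rho W ^ k * ((1 - ∑ p ∈ pf W (Dl n), (2 * k : ℝ) / p) * B.card) ≤ rho W ^ k * Q.card := by gcongr
      have h3 : rho W ^ k * ((∑ p ∈ pf W (Dl n), (2 * k : ℝ) / p) * B.card) ≤
          rho W ^ k * ((GG W (Dl n) (3 ^ k) - 1) * B.card) := by gcongr
      nlinarith
    · have h1 : (Q.card : ℝ) * rho R ^ k ≤ B.card * (rho W ^ k * GG W (Dl n) (3 ^ k)) := by gcongr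
      nlinarith
  · have hQ0 : Q = ∅ := by
      rw [hQ, filter_eq_empty_iff]
      intro a ha hcon
      apply hc
      intro j
      have h1 := hcon j
      rw [hR] at h1
      push_cast at h1
      exact (cop_congr (pv_congr ha v (n j))).1 h1.of_mul_right_left
    rw [hQ0]
    simp only [card_empty, Nat.cast_zero, zero_mul, sub_zero, abs_zero]
    have : 0 ≤ GG W (Dl n) (3 ^ k) - 1 := by linarith
    positivity

end Pool.Agent.K1H89.PL
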