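import Mathlib
import Pool.Agent.K1H89.PL.A6
import Pool.Agent.K1H89.PL.B0
import Pool.Agent.H305R2.MertensE

/-! The average of `GG` over differences. -/

set_option autoImplicit false

namespace Pool.Agent.K1H89.PL

open Finset Filter
open Pool.Agent.K1H89.Ev (evN ev_pow)

/-- the primes up to `N` -/
def prN (N : ℕ) : Finset ℕ := (Icc 1 N).filter Nat.Prime

/-- the product of Mertens -/
noncomputable def MP (N : ℕ) : ℝ := ∏ p ∈ prN N, (1 - (p : ℝ)⁻¹)⁻¹

lemma mert : ∃ K : ℝ, 1 ≤ K ∧ ∀ N : ℕ, 2 ≤ N → MP N ≤ K * Real.log N := by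
  obtain ⟨K, hK⟩ := (Pool.Agent.H305R2.mertens_three).bddAbove_range
  refine ⟨max K 1, le_max_right _ _, fun N hN => ?_⟩
  have h := hK ⟨N, rfl⟩
  have hl : 0 < Real.log N := Real.log_pos (by exact_mod_cast hN)
  simp only at h
  rw [div_le_iff₀ hl] at h
  unfold MP prN
  exact h.trans (mul_le_mul_of_nonneg_right (le_max_left _ _) hl.le)

lemma mem_prN {N p : ℕ} : p ∈ prN N ↔ p ≤ N ∧ p.Prime := by
  unfold prN
  rw [mem_filter, mem_Icc]
  constructor
  · rintro ⟨⟨h1, h2⟩, h3⟩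
    exact ⟨h2, h3⟩
  · rintro ⟨h1, h2⟩
    exact ⟨⟨h2.one_le, h1⟩, h2⟩

lemma prod_lin_le (Y C : ℕ) : ∏ p ∈ prN Y, (1 + (C : ℝ) / p) ≤ MP Y ^ C := by
  unfold MP
  rw [← prod_pow]
  apply Finset.prod_le_prod
  · intro p _
    positivity
  · intro p hp
    have h2 : (2 : ℝ) ≤ p := by exact_mod_cast (mem_prN.1 hp).2.two_le
    have hp0 : (0 : ℝ) < (p : ℝ)⁻¹ := by positivity
    have hp1 : (p : ℝ)⁻¹ ≤ 1 / 2 := by
      rw [inv_le_comm₀ (by linarith) (by norm_num)]
      linarith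
    have h3 : (1 : ℝ) + C / p ≤ (1 + (p : ℝ)⁻¹) ^ C := by
      have := one_add_mul_le_pow (a := (p : ℝ)⁻¹) (by linarith) C
      rwa [← div_eq_mul_inv] at this
    refine h3.trans ?_
    apply pow_le_pow_left₀ (by linarith)
    rw [le_inv_comm₀ (by linarith) (by linarith)]
    have h4 : 0 < 1 + (p : ℝ)⁻¹ := by linarith
    rw [← sub_nonneg]
    have e : (1 + (p : ℝ)⁻¹)⁻¹ - (1 - (p : ℝ)⁻¹) = ((p : ℝ)⁻¹) ^ 2 * (1 + (p : ℝ)⁻¹)⁻¹ := by
      field_simp
      ring
    rw [e]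
    positivity

lemma prod_sq_le (w Y C : ℕ) (hw : 1 ≤ w) : ∏ p ∈ (prN Y).filter (fun p => w < p), (1 + (C : ℝ) / (p : ℝ) ^ 2) ≤
    Real.exp (C / w) := by
  have hw0 : (0 : ℝ) < w := by exact_mod_cast hw
  calc ∏ p ∈ (prN Y).filter (fun p => w < p), (1 + (C : ℝ) / (p : ℝ) ^ 2)
      ≤ ∏ p ∈ (prN Y).filter (fun p => w < p), Real.exp ((C : ℝ) / (p : ℝ) ^ 2) := by
        apply Finset.prod_le_prod
        · intro p _
          positivity
        · intro p _
          have := Real.add_one_le_exp ((C : ℝ) / (p : ℝ) ^ 2)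
          linarith
    _ = Real.exp (∑ p ∈ (prN Y).filter (fun p => w < p), (C : ℝ) / (p : ℝ) ^ 2) := (Real.exp_sum _ _).symm
    _ ≤ Real.exp (C / w) := by
        apply Real.exp_le_exp.2
        rcases le_or_gt w Y with h | h
        · calc ∑ p ∈ (prN Y).filter (fun p => w < p), (C : ℝ) / (p : ℝ) ^ 2 ≤ ∑ p ∈ Ioc w Y, (C : ℝ) / (p : ℝ) ^ 2 := by
                apply sum_le_sum_of_subset_of_nonneg
                · intro p hp
                  rw [mem_filter, mem_prN] at hp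
                  rw [mem_Ioc]
                  exact ⟨hp.2, hp.1.1⟩
                · intro p _ _
                  positivity
            _ = C * ∑ p ∈ Ioc w Y, ((p : ℝ) ^ 2)⁻¹ := by
                rw [mul_sum]
                rfl
            _ ≤ C * ((w : ℝ)⁻¹ - (Y : ℝ)⁻¹) := by
                gcongr
                exact sum_Ioc_inv_sq_le_sub (by omega) h
            _ ≤ C * (w : ℝ)⁻¹ := by
                have : (0 : ℝ) ≤ (Y : ℝ)⁻¹ := by positivity
                gcongr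
                linarith
            _ = C / w := rfl
        · have : (prN Y).filter (fun p => w < p) = ∅ := by
            rw [filter_eq_empty_iff]
            intro p hp
            have := (mem_prN.1 hp).1
            omega
          rw [this, sum_empty]
          positivity

lemma card_mult (α β D : ℕ) (hαβ : α ≤ β) (hD : 1 ≤ D) :
    ((((Ioc α β).filter (fun h => D ∣ h)).card : ℕ) : ℝ) ≤ ((β : ℝ) - α) / D + 1 := by
  have h1 : (Ioc 0 β).filter (fun h => D ∣ h) = (Ioc 0 α).filter (fun h => D ∣ h) ∪ (Ioc α β).filter (fun h => D ∣ h) := by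
    rw [← filter_union]
    congr 1
    ext x
    simp only [mem_union, mem_Ioc]
    omega
  have h2 : Disjoint ((Ioc 0 α).filter (fun h => D ∣ h)) ((Ioc α β).filter (fun h => D ∣ h)) := by
    rw [disjoint_left]
    intro x hx hy
    simp only [mem_filter, mem_Ioc] at hx hy
    omega
  have h3 := congrArg card h1
  rw [card_union_of_disjoint h2, Nat.Ioc_filter_dvd_card_eq_div, Nat.Ioc_filter_dvd_card_eq_div] at h3
  have hD0 : (0 : ℝ) < D := by exact_mod_cast hD
  have h4 : ((β / D : ℕ) : ℝ) ≤ (β : ℝ) / D := Nat.cast_div_le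
  have h5 : (α : ℝ) / D < ((α / D : ℕ) : ℝ) + 1 := by
    rw [div_lt_iff₀ hD0]
    have := Nat.lt_div_mul_add (a := α) (b := D) hD
    have h6 : (α : ℝ) < ((α / D * D + D : ℕ) : ℝ) := by exact_mod_cast this
    push_cast at h6
    linarith
  have h6 : (((β / D : ℕ)) : ℝ) = ((α / D : ℕ) : ℝ) + ((((Ioc α β).filter (fun h => D ∣ h)).card : ℕ) : ℝ) := by
    exact_mod_cast h3
  rw [sub_div]
  linarith

lemma GG_sum (w Y W C α β : ℕ) (hw : ∀ p : ℕ, p.Prime → p ≤ w → p ∣ W) (hαβ : α ≤ β) (hβ : β ≤ Y) :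
    ∑ h ∈ Ioc α β, GG W h C ≤ ((β : ℝ) - α) * ∏ p ∈ (prN Y).filter (fun p => w < p), (1 + (C : ℝ) / (p : ℝ) ^ 2) +
      ∏ p ∈ prN Y, (1 + (C : ℝ) / p) := by
  classical
  set P := (prN Y).filter (fun p => w < p) with hP
  have hPp : ∀ p ∈ P, p.Prime := by
    intro p hp
    rw [hP, mem_filter] at hp
    exact (mem_prN.1 hp.1).2
  have hterm : ∀ h ∈ Ioc α β, GG W h C ≤ ∑ T ∈ P.powerset, if (∏ p ∈ T, p) ∣ h then ∏ p ∈ T, ((C : ℝ) / p) else 0 := by
    intro h hh
    rw [mem_Ioc] at hh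
    have h1 : GG W h C ≤ ∏ p ∈ P.filter (fun p => p ∣ h), (1 + (C : ℝ) / p) := by
      unfold GG
      apply prod_le_prod_of_subset_of_one_le
      · intro p hp
        obtain ⟨q1, q2, q3⟩ := pf_prime hp
        rw [mem_filter, hP, mem_filter, mem_prN]
        refine ⟨⟨⟨(Nat.le_of_dvd (by omega) q2).trans (by omega), q1⟩, ?_⟩, q2⟩
        by_contra hcon
        exact q3 (hw p q1 (by omega))
      · intro p _
        positivity
      · intro p _ _
        have : (0 : ℝ) ≤ C / p := by positivity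
        linarith
    refine h1.trans (le_of_eq ?_)
    rw [prod_one_add, ← sum_filter]
    apply sum_congr _ (fun _ _ => rfl)
    ext T
    simp only [mem_powerset, mem_filter, subset_iff]
    constructor
    · intro hT
      refine ⟨fun p hp => (hT hp).1, ?_⟩
      apply Finset.prod_primes_dvd
      · intro p hp
        exact (hPp p (hT hp).1).prime
      · intro p hp
        exact (hT hp).2
    · rintro ⟨hT1, hT2⟩ p hp
      exact ⟨hT1 hp, (dvd_prod_of_mem _ hp).trans hT2⟩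
  calc ∑ h ∈ Ioc α β, GG W h C
      ≤ ∑ h ∈ Ioc α β, ∑ T ∈ P.powerset, if (∏ p ∈ T, p) ∣ h then ∏ p ∈ T, ((C : ℝ) / p) else 0 := sum_le_sum hterm
    _ = ∑ T ∈ P.powerset, ∑ h ∈ Ioc α β, if (∏ p ∈ T, p) ∣ h then ∏ p ∈ T, ((C : ℝ) / p) else 0 := sum_comm
    _ = ∑ T ∈ P.powerset, ((((Ioc α β).filter (fun h => (∏ p ∈ T, p) ∣ h)).card : ℕ) : ℝ) * ∏ p ∈ T, ((C : ℝ) / p) := by
        apply sum_congr rfl
        intro T _
        rw [← sum_filter, sum_const, nsmul_eq_mul]
    _ ≤ ∑ T ∈ P.powerset, (((β : ℝ) - α) / ((∏ p ∈ T, p : ℕ) : ℝ) + 1) * ∏ p ∈ T, ((C : ℝ) / p) := by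
        apply sum_le_sum
        intro T hT
        rw [mem_powerset] at hT
        have h0 : 0 ≤ ∏ p ∈ T, ((C : ℝ) / p) := prod_nonneg fun p _ => by positivity
        apply mul_le_mul_of_nonneg_right _ h0
        apply card_mult _ _ _ hαβ
        exact Nat.one_le_iff_ne_zero.2 (prod_ne_zero_iff.2 fun p hp => (hPp p (hT hp)).ne_zero)
    _ = ((β : ℝ) - α) * ∑ T ∈ P.powerset, ∏ p ∈ T, ((C : ℝ) / (p : ℝ) ^ 2) + ∑ T ∈ P.powerset, ∏ p ∈ T, ((C : ℝ) / p) := by
        rw [mul_sum, ← sum_add_distrib]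
        apply sum_congr rfl
        intro T _
        rw [add_mul, one_mul]
        congr 1
        push_cast
        rw [div_mul_eq_mul_div, mul_div_assoc, ← prod_div_distrib]
        congr 1
        apply prod_congr rfl
        intro p _
        rw [div_div, sq]
    _ = ((β : ℝ) - α) * ∏ p ∈ P, (1 + (C : ℝ) / (p : ℝ) ^ 2) + ∏ p ∈ P, (1 + (C : ℝ) / p) := by
        rw [prod_one_add, prod_one_add]
    _ ≤ _ := by
        apply add_le_add_right
        apply prod_le_prod_of_subset_of_one_le (filter_subset _ _)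
        · intro p _
          positivity
        · intro p _ _
          have : (0 : ℝ) ≤ C / p := by positivity
          linarith

theorem GG_avg (C B : ℕ) (hC : 1 ≤ C) (w : ℕ) (hw : C ≤ w) : ∃ H0 : ℕ, ∀ H : ℕ, H0 ≤ H → ∀ W : ℕ,
    (∀ p : ℕ, p.Prime → p ≤ w → p ∣ W) → ∀ α β : ℕ, α ≤ β → (β : ℝ) ≤ Real.log H ^ B →
    ∑ h ∈ Ioc α β, (GG W h C - 1) ≤ 2 * C / w * (((β : ℝ) - α) + Real.log H) := by
  obtain ⟨K, hK1, hK⟩ := mert
  have hw0 : (0 : ℝ) < w := by exact_mod_cast (by omega : 0 < w)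
  have hC1 : (1 : ℝ) ≤ C := by exact_mod_cast hC
  have hKB : 0 < (K * ((B : ℝ) + 1)) ^ C := by positivity
  have hev : ∀ᶠ x : ℝ in atTop, (K * ((B : ℝ) + 1) * Real.log (Real.log x)) ^ C ≤ (C / w) * Real.log x := by
    have h1 : ∀ᶠ y : ℝ in atTop, ‖Real.log y ^ C‖ ≤ ((C : ℝ) / w / (K * ((B : ℝ) + 1)) ^ C) * ‖y‖ :=
      (Real.isLittleO_pow_log_id_atTop (n := C)).def (by positivity)
    have h2 := Real.tendsto_log_atTop.eventually (h1.and (eventually_ge_atTop 1))
    filter_upwards [h2] with x hx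
    obtain ⟨h3, h4⟩ := hx
    have h5 : 0 ≤ Real.log (Real.log x) := Real.log_nonneg h4
    rw [Real.norm_of_nonneg (by positivity), Real.norm_of_nonneg (by linarith), div_mul_eq_mul_div, le_div_iff₀ hKB] at h3
    rw [mul_pow]
    linarith
  obtain ⟨H1, h1⟩ := evN _ hev
  obtain ⟨H2, h2⟩ := evN _ (Real.tendsto_log_atTop.eventually_ge_atTop 2)
  refine ⟨max H1 H2, fun H hH W hW α β hαβ hβ => ?_⟩
  have hc1 := h1 H (by omega)
  have hc2 := h2 H (by omega)
  set L := Real.log H with hL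
  have hL0 : 0 < L := by linarith
  set Y := max β 2 with hY
  have hYL : (Y : ℝ) ≤ L ^ (B + 1) := by
    rw [hY]
    push_cast
    apply max_le
    · exact hβ.trans (pow_le_pow_right₀ (by linarith) (by omega))
    · calc (2 : ℝ) ≤ L := hc2
        _ = L ^ 1 := (pow_one _).symm
        _ ≤ L ^ (B + 1) := pow_le_pow_right₀ (by linarith) (by omega)
  have hY2 : 2 ≤ Y := le_max_right _ _
  have hMP : MP Y ≤ K * ((B : ℝ) + 1) * Real.log L := by
    refine (hK Y hY2).trans ?_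
    rw [mul_assoc]
    apply mul_le_mul_of_nonneg_left _ (by linarith)
    calc Real.log Y ≤ Real.log (L ^ (B + 1)) := Real.log_le_log (by exact_mod_cast (by omega : 0 < Y)) hYL
      _ = ((B : ℝ) + 1) * Real.log L := by rw [Real.log_pow]; push_cast; ring
  have hMP0 : 0 ≤ MP Y := by
    unfold MP
    apply prod_nonneg
    intro p hp
    have h2 : (2 : ℝ) ≤ p := by exact_mod_cast (mem_prN.1 hp).2.two_le
    have : (p : ℝ)⁻¹ ≤ 1 := inv_le_one_of_one_le₀ (by linarith)
    apply inv_nonneg.2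
    linarith
  have hs := GG_sum w Y W C α β hW hαβ (le_max_left _ _)
  have hlen : (0 : ℝ) ≤ (β : ℝ) - α := by
    have : (α : ℝ) ≤ β := by exact_mod_cast hαβ
    linarith
  have h3 : ∏ p ∈ prN Y, (1 + (C : ℝ) / p) ≤ (C / w) * L :=
    (prod_lin_le Y C).trans ((pow_le_pow_left₀ hMP0 hMP C).trans hc1)
  have h4 : Real.exp ((C : ℝ) / w) ≤ 1 + 2 * (C / w) := by
    have hx0 : (0 : ℝ) ≤ C / w := by positivity
    have hx1 : (C : ℝ) / w ≤ 1 := by
      rw [div_le_one hw0]
      exact_mod_cast hw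
    have := Real.abs_exp_sub_one_sub_id_le (x := (C : ℝ) / w) (by rw [abs_of_nonneg hx0]; exact hx1)
    have h5 := (abs_le.1 this).2
    nlinarith
  have h5 := (prod_sq_le w Y C (by omega)).trans h4
  rw [sum_sub_distrib, sum_const, Nat.card_Ioc, nsmul_eq_mul, mul_one, Nat.cast_sub hαβ]
  calc ∑ h ∈ Ioc α β, GG W h C - ((β : ℝ) - α) ≤ (((β : ℝ) - α) * (1 + 2 * (C / w)) + (C / w) * L) - ((β : ℝ) - α) := by
        have := mul_le_mul_of_nonneg_left h5 hlen
        linarith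
    _ = 2 * C / w * ((β : ℝ) - α) + C / w * L := by ring
    _ ≤ 2 * C / w * (((β : ℝ) - α) + L) := by
        have : 0 ≤ (C : ℝ) / w * L := by positivity
        have e : 2 * (C : ℝ) / w * (((β : ℝ) - α) + L) = 2 * C / w * ((β : ℝ) - α) + 2 * (C / w * L) := by ring
        rw [e]
        linarith

end Pool.Agent.K1H89.PL
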