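import Mathlib
import Pool.Agent.K1H89.PL.A6

/-! One polynomial: from logarithmic weights to counts. -/

set_option autoImplicit false

namespace Pool.Agent.K1H89.PL

open Finset Filter

lemma fiber (d H W : ℕ) (g : Fin (d + 1) → ℤ) (v : ℕ → ℤ) (n : ℕ) (P : ℤ → Prop) [DecidablePred P] (κ : ℝ)
    (hκ : ∀ y : ℤ, (((cls H W (g 0)).filter (fun x => P (y + x))).card : ℝ) ≤ κ * (cls H W (g 0)).card) :
    (((box d H W g).filter (fun a => P (pv v a n))).card : ℝ) ≤ κ * (box d H W g).card := by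
  classical
  set T : Finset (Fin d → ℤ) := Fintype.piFinset (fun j : Fin d => cls H W (g j.succ)) with hT
  have hmaps : ∀ a ∈ (box d H W g).filter (fun a => P (pv v a n)), Fin.tail a ∈ T := by
    intro a ha
    rw [mem_filter] at ha
    unfold box at ha
    rw [Fintype.mem_piFinset] at ha
    rw [hT, Fintype.mem_piFinset]
    intro j
    exact ha.1 j.succ
  have hcard := card_eq_sum_card_fiberwise hmaps
  have hfib : ∀ b ∈ T, ((((box d H W g).filter (fun a => P (pv v a n))).filter (fun a => Fin.tail a = b)).card : ℝ) ≤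
      κ * (cls H W (g 0)).card := by
    intro b _
    refine le_trans ?_ (hκ (v n + ∑ j : Fin d, b j * (n : ℤ) ^ ((j : ℕ) + 1)))
    have : (((box d H W g).filter (fun a => P (pv v a n))).filter (fun a => Fin.tail a = b)).card ≤
        ((cls H W (g 0)).filter (fun x => P ((v n + ∑ j : Fin d, b j * (n : ℤ) ^ ((j : ℕ) + 1)) + x))).card := by
      apply card_le_card_of_injOn (fun a => a 0)
      · intro a ha
        simp only [coe_filter, Set.mem_ofPred_eq, mem_filter] at ha ⊢
        obtain ⟨⟨ha1, ha2⟩, ha3⟩ := ha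
        unfold box at ha1
        rw [Fintype.mem_piFinset] at ha1
        refine ⟨ha1 0, ?_⟩
        have e : pv v a n = (v n + ∑ j : Fin d, b j * (n : ℤ) ^ ((j : ℕ) + 1)) + a 0 := by
          unfold pv
          rw [Fin.sum_univ_succ, ← ha3]
          simp only [Fin.val_zero, pow_zero, mul_one, Fin.tail, Fin.val_succ]
          ring
        rwa [e] at ha2
      · intro a ha b' hb' hab
        simp only [coe_filter, Set.mem_ofPred_eq] at ha hb'
        have h1 : Fin.tail a = Fin.tail b' := ha.2.trans hb'.2.symm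
        rw [← Fin.cons_self_tail a, ← Fin.cons_self_tail b', h1]
        congr 1
    exact_mod_cast this
  have hbox : ((box d H W g).card : ℝ) = (cls H W (g 0)).card * T.card := by
    unfold box
    rw [hT, Fintype.card_piFinset, Fintype.card_piFinset, Fin.prod_univ_succ]
    push_cast
    ring
  rw [hcard, hbox]
  push_cast
  refine (sum_le_sum hfib).trans (le_of_eq ?_)
  rw [sum_const, nsmul_eq_mul]
  ring

lemma few_small (H W Y : ℕ) (c y : ℤ) (hW : 1 ≤ W) (hWH : W ≤ H) :
    (((cls H W c).filter (fun x => |y + x| ≤ (Y : ℤ))).card : ℝ) ≤ (2 * Y + 1 + W) / H * (cls H W c).card := by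
  have hW0 : (0 : ℝ) < W := by exact_mod_cast hW
  have hH0 : (0 : ℝ) < H := by exact_mod_cast (by omega : 0 < H)
  have h := (abs_le.1 (card_ioc (-(Y : ℤ) - y - 1) (Y - y) c W hW (by omega))).2
  have hsub : (cls H W c).filter (fun x => |y + x| ≤ (Y : ℤ)) ⊆
      (Ioc (-(Y : ℤ) - y - 1) (Y - y)).filter (fun x => x ≡ c [ZMOD W]) := by
    intro x hx
    unfold cls at hx
    rw [mem_filter, mem_filter] at hx
    rw [mem_filter, mem_Ioc]
    refine ⟨?_, hx.1.2⟩
    have := abs_le.1 hx.2
    omega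
  have h2 : (((cls H W c).filter (fun x => |y + x| ≤ (Y : ℤ))).card : ℝ) ≤
      (((Ioc (-(Y : ℤ) - y - 1) (Y - y)).filter (fun x => x ≡ c [ZMOD W])).card : ℝ) := by
    exact_mod_cast card_le_card hsub
  have h3 := cls_low H W c hW hWH
  have e : (((Y - y : ℤ) : ℝ) - ((-(Y : ℤ) - y - 1 : ℤ) : ℝ)) = 2 * Y + 1 := by push_cast; ring
  rw [e] at h
  calc (((cls H W c).filter (fun x => |y + x| ≤ (Y : ℤ))).card : ℝ) ≤ (2 * Y + 1) / W + 1 := by linarith
    _ = (2 * Y + 1 + W) / H * (H / W) := by field_simp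
    _ ≤ (2 * Y + 1 + W) / H * (cls H W c).card := by gcongr

lemma box_small (d H W Y : ℕ) (g : Fin (d + 1) → ℤ) (v : ℕ → ℤ) (n : ℕ) (hW : 1 ≤ W) (hWH : W ≤ H) :
    (((box d H W g).filter (fun a => |pv v a n| ≤ (Y : ℤ))).card : ℝ) ≤ (2 * Y + 1 + W) / H * (box d H W g).card := by
  apply fiber d H W g v n (fun z => |z| ≤ (Y : ℤ))
  intro y
  exact few_small H W Y (g 0) y hW hWH

lemma box_pos (d H W : ℕ) (g : Fin (d + 1) → ℤ) (hW : 1 ≤ W) (hWH : W ≤ H) : 0 < (box d H W g).card := by
  unfold box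
  rw [Fintype.card_piFinset]
  apply prod_pos
  intro j _
  have h := cls_low H W (g j) hW hWH
  have h2 : (0 : ℝ) < H / W := by
    have hW0 : (0 : ℝ) < W := by exact_mod_cast hW
    have hH0 : (0 : ℝ) < H := by exact_mod_cast (by omega : 0 < H)
    positivity
  have : (0 : ℝ) < ((cls H W (g j)).card : ℝ) := by linarith
  exact_mod_cast this

end Pool.Agent.K1H89.PL
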