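import Mathlib
import Pool.Agent.K1H89.PL.B8
import Pool.Agent.K1H89.PL.A7

/-! One polynomial: from logarithmic weights to counts. -/

set_option autoImplicit false

namespace Pool.Agent.K1H89.PL

open Finset Filter
open Pool.Agent.K1H89.Ev (evN ev_pow)

/-- the set of good vectors -/
noncomputable def gd {d k : ℕ} (H W : ℕ) (g : Fin (d + 1) → ℤ) (v : ℕ → ℤ) (n : Fin k → ℕ) : Finset (Fin (d + 1) → ℤ) :=
  (box d H W g).filter (fun a => ∀ j, (pv v a (n j)).natAbs.Prime)

/-- the elementary comparison of the two averages -/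
lemma cmp {d k H W Y : ℕ} (hW : 1 ≤ W) (hWH : W ≤ H) (g : Fin (d + 1) → ℤ) (v : ℕ → ℤ) (n : Fin k → ℕ) (L η : ℝ)
    (hL : 0 ≤ L) (hη0 : 0 ≤ η) (hη1 : η ≤ 1)
    (hup : ∀ a ∈ box d H W g, ∀ j, th (pv v a (n j)) ≤ (1 + η) * L)
    (hlow : ∀ a ∈ box d H W g, ∀ j, ¬ |pv v a (n j)| ≤ (Y : ℤ) → (pv v a (n j)).natAbs.Prime →
      (1 - η) * L ≤ th (pv v a (n j))) :
    (∑ a ∈ box d H W g, Ph v n a ≤ ((1 + η) * L) ^ k * (gd H W g v n).card) ∧
    (((1 - η) * L) ^ k * (gd H W g v n).card ≤ ∑ a ∈ box d H W g, Ph v n a +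
      L ^ k * (k * ((2 * Y + 1 + W) / H * (box d H W g).card))) := by
  classical
  have hz : ∀ a : Fin (d + 1) → ℤ, ¬ (∀ j, (pv v a (n j)).natAbs.Prime) → Ph v n a = 0 := by
    intro a ha
    push Not at ha
    obtain ⟨j, hj⟩ := ha
    unfold Ph
    apply prod_eq_zero (mem_univ j)
    unfold th
    rw [if_neg hj]
  have hsum : ∑ a ∈ box d H W g, Ph v n a = ∑ a ∈ gd H W g v n, Ph v n a := by
    unfold gd
    rw [sum_filter]
    apply sum_congr rfl
    intro a _
    split_ifs with h
    · rfl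
    · exact hz a h
  constructor
  · rw [hsum]
    calc ∑ a ∈ gd H W g v n, Ph v n a ≤ ∑ _a ∈ gd H W g v n, ((1 + η) * L) ^ k := by
          apply sum_le_sum
          intro a ha
          unfold gd at ha
          rw [mem_filter] at ha
          unfold Ph
          calc ∏ j, th (pv v a (n j)) ≤ ∏ _j : Fin k, ((1 + η) * L) :=
                Finset.prod_le_prod (fun _ _ => th_nonneg _) (fun j _ => hup a ha.1 j)
            _ = ((1 + η) * L) ^ k := by simp
      _ = ((1 + η) * L) ^ k * (gd H W g v n).card := by rw [sum_const, nsmul_eq_mul]; ring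
  · have h1 : ∀ a ∈ gd H W g v n, ((1 - η) * L) ^ k ≤ Ph v n a +
        L ^ k * ∑ j : Fin k, (if |pv v a (n j)| ≤ (Y : ℤ) then (1 : ℝ) else 0) := by
      intro a ha
      unfold gd at ha
      rw [mem_filter] at ha
      by_cases h : ∃ j, |pv v a (n j)| ≤ (Y : ℤ)
      · obtain ⟨j, hj⟩ := h
        have h2 : (1 : ℝ) ≤ ∑ j : Fin k, (if |pv v a (n j)| ≤ (Y : ℤ) then (1 : ℝ) else 0) := by
          calc (1 : ℝ) = (if |pv v a (n j)| ≤ (Y : ℤ) then (1 : ℝ) else 0) := by rw [if_pos hj]
            _ ≤ _ := single_le_sum (f := fun j => if |pv v a (n j)| ≤ (Y : ℤ) then (1 : ℝ) else 0)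
                (fun i _ => by split_ifs <;> norm_num) (mem_univ j)
        have h3 : ((1 - η) * L) ^ k ≤ L ^ k := by
          apply pow_le_pow_left₀ (mul_nonneg (by linarith) hL)
          nlinarith
        have h4 := Ph_nonneg v n a
        have h5 : 0 ≤ L ^ k := by positivity
        nlinarith
      · push Not at h
        have h2 : 0 ≤ L ^ k * ∑ j : Fin k, (if |pv v a (n j)| ≤ (Y : ℤ) then (1 : ℝ) else 0) := by
          apply mul_nonneg (by positivity)
          apply sum_nonneg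
          intro i _
          split_ifs <;> norm_num
        have h3 : ((1 - η) * L) ^ k ≤ Ph v n a := by
          unfold Ph
          calc ((1 - η) * L) ^ k = ∏ _j : Fin k, ((1 - η) * L) := by simp
            _ ≤ ∏ j, th (pv v a (n j)) := by
                apply Finset.prod_le_prod
                · intro _ _
                  exact mul_nonneg (by linarith) hL
                · intro j _
                  exact hlow a ha.1 j (not_le.2 (h j)) (ha.2 j)
        linarith
    have h2 : ((1 - η) * L) ^ k * (gd H W g v n).card = ∑ _a ∈ gd H W g v n, ((1 - η) * L) ^ k := by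
      rw [sum_const, nsmul_eq_mul]; ring
    rw [h2]
    refine (sum_le_sum h1).trans ?_
    rw [sum_add_distrib, ← hsum, ← mul_sum]
    apply add_le_add_right
    apply mul_le_mul_of_nonneg_left _ (by positivity)
    calc ∑ a ∈ gd H W g v n, ∑ j : Fin k, (if |pv v a (n j)| ≤ (Y : ℤ) then (1 : ℝ) else 0)
        ≤ ∑ a ∈ box d H W g, ∑ j : Fin k, (if |pv v a (n j)| ≤ (Y : ℤ) then (1 : ℝ) else 0) := by
          apply sum_le_sum_of_subset_of_nonneg
          · unfold gd
            exact filter_subset _ _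
          · intro a _ _
            apply sum_nonneg
            intro i _
            split_ifs <;> norm_num
      _ = ∑ j : Fin k, (((box d H W g).filter (fun a => |pv v a (n j)| ≤ (Y : ℤ))).card : ℝ) := by
          rw [sum_comm]
          apply sum_congr rfl
          intro j _
          rw [← sum_filter, sum_const, nsmul_eq_mul, mul_one]
      _ ≤ ∑ _j : Fin k, (2 * Y + 1 + W) / H * ((box d H W g).card : ℝ) :=
          sum_le_sum fun j _ => box_small d H W Y g v (n j) hW hWH
      _ = k * ((2 * Y + 1 + W) / H * (box d H W g).card) := by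
          rw [sum_const, card_univ, Fintype.card_fin, nsmul_eq_mul]

/-- the inequality behind `single` -/
lemma arith {k D : ℕ} (hk : k ≤ D) (hD : 1 ≤ D) (δ η L P t m y ρ G : ℝ) (hδ0 : 0 < δ) (hδ1 : δ ≤ 1)
    (hη : η = δ / (8 * D)) (hP : 0 ≤ P) (hL : 0 ≤ L) (ht0 : 0 ≤ t)
    (hρ : 1 ≤ ρ) (hG : 1 ≤ G) (hy0 : 0 ≤ y) (hy1 : y ≤ ρ)
    (h1 : |t - m| ≤ η) (h2 : |m - y| ≤ ρ * (G - 1))
    (h3 : ((1 - η) * L) ^ k * P ≤ t + η) (h4 : t ≤ ((1 + η) * L) ^ k * P) :
    |L ^ k * P - y| ≤ ρ * (2 * (G - 1) + δ) := by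
  have hD1 : (1 : ℝ) ≤ D := by exact_mod_cast hD
  have hη0 : 0 < η := by rw [hη]; positivity
  have hDη : D * η = δ / 8 := by rw [hη]; field_simp
  have hη8 : η ≤ δ / 8 := by nlinarith
  have hη1 : η ≤ 1 := by linarith
  have hkD : (k : ℝ) ≤ D := by exact_mod_cast hk
  have hb : 1 - D * η ≤ (1 - η) ^ k := by
    have := one_add_mul_le_pow (a := -η) (by linarith) k
    have e : (1 : ℝ) + -η = 1 - η := by ring
    rw [e] at this
    nlinarith
  have hb2 : (1 - η) ^ k * (1 + η) ^ k ≤ 1 := by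
    rw [← mul_pow]
    apply pow_le_one₀
    · apply mul_nonneg <;> linarith
    · nlinarith
  set X := L ^ k * P with hX
  have hX0 : 0 ≤ X := by positivity
  rw [mul_pow] at h3 h4
  have h3' : (1 - δ / 8) * X ≤ t + η := by
    calc (1 - δ / 8) * X ≤ (1 - η) ^ k * X := by
          apply mul_le_mul_of_nonneg_right _ hX0
          linarith
      _ = (1 - η) ^ k * L ^ k * P := by rw [hX]; ring
      _ ≤ t + η := h3
  have h4' : (1 - δ / 8) * t ≤ X := by
    calc (1 - δ / 8) * t ≤ (1 - η) ^ k * t := by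
          apply mul_le_mul_of_nonneg_right _ ht0
          linarith
      _ ≤ (1 - η) ^ k * ((1 + η) ^ k * L ^ k * P) := by
          apply mul_le_mul_of_nonneg_left h4
          apply pow_nonneg
          linarith
      _ = ((1 - η) ^ k * (1 + η) ^ k) * X := by rw [hX]; ring
      _ ≤ 1 * X := by apply mul_le_mul_of_nonneg_right hb2 hX0
      _ = X := one_mul _
  obtain ⟨a1, a2⟩ := abs_le.1 h1
  obtain ⟨b1, b2⟩ := abs_le.1 h2
  set Q := ρ * (G - 1) with hQ
  have hQ0 : 0 ≤ Q := mul_nonneg (by linarith) (by linarith)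
  have ht1 : t ≤ y + Q + η := by linarith
  have ht2 : y - Q - η ≤ t := by linarith
  have e : ρ * (2 * (G - 1) + δ) = 2 * Q + δ * ρ := by rw [hQ]; ring
  rw [e, abs_le]
  have hδρ : δ ≤ δ * ρ := by nlinarith
  constructor
  · -- lower bound
    have h5 : δ / 8 * t ≤ δ / 8 * (y + Q + η) := by gcongr
    have h6 : δ * Q ≤ Q := by nlinarith
    have h7 : δ * y ≤ δ * ρ := by gcongr
    have h8 : δ * η ≤ δ / 8 := by nlinarith
    nlinarith
  · -- upper bound
    have h5 : X ≤ (1 + δ / 4) * (t + η) := by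
      have h6 : (1 + δ / 4) * ((1 - δ / 8) * X) ≤ (1 + δ / 4) * (t + η) := by gcongr
      have h7 : 1 ≤ (1 + δ / 4) * (1 - δ / 8) := by nlinarith
      nlinarith
    have h6 : δ * Q ≤ Q := by nlinarith
    have h7 : δ * y ≤ δ * ρ := by gcongr
    have h8 : δ * η ≤ δ / 8 := by nlinarith
    have h9 : (1 + δ / 4) * (t + η) ≤ (1 + δ / 4) * (y + Q + 2 * η) := by
      apply mul_le_mul_of_nonneg_left _ (by linarith)
      linarith
    nlinarith

end Pool.Agent.K1H89.PL
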