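import Mathlib
import Pool.Agent.K1H89.PL.A5
import Pool.Agent.K1H89.PL.A7
import Pool.Agent.K1H89.PL.B8b

/-! One polynomial: from logarithmic weights to counts. -/

set_option autoImplicit false

namespace Pool.Agent.K1H89.PL

open Finset Filter
open Pool.Agent.TH445.OI (evN ev_pow)

open Classical in
theorem single (d B : ℕ) (δ : ℝ) (hδ0 : 0 < δ) (hδ1 : δ ≤ 1) : ∃ H0 : ℕ, ∀ H : ℕ, H0 ≤ H → ∀ W : ℕ, 1 ≤ W →
    (W : ℝ) ≤ Real.log H ^ B →
    ∀ v : ℕ → ℤ, (∀ n : ℕ, (n : ℝ) ≤ Real.log H ^ B → |((v n : ℤ) : ℝ)| ≤ H * Real.log H ^ B) →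
    ∀ g : Fin (d + 1) → ℤ, ∀ k : ℕ, k ≤ d + 1 → ∀ n : Fin k → ℕ, StrictMono n →
    (∀ j, (n j : ℝ) ≤ Real.log H ^ B) →
    |Real.log H ^ k * ((gd H W g v n).card / (box d H W g).card) -
      (if ∀ j, IsCoprime (pv v g (n j)) (W : ℤ) then rho W ^ k else 0)| ≤
      rho W ^ k * (2 * (GG W (Dl n) (3 ^ k) - 1) + δ) := by
  obtain ⟨D, hD⟩ : ∃ D, D = d + 1 := ⟨_, rfl⟩
  have hD1 : (1 : ℝ) ≤ D := by
    have : 1 ≤ D := by omega
    exact_mod_cast this
  obtain ⟨η, hη⟩ : ∃ η : ℝ, η = δ / (8 * D) := ⟨_, rfl⟩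
  have hη0 : 0 < η := by rw [hη]; positivity
  have hη1 : η ≤ 1 := by
    rw [hη, div_le_one (by positivity)]
    linarith
  obtain ⟨e1, he1⟩ : ∃ e, e = B + B * D + D + 2 := ⟨_, rfl⟩
  obtain ⟨H1, h1⟩ := avg d 1 B
  obtain ⟨H2, h2⟩ := evN _ (Real.tendsto_log_atTop.eventually_ge_atTop (max (max (1 / η) (4 * D / η)) (D + 2)))
  obtain ⟨H3, h3⟩ := evN _ (ev_pow (B + B * D * D + B + 2 + D + 1) (4 * D / η + 1) 1 one_pos)
  have hlog : ∀ᶠ x : ℝ in atTop, (e1 : ℝ) * Real.log (Real.log x) ≤ η * Real.log x := by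
    have h1 : ∀ᶠ y : ℝ in atTop, ‖Real.log y‖ ≤ (η / (e1 + 1)) * ‖y‖ :=
      (Real.isLittleO_log_id_atTop).def (by positivity)
    filter_upwards [Real.tendsto_log_atTop.eventually (h1.and (eventually_ge_atTop 1))] with x hx
    obtain ⟨h3, h4⟩ := hx
    have h5 : 0 ≤ Real.log (Real.log x) := Real.log_nonneg h4
    rw [Real.norm_of_nonneg h5, Real.norm_of_nonneg (by linarith)] at h3
    have h6 : (e1 : ℝ) * Real.log (Real.log x) ≤ e1 * (η / (e1 + 1) * Real.log x) := by gcongr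
    refine h6.trans ?_
    have h7 : (e1 : ℝ) * (η / (e1 + 1) * Real.log x) = (e1 / (e1 + 1)) * (η * Real.log x) := by ring
    rw [h7]
    have h8 : (e1 : ℝ) / (e1 + 1) ≤ 1 := by
      rw [div_le_one (by positivity)]
      linarith
    have h9 : 0 ≤ η * Real.log x := by positivity
    nlinarith
  obtain ⟨H4, h4⟩ := evN _ hlog
  refine ⟨max (max H1 H2) (max (max H3 H4) 1), fun H hH W hW1 hWB v hv g k hk n hn hx => ?_⟩
  have hc1 := h1 H (by omega) W hW1 hWB v hv g k hk n hn hx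
  have hc2 := h2 H (by omega)
  have hc3 := h3 H (by omega)
  have hc4 := h4 H (by omega)
  rw [Real.rpow_one] at hc3
  set L := Real.log H with hL
  have hLa : 1 / η ≤ L := (le_max_left _ _).trans ((le_max_left _ _).trans hc2)
  have hLb : 4 * D / η ≤ L := (le_max_right _ _).trans ((le_max_left _ _).trans hc2)
  have hLc : (D : ℝ) + 2 ≤ L := (le_max_right _ _).trans hc2
  have hL1 : 1 ≤ L := by linarith
  have hL0 : 0 < L := by linarith
  have hH0 : (0 : ℝ) < H := by exact_mod_cast (by omega : 0 < H)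
  have pw : ∀ {a b : ℕ}, a ≤ b → L ^ a ≤ L ^ b := fun h => pow_le_pow_right₀ hL1 h
  have p0 : ∀ a : ℕ, 0 < L ^ a := fun a => by positivity
  have hbig : 4 * D / η * L ^ (B + B * D * D + B + 2 + D + 1) ≤ H := by
    have : 0 < L ^ (B + B * D * D + B + 2 + D + 1) := p0 _
    nlinarith
  have hbig1 : L ^ (B + B * D * D + B + 2 + D + 1) ≤ H := by
    have : 1 ≤ 4 * D / η := by
      rw [one_le_div hη0]
      linarith
    have h5 := p0 (B + B * D * D + B + 2 + D + 1)
    nlinarith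
  have hWH : W ≤ H := by
    have : (W : ℝ) ≤ H := hWB.trans ((pw (by omega)).trans hbig1)
    exact_mod_cast this
  have hbox := box_pos d H W g hW1 hWH
  have hb0 : (0 : ℝ) < (box d H W g).card := by exact_mod_cast hbox
  obtain ⟨Y, hY⟩ : ∃ Y : ℕ, Y = ⌊(H : ℝ) / L ^ (D + 1)⌋₊ := ⟨_, rfl⟩
  have hYle : (Y : ℝ) ≤ H / L ^ (D + 1) := by rw [hY]; exact Nat.floor_le (by positivity)
  have hYlt : (H : ℝ) / L ^ (D + 1) < Y + 1 := by rw [hY]; exact Nat.lt_floor_add_one _
  -- upper bound for the weights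
  have hN : (1 : ℝ) ≤ L ^ B := one_le_pow₀ hL1
  have hup : ∀ a ∈ box d H W g, ∀ j, th (pv v a (n j)) ≤ (1 + η) * L := by
    intro a ha j
    have h5 := pv_bound v a H (n j) (L ^ B) (H * L ^ B) hN (hx j) (hv _ (hx j)) (fun j => mem_box_abs ha j)
    have h6 : (H : ℝ) * L ^ B + (d + 1) * (H * (L ^ B) ^ d) ≤ H * L ^ e1 := by
      have h7 : ((d : ℝ) + 1) ≤ L := by
        have : (D : ℝ) = d + 1 := by rw [hD]; push_cast; ring
        linarith
      calc (H : ℝ) * L ^ B + (d + 1) * (H * (L ^ B) ^ d) ≤ H * L ^ (B + B * d) + L * (H * L ^ (B + B * d)) := by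
            rw [← pow_mul]
            have q1 := pw (show B ≤ B + B * d by omega)
            have q2 := pw (show B * d ≤ B + B * d by omega)
            gcongr
        _ = H * ((1 + L) * L ^ (B + B * d)) := by ring
        _ ≤ H * (L ^ 2 * L ^ (B + B * d)) := by
            gcongr
            nlinarith
        _ = H * L ^ (2 + (B + B * d)) := by rw [← pow_add]
        _ ≤ H * L ^ e1 := by
            apply mul_le_mul_of_nonneg_left _ hH0.le
            apply pw
            rw [he1, hD]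
            have : B * d ≤ B * (d + 1) := Nat.mul_le_mul_left _ (by omega)
            omega
    have h7 : (1 : ℝ) ≤ H * L ^ e1 := by
      have h8 : (1 : ℝ) ≤ H := by exact_mod_cast (by omega : 1 ≤ H)
      have h9 : (1 : ℝ) ≤ L ^ e1 := one_le_pow₀ hL1
      nlinarith
    refine (th_le_log h7 (h5.trans h6)).trans ?_
    rw [Real.log_mul hH0.ne' (p0 e1).ne', Real.log_pow]
    have : (1 + η) * L = L + η * L := by ring
    rw [this]
    linarith
  have hlow : ∀ a ∈ box d H W g, ∀ j, ¬ |pv v a (n j)| ≤ (Y : ℤ) → (pv v a (n j)).natAbs.Prime →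
      (1 - η) * L ≤ th (pv v a (n j)) := by
    intro a _ j hlt hpr
    unfold th
    rw [if_pos hpr]
    have h5 : (H : ℝ) / L ^ (D + 1) ≤ ((pv v a (n j)).natAbs : ℝ) := by
      have h6 : (Y : ℤ) + 1 ≤ |pv v a (n j)| := by omega
      have h7 : ((Y : ℝ) + 1) ≤ ((pv v a (n j)).natAbs : ℝ) := by
        rw [Int.abs_eq_natAbs] at h6
        exact_mod_cast h6
      linarith
    have h6 : Real.log ((H : ℝ) / L ^ (D + 1)) ≤ Real.log ((pv v a (n j)).natAbs : ℝ) :=
      Real.log_le_log (by positivity) h5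
    rw [Real.log_div hH0.ne' (p0 _).ne', Real.log_pow] at h6
    have h7 : ((D + 1 : ℕ) : ℝ) * Real.log L ≤ e1 * Real.log L := by
      apply mul_le_mul_of_nonneg_right _ (Real.log_nonneg hL1)
      exact_mod_cast (by omega : D + 1 ≤ e1)
    have : (1 - η) * L = L - η * L := by ring
    rw [this]
    linarith
  obtain ⟨c1, c2⟩ := cmp hW1 hWH g v n L η hL0.le hη0.le hη1 hup hlow
  have hsmall : L ^ k * (k * ((2 * Y + 1 + W) / H)) ≤ η := by
    have hkD : k ≤ D := by omega
    have h5 : (2 * (Y : ℝ) + 1 + W) / H ≤ 2 / L ^ (D + 1) + 2 * L ^ B / H := by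
      have h6 : (2 * (Y : ℝ)) / H ≤ 2 / L ^ (D + 1) := by
        rw [div_le_div_iff₀ hH0 (p0 _)]
        have := (le_div_iff₀ (p0 (D + 1))).1 hYle
        linarith
      have h7 : (1 + (W : ℝ)) / H ≤ 2 * L ^ B / H := by
        apply div_le_div_of_nonneg_right _ hH0.le
        linarith
      have h8 : (2 * (Y : ℝ) + 1 + W) / H = 2 * (Y : ℝ) / H + (1 + W) / H := by ring
      linarith
    have h9 : (2 * L ^ B / H) ≤ 2 * (η / (4 * D)) / L ^ (D + 1) := by
      rw [div_le_div_iff₀ hH0 (p0 _)]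
      have h10 : L ^ B * L ^ (D + 1) ≤ L ^ (B + B * D * D + B + 2 + D + 1) := by
        rw [← pow_add]
        exact pw (by omega)
      have h11 : η / (4 * D) * (4 * D / η * L ^ (B + B * D * D + B + 2 + D + 1)) ≤ η / (4 * D) * H := by
        have : 0 < η / (4 * D) := by positivity
        gcongr
      have h12 : η / (4 * D) * (4 * D / η * L ^ (B + B * D * D + B + 2 + D + 1)) = L ^ (B + B * D * D + B + 2 + D + 1) := by
        field_simp
      rw [h12] at h11
      nlinarith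
    have h13 : (2 * (Y : ℝ) + 1 + W) / H ≤ 4 / L ^ (D + 1) := by
      have h14 : 2 * (η / (4 * D)) / L ^ (D + 1) ≤ 2 / L ^ (D + 1) := by
        apply div_le_div_of_nonneg_right _ (p0 _).le
        have : η / (4 * D) ≤ 1 := by
          rw [div_le_one (by positivity)]
          linarith
        linarith
      have h15 : 2 / L ^ (D + 1) + 2 / L ^ (D + 1) = 4 / L ^ (D + 1) := by ring
      linarith
    have h16 : (0 : ℝ) ≤ (2 * (Y : ℝ) + 1 + W) / H := by positivity
    calc L ^ k * (k * ((2 * Y + 1 + W) / H)) ≤ L ^ D * (D * (4 / L ^ (D + 1))) := by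
          have q1 : (k : ℝ) ≤ D := by exact_mod_cast hkD
          have q2 := pw hkD
          gcongr
      _ = 4 * D / L := by
          rw [pow_succ]
          field_simp
      _ ≤ η := by
          rw [div_le_iff₀ hL0]
          rw [div_le_iff₀ hη0] at hLb
          linarith
  -- divide by the size of the box
  have hWc : ∀ p ∈ pf W (Dl n), p * W ≤ H := by
    intro p hp
    obtain ⟨q1, q2, q3⟩ := pf_prime hp
    have h5 : p * W ≤ W * Dl n := by
      rw [mul_comm]
      exact Nat.mul_le_mul_left _ (Nat.le_of_dvd (Dl_pos n hn) q2)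
    have h6 : ((W * Dl n : ℕ) : ℝ) ≤ L ^ (B + B * D * D) := R_le (by omega) L hL1 W hWB n hx
    have h7 : ((W * Dl n : ℕ) : ℝ) ≤ H := h6.trans ((pw (by omega)).trans hbig1)
    exact h5.trans (by exact_mod_cast h7)
  have hloc := loc d H W hW1 g v k n hn hWc
  have hρ : 1 ≤ rho W := rho_ge hW1
  have hG := GG_ge_one W (Dl n) (3 ^ k) (by positivity)
  set b : ℝ := ((box d H W g).card : ℝ) with hb
  set S := ∑ a ∈ box d H W g, Ph v n a with hS
  set M := ∑ a ∈ box d H W g, ∏ j, mt (W * Dl n) (rho (W * Dl n)) (pv v a (n j)) with hM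
  set y : ℝ := (if ∀ j, IsCoprime (pv v g (n j)) (W : ℤ) then rho W ^ k else 0) with hy
  have hy01 : 0 ≤ y ∧ y ≤ rho W ^ k := by
    rw [hy]
    split_ifs
    · exact ⟨by positivity, le_rfl⟩
    · exact ⟨le_rfl, by positivity⟩
  have hS0 : 0 ≤ S := sum_nonneg fun a _ => Ph_nonneg v n a
  apply arith (k := k) (D := D) (by omega) (by omega) δ η L ((gd H W g v n).card / b) (S / b) (M / b) y (rho W ^ k)
    (GG W (Dl n) (3 ^ k)) hδ0 hδ1 hη (by positivity) hL0.le (by positivity) (one_le_pow₀ hρ) hG hy01.1 hy01.2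
  · rw [← sub_div, abs_div, abs_of_pos hb0, div_le_iff₀ hb0]
    refine hc1.trans ?_
    rw [pow_one, div_le_iff₀ hL0]
    have h5 : 1 ≤ η * L := by
      rw [div_le_iff₀ hη0] at hLa
      linarith
    nlinarith
  · have e : M / b - y = (M - y * b) / b := by field_simp
    rw [e, abs_div, abs_of_pos hb0, div_le_iff₀ hb0]
    exact hloc
  · rw [← mul_div_assoc, div_le_iff₀ hb0, add_mul, div_mul_cancel₀ _ hb0.ne']
    refine c2.trans ?_
    apply add_le_add_right
    calc L ^ k * (k * ((2 * Y + 1 + W) / H * b)) = L ^ k * (k * ((2 * Y + 1 + W) / H)) * b := by ring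
      _ ≤ η * b := by gcongr
  · rw [← mul_div_assoc, div_le_div_iff_of_pos_right hb0]
    exact c1

end Pool.Agent.K1H89.PL
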