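import Mathlib
import Pool.Agent.K1H89.PL.A7

/-! Families of polynomials, and the sum over the subsets of a set. -/

set_option autoImplicit false

namespace Pool.Agent.K1H89.PL

open Finset Filter
open Pool.Agent.K1H89.Ev (evN ev_pow)

lemma prod_close {ι : Type} (S : Finset ι) (x y : ι → ℝ) (η : ℝ) (hη : 0 ≤ η) (hy0 : ∀ i ∈ S, 0 ≤ y i)
    (hy1 : ∀ i ∈ S, y i ≤ 1) (hx0 : ∀ i ∈ S, 0 ≤ x i) (h : ∀ i ∈ S, |x i - y i| ≤ η) :
    |∏ i ∈ S, x i - ∏ i ∈ S, y i| ≤ (1 + η) ^ S.card - 1 := by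
  classical
  induction S using Finset.induction_on with
  | empty => simp
  | insert i S hi ih =>
    have ih' := ih (fun j hj => hy0 j (mem_insert_of_mem hj)) (fun j hj => hy1 j (mem_insert_of_mem hj))
      (fun j hj => hx0 j (mem_insert_of_mem hj)) (fun j hj => h j (mem_insert_of_mem hj))
    rw [prod_insert hi, prod_insert hi, card_insert_of_notMem hi]
    have h1 := h i (mem_insert_self _ _)
    have h2 := hy1 i (mem_insert_self _ _)
    have h2' := hy0 i (mem_insert_self _ _)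
    have h3 := hx0 i (mem_insert_self _ _)
    have h4 : x i ≤ 1 + η := by
      have := (abs_le.1 h1).2
      linarith
    have h5 : ∏ j ∈ S, y j ≤ 1 := Finset.prod_le_one (fun j hj => hy0 j (mem_insert_of_mem hj))
      (fun j hj => hy1 j (mem_insert_of_mem hj))
    have h6 : 0 ≤ ∏ j ∈ S, y j := prod_nonneg (fun j hj => hy0 j (mem_insert_of_mem hj))
    have e : x i * ∏ j ∈ S, x j - y i * ∏ j ∈ S, y j =
        x i * (∏ j ∈ S, x j - ∏ j ∈ S, y j) + (x i - y i) * ∏ j ∈ S, y j := by ring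
    rw [e]
    calc |x i * (∏ j ∈ S, x j - ∏ j ∈ S, y j) + (x i - y i) * ∏ j ∈ S, y j|
        ≤ |x i * (∏ j ∈ S, x j - ∏ j ∈ S, y j)| + |(x i - y i) * ∏ j ∈ S, y j| := abs_add_le _ _
      _ = x i * |∏ j ∈ S, x j - ∏ j ∈ S, y j| + |x i - y i| * ∏ j ∈ S, y j := by
          rw [abs_mul, abs_mul, abs_of_nonneg h3, abs_of_nonneg h6]
      _ ≤ (1 + η) * ((1 + η) ^ S.card - 1) + η * 1 := by
          gcongr
      _ = (1 + η) ^ (S.card + 1) - 1 := by rw [pow_succ]; ring

lemma GG_mono (W Δ : ℕ) {C C' : ℝ} (hC : 0 ≤ C) (h : C ≤ C') : GG W Δ C ≤ GG W Δ C' := by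
  unfold GG
  apply Finset.prod_le_prod
  · intro p _
    positivity
  · intro p _
    gcongr

lemma GG_pow (W Δ : ℕ) (c : ℝ) (hc : 0 ≤ c) (m : ℕ) : GG W Δ c ^ m ≤ GG W Δ ((1 + c) ^ m) := by
  unfold GG
  rw [← prod_pow]
  apply Finset.prod_le_prod
  · intro p _
    positivity
  · intro p hp
    have h2 : (1 : ℝ) ≤ p := by exact_mod_cast (pf_prime hp).1.one_le
    have h5 : (0 : ℝ) ≤ 1 / (p : ℝ) := by positivity
    have h6 : 1 / (p : ℝ) ≤ 1 := by rw [div_le_one (by linarith)]; linarith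
    have := pow_lin c (1 / (p : ℝ)) hc h5 h6 m
    calc (1 + c / (p : ℝ)) ^ m = (1 + c * (1 / p)) ^ m := by rw [mul_one_div]
      _ ≤ 1 + ((1 + c) ^ m - 1) * (1 / p) := this
      _ ≤ 1 + (1 + c) ^ m * (1 / p) := by
          gcongr
          linarith
      _ = 1 + (1 + c) ^ m / p := by rw [mul_one_div]

lemma GG_mul (W x y : ℕ) (hx : 1 ≤ x) (hy : 1 ≤ y) (C : ℝ) (hC : 0 ≤ C) : GG W (x * y) C ≤ GG W x C * GG W y C := by
  classical
  have h1 : ∀ p : ℕ, (0 : ℝ) ≤ 1 + C / p := fun p => by positivity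
  have e : pf W (x * y) = pf W x ∪ pf W y := by
    unfold pf
    rw [Nat.primeFactors_mul (by omega) (by omega), filter_union]
  unfold GG
  rw [e]
  have h2 := prod_union_inter (s₁ := pf W x) (s₂ := pf W y) (f := fun p => (1 + C / (p : ℝ)))
  rw [← h2]
  apply le_mul_of_one_le_right (prod_nonneg fun p _ => h1 p)
  have h3 : ∏ p ∈ pf W x ∩ pf W y, (1 : ℝ) ≤ ∏ p ∈ pf W x ∩ pf W y, (1 + C / (p : ℝ)) := by
    apply Finset.prod_le_prod (fun _ _ => zero_le_one)
    intro p _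
    have : 0 ≤ C / (p : ℝ) := by positivity
    linarith
  simpa using h3

lemma GG_prod {ι : Type} (S : Finset ι) (W : ℕ) (x : ι → ℕ) (hx : ∀ i ∈ S, 1 ≤ x i) (C : ℝ) (hC : 0 ≤ C) :
    GG W (∏ i ∈ S, x i) C ≤ ∏ i ∈ S, GG W (x i) C := by
  classical
  induction S using Finset.induction_on with
  | empty =>
    simp only [prod_empty]
    unfold GG pf
    simp
  | insert i S hi ih =>
    rw [prod_insert hi, prod_insert hi]
    have h1 : 1 ≤ ∏ j ∈ S, x j := Nat.one_le_iff_ne_zero.2 (prod_ne_zero_iff.2 fun j hj => by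
      have := hx j (mem_insert_of_mem hj)
      omega)
    refine (GG_mul W _ _ (hx i (mem_insert_self _ _)) h1 C hC).trans ?_
    have h2 := GG_ge_one W (x i) C hC
    exact mul_le_mul_of_nonneg_left (ih fun j hj => hx j (mem_insert_of_mem hj)) (by linarith)

lemma prod_sum_bound {ι : Type} (S : Finset ι) (x : ι → ℝ) (hx : ∀ i ∈ S, 1 ≤ x i) (K : ℕ) (hK : S.card ≤ K) :
    ∏ i ∈ S, x i ≤ 1 + ∑ i ∈ S, (x i ^ K - 1) := by
  classical
  rcases S.eq_empty_or_nonempty with h | h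
  · subst h
    simp
  · obtain ⟨m, hm, hmax⟩ := S.exists_max_image x h
    have h1 : ∏ i ∈ S, x i ≤ x m ^ K := by
      calc ∏ i ∈ S, x i ≤ ∏ _i ∈ S, x m := Finset.prod_le_prod (fun i hi => by linarith [hx i hi]) hmax
        _ = x m ^ S.card := by rw [prod_const]
        _ ≤ x m ^ K := pow_le_pow_right₀ (hx m hm) hK
    have h2 : x m ^ K - 1 ≤ ∑ i ∈ S, (x i ^ K - 1) := by
      apply single_le_sum (f := fun i => x i ^ K - 1) _ hm
      intro i hi
      have := one_le_pow₀ (hx i hi) (n := K)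
      linarith
    linarith

/-- the product of the differences -/
def dif (A : Finset ℕ) : ℕ := ∏ b ∈ A, ∏ a ∈ A.filter (fun a => a < b), (b - a)

lemma prod_emb {A : Finset ℕ} {k : ℕ} (hA : A.card = k) {M : Type} [CommMonoid M] (f : ℕ → M) :
    ∏ b ∈ A, f b = ∏ j : Fin k, f (A.orderEmbOfFin hA j) := by
  conv_lhs => rw [← map_orderEmbOfFin_univ A hA]
  rw [prod_map]
  rfl

lemma filt_emb {A : Finset ℕ} {k : ℕ} (e : Fin k ↪o ℕ) (hA : univ.map e.toEmbedding = A) (j : Fin k) :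
    A.filter (fun a => a < e j) = (univ.filter (fun i => i < j)).map e.toEmbedding := by
  subst hA
  rw [filter_map]
  congr 1
  ext i
  simp

lemma dif_emb {A : Finset ℕ} {k : ℕ} (hA : A.card = k) : Dl (A.orderEmbOfFin hA) = dif A := by
  unfold Dl dif
  rw [prod_emb hA]
  apply prod_congr rfl
  intro j _
  rw [filt_emb (A.orderEmbOfFin hA) (map_orderEmbOfFin_univ A hA) j, prod_map]
  rfl

lemma GG_dif (W : ℕ) (A : Finset ℕ) (K : ℕ) (hK : A.card * A.card ≤ K) (C : ℝ) (hC : 0 ≤ C) :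
    GG W (dif A) C ≤ 1 + ∑ b ∈ A, ∑ a ∈ A.filter (fun a => a < b), (GG W (b - a) ((1 + C) ^ K) - 1) := by
  classical
  have e1 : dif A = ∏ q ∈ A.sigma (fun b => A.filter (fun a => a < b)), (q.1 - q.2) := by
    unfold dif
    rw [prod_sigma]
  have e2 : ∑ b ∈ A, ∑ a ∈ A.filter (fun a => a < b), (GG W (b - a) ((1 + C) ^ K) - 1) =
      ∑ q ∈ A.sigma (fun b => A.filter (fun a => a < b)), (GG W (q.1 - q.2) ((1 + C) ^ K) - 1) := by
    rw [sum_sigma]
  rw [e1, e2]
  refine (GG_prod _ W _ ?_ C hC).trans ?_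
  · intro q hq
    rw [mem_sigma, mem_filter] at hq
    omega
  refine (prod_sum_bound _ _ (fun q _ => GG_ge_one W _ C hC) K ?_).trans ?_
  · rw [card_sigma]
    calc ∑ b ∈ A, (A.filter (fun a => a < b)).card ≤ ∑ _b ∈ A, A.card := sum_le_sum fun b _ => card_filter_le _ _
      _ = A.card * A.card := by rw [sum_const, smul_eq_mul]
      _ ≤ K := hK
  · apply add_le_add_right
    apply sum_le_sum
    intro q _
    have := GG_pow W (q.1 - q.2) C hC K
    linarith

/-- the family -/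
noncomputable def fam {s d : ℕ} (H W : ℕ) (g : Fin s → Fin (d + 1) → ℤ) : Finset (Fin s → Fin (d + 1) → ℤ) :=
  Fintype.piFinset (fun i => box d H W (g i))

/-- all the values at the points of `A` are primes -/
def allp {s d : ℕ} (v : Fin s → ℕ → ℤ) (a : Fin s → Fin (d + 1) → ℤ) (A : Finset ℕ) : Prop :=
  ∀ i, ∀ n ∈ A, (pv (v i) (a i) n).natAbs.Prime

/-- `n` is admissible modulo `W` -/
def okn {s d : ℕ} (v : Fin s → ℕ → ℤ) (g : Fin s → Fin (d + 1) → ℤ) (W n : ℕ) : Prop :=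
  ∀ i, IsCoprime (pv (v i) (g i) n) (W : ℤ)

open Classical in
/-- the probability that all the values at the points of `A` are primes -/
noncomputable def PA {s d : ℕ} (H W : ℕ) (v : Fin s → ℕ → ℤ) (g : Fin s → Fin (d + 1) → ℤ) (A : Finset ℕ) : ℝ :=
  ((fam H W g).filter (fun a => allp v a A)).card / (fam H W g).card

end Pool.Agent.K1H89.PL
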