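import Mathlib
import Pool.Agent.K1H89.PL.A8
import Pool.Agent.K1H89.PL.B9

/-! Families of polynomials, and the sum over the subsets of a set. -/

set_option autoImplicit false

namespace Pool.Agent.K1H89.PL

open Finset Filter
open Pool.Agent.TH445.OI (evN ev_pow)

lemma PA_prod {s d : ℕ} (H W : ℕ) (v : Fin s → ℕ → ℤ) (g : Fin s → Fin (d + 1) → ℤ) (A : Finset ℕ) {k : ℕ}
    (hA : A.card = k) :
    PA H W v g A = ∏ i, (((gd H W (g i) (v i) (A.orderEmbOfFin hA)).card : ℝ) / (box d H W (g i)).card) := by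
  classical
  unfold PA
  have e : (fam H W g).filter (fun a => allp v a A) =
      Fintype.piFinset (fun i => gd H W (g i) (v i) (A.orderEmbOfFin hA)) := by
    ext a
    unfold fam gd allp
    simp only [mem_filter, Fintype.mem_piFinset]
    constructor
    · rintro ⟨h1, h2⟩ i
      exact ⟨h1 i, fun j => h2 i _ (orderEmbOfFin_mem A hA j)⟩
    · intro h
      refine ⟨fun i => (h i).1, fun i n hn => ?_⟩
      rw [← map_orderEmbOfFin_univ A hA, Finset.mem_map] at hn
      obtain ⟨j, _, rfl⟩ := hn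
      exact (h i).2 j
  have e2 : (((fam H W g).filter (fun a => allp v a A)).card : ℝ) =
      ∏ i, ((gd H W (g i) (v i) (A.orderEmbOfFin hA)).card : ℝ) := by
    rw [e, Fintype.card_piFinset]
    push_cast
    rfl
  have e3 : ((fam H W g).card : ℝ) = ∏ i, ((box d H W (g i)).card : ℝ) := by
    unfold fam
    rw [Fintype.card_piFinset]
    push_cast
    rfl
  rw [e2, e3, prod_div_distrib]

open Classical in
theorem famP (s d B : ℕ) (δ : ℝ) (hδ0 : 0 < δ) (hδ1 : δ ≤ 1) : ∃ H0 : ℕ, ∀ H : ℕ, H0 ≤ H → ∀ W : ℕ, 1 ≤ W →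
    (W : ℝ) ≤ Real.log H ^ B →
    ∀ v : Fin s → ℕ → ℤ, (∀ i, ∀ n : ℕ, (n : ℝ) ≤ Real.log H ^ B → |((v i n : ℤ) : ℝ)| ≤ H * Real.log H ^ B) →
    ∀ g : Fin s → Fin (d + 1) → ℤ, ∀ A : Finset ℕ, A.card ≤ d + 1 → (∀ n ∈ A, (n : ℝ) ≤ Real.log H ^ B) →
    |(Real.log H ^ s) ^ A.card * PA H W v g A - (if ∀ n ∈ A, okn v g W n then (rho W ^ s) ^ A.card else 0)| ≤
      (rho W ^ s) ^ A.card * ((1 + δ) * GG W (dif A) ((1 + 3 ^ (d + 1)) ^ (2 * s)) - 1) := by
  obtain ⟨δ', hδ'⟩ : ∃ δ' : ℝ, δ' = δ / 2 ^ s := ⟨_, rfl⟩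
  have hδ'0 : 0 < δ' := by rw [hδ']; positivity
  have h2s : (1 : ℝ) ≤ 2 ^ s := one_le_pow₀ (by norm_num)
  have hδ'1 : δ' ≤ 1 := by
    rw [hδ', div_le_one (by positivity)]
    linarith
  obtain ⟨H1, h1⟩ := single d B δ' hδ'0 hδ'1
  obtain ⟨H2, h2⟩ := evN _ (Real.tendsto_log_atTop.eventually_ge_atTop 1)
  refine ⟨max H1 (max H2 2), fun H hH W hW1 hWB v hv g A hAc hA => ?_⟩
  have hL1 := h2 H (by omega)
  obtain ⟨k, hk⟩ : ∃ k, A.card = k := ⟨_, rfl⟩
  have hLp : 0 < Real.log H := by linarith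
  rw [PA_prod H W v g A hk, hk]
  set n := A.orderEmbOfFin hk with hn
  set L := Real.log H with hL
  have hρ1 : 1 ≤ rho W := rho_ge hW1
  have hρ0 : 0 < rho W := by linarith
  have hρk : 0 < rho W ^ k := by positivity
  set G := GG W (dif A) (3 ^ k) with hG
  have hG1 : 1 ≤ G := GG_ge_one W _ _ (by positivity)
  have hsing := fun i => h1 H (by omega) W hW1 hWB (v i) (hv i) (g i) k (by omega) n n.strictMono
    (fun j => hA _ (orderEmbOfFin_mem A hk j))
  have hDl : Dl (⇑n) = dif A := dif_emb hk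
  simp only [hDl] at hsing
  rw [← hG] at hsing
  have hclose := prod_close (univ : Finset (Fin s))
    (fun i => L ^ k * (((gd H W (g i) (v i) n).card : ℝ) / (box d H W (g i)).card) / rho W ^ k)
    (fun i => if ∀ j, IsCoprime (pv (v i) (g i) (n j)) (W : ℤ) then (1 : ℝ) else 0)
    (2 * (G - 1) + δ') (by linarith) (fun i _ => by positivity) (fun i _ => by split_ifs <;> norm_num)
    (fun i _ => by positivity) (fun i _ => by
      have h3 := hsing i
      have e : L ^ k * (((gd H W (g i) (v i) n).card : ℝ) / (box d H W (g i)).card) / rho W ^ k -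
          (if ∀ j, IsCoprime (pv (v i) (g i) (n j)) (W : ℤ) then (1 : ℝ) else 0) =
          (L ^ k * (((gd H W (g i) (v i) n).card : ℝ) / (box d H W (g i)).card) -
          (if ∀ j, IsCoprime (pv (v i) (g i) (n j)) (W : ℤ) then rho W ^ k else 0)) / rho W ^ k := by
        split_ifs
        · field_simp
        · field_simp
          ring
      rw [e, abs_div, abs_of_pos hρk, div_le_iff₀ hρk]
      linarith)
  rw [card_univ, Fintype.card_fin] at hclose
  have hexp : (1 + (2 * (G - 1) + δ')) ^ s ≤ (1 + δ) * GG W (dif A) ((1 + 3 ^ (d + 1)) ^ (2 * s)) := by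
    have h3 : 1 + (2 * (G - 1) + δ') ≤ (1 + δ') * G ^ 2 := by
      have q1 : 0 ≤ δ' * (G ^ 2 - 1) := mul_nonneg hδ'0.le (by nlinarith)
      nlinarith [sq_nonneg (G - 1)]
    have h4 : (1 + δ') ^ s ≤ 1 + δ := by
      have := pow_lin 1 δ' zero_le_one hδ'0.le hδ'1 s
      rw [one_mul] at this
      refine this.trans ?_
      have h5 : δ = 2 ^ s * δ' := by rw [hδ']; field_simp
      norm_num
      nlinarith
    calc (1 + (2 * (G - 1) + δ')) ^ s ≤ ((1 + δ') * G ^ 2) ^ s := by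
          apply pow_le_pow_left₀ _ h3
          linarith
      _ = (1 + δ') ^ s * G ^ (2 * s) := by rw [mul_pow, ← pow_mul]
      _ ≤ (1 + δ) * GG W (dif A) ((1 + 3 ^ (d + 1)) ^ (2 * s)) := by
          have h5 : G ^ (2 * s) ≤ GG W (dif A) ((1 + 3 ^ (d + 1)) ^ (2 * s)) := by
            refine (GG_pow W (dif A) (3 ^ k) (by positivity) (2 * s)).trans ?_
            apply GG_mono
            · positivity
            · have : (3 : ℝ) ^ k ≤ 3 ^ (d + 1) := pow_le_pow_right₀ (by norm_num) (by omega)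
              gcongr
          gcongr
  obtain ⟨Q, hQ⟩ : ∃ Q : ℝ, Q = ∏ i, (((gd H W (g i) (v i) n).card : ℝ) / (box d H W (g i)).card) := ⟨_, rfl⟩
  have e1 : ∏ i : Fin s, (L ^ k * (((gd H W (g i) (v i) n).card : ℝ) / (box d H W (g i)).card) / rho W ^ k) =
      (L ^ s) ^ k * Q / (rho W ^ s) ^ k := by
    rw [hQ, prod_div_distrib, prod_mul_distrib, prod_const, prod_const, card_univ, Fintype.card_fin, ← pow_mul, ← pow_mul,
      ← pow_mul, ← pow_mul, mul_comm k s]
  have e2 : ∏ i : Fin s, (if ∀ j, IsCoprime (pv (v i) (g i) (n j)) (W : ℤ) then (1 : ℝ) else 0) =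
      if ∀ m ∈ A, okn v g W m then 1 else 0 := by
    split_ifs with h
    · apply prod_eq_one
      intro i _
      rw [if_pos]
      intro j
      exact h _ (orderEmbOfFin_mem A hk j) i
    · push Not at h
      obtain ⟨m, hm, hm2⟩ := h
      unfold okn at hm2
      push Not at hm2
      obtain ⟨i, hi⟩ := hm2
      apply prod_eq_zero (mem_univ i)
      rw [if_neg]
      intro hcon
      rw [← map_orderEmbOfFin_univ A hk, Finset.mem_map] at hm
      obtain ⟨j, _, rfl⟩ := hm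
      exact hi (hcon j)
  rw [e1, e2] at hclose
  have hR : 0 < (rho W ^ s) ^ k := by positivity
  rw [← hQ]
  have e3 : (L ^ s) ^ k * Q -
      (if ∀ m ∈ A, okn v g W m then (rho W ^ s) ^ k else 0) =
      (rho W ^ s) ^ k * ((L ^ s) ^ k * Q / (rho W ^ s) ^ k -
        (if ∀ m ∈ A, okn v g W m then 1 else 0)) := by
    split_ifs
    · field_simp
    · field_simp
      ring
  rw [e3, abs_mul, abs_of_pos hR]
  apply mul_le_mul_of_nonneg_left _ hR.le
  linarith

end Pool.Agent.K1H89.PL
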