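import Mathlib
import Pool.Agent.K1H89.PL.A9

/-! The sum over all subsets of a union of windows. -/

set_option autoImplicit false

namespace Pool.Agent.K1H89.PL

open Finset Filter
open Pool.Agent.TH445.OI (evN ev_pow)

lemma card_two (X : Finset ℕ) (k a b : ℕ) (hab : a < b) :
    ((((powersetCard k X).filter (fun A => a ∈ A ∧ b ∈ A)).card : ℕ) : ℝ) ≤ (X.card : ℝ) ^ (k - 2) := by
  have h1 : ((powersetCard k X).filter (fun A => a ∈ A ∧ b ∈ A)).card ≤ (powersetCard (k - 2) X).card := by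
    apply card_le_card_of_injOn (fun A => (A.erase a).erase b)
    · intro A hA
      simp only [coe_filter, Set.mem_ofPred_eq, mem_powersetCard] at hA
      rw [mem_coe, mem_powersetCard]
      obtain ⟨⟨h1, h2⟩, h3, h4⟩ := hA
      refine ⟨(erase_subset _ _).trans ((erase_subset _ _).trans h1), ?_⟩
      rw [card_erase_of_mem, card_erase_of_mem h3, h2]
      · omega
      · rw [mem_erase]
        exact ⟨hab.ne', h4⟩
    · intro A hA B hB hAB
      simp only [coe_filter, Set.mem_ofPred_eq] at hA hB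
      simp only at hAB
      have e1 : insert a (insert b ((A.erase a).erase b)) = A := by
        rw [insert_erase, insert_erase hA.2.1]
        rw [mem_erase]
        exact ⟨hab.ne', hA.2.2⟩
      have e2 : insert a (insert b ((B.erase a).erase b)) = B := by
        rw [insert_erase, insert_erase hB.2.1]
        rw [mem_erase]
        exact ⟨hab.ne', hB.2.2⟩
      rw [← e1, ← e2, hAB]
  rw [card_powersetCard] at h1
  have h2 := h1.trans (Nat.choose_le_pow _ _)
  exact_mod_cast h2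

lemma pair_sum (X : Finset ℕ) (k : ℕ) (f : ℕ → ℝ) (hf : ∀ h, 0 ≤ f h) :
    ∑ A ∈ powersetCard k X, ∑ b ∈ A, ∑ a ∈ A.filter (fun a => a < b), f (b - a) ≤
      (X.card : ℝ) ^ (k - 2) * ∑ b ∈ X, ∑ a ∈ X.filter (fun a => a < b), f (b - a) := by
  have h1 : ∀ A ∈ powersetCard k X, ∑ b ∈ A, ∑ a ∈ A.filter (fun a => a < b), f (b - a) =
      ∑ b ∈ X, ∑ a ∈ X.filter (fun a => a < b), if (a ∈ A ∧ b ∈ A) then f (b - a) else 0 := by
    intro A hA
    rw [mem_powersetCard] at hA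
    have hAX := hA.1
    rw [← sum_filter_add_sum_filter_not X (fun b => b ∈ A)]
    have e1 : X.filter (fun b => b ∈ A) = A := by
      ext x
      rw [mem_filter]
      exact ⟨fun h => h.2, fun h => ⟨hAX h, h⟩⟩
    have e2 : ∑ b ∈ X.filter (fun b => ¬ b ∈ A), ∑ a ∈ X.filter (fun a => a < b), (if (a ∈ A ∧ b ∈ A) then f (b - a) else 0) = 0 := by
      apply sum_eq_zero
      intro b hb
      rw [mem_filter] at hb
      apply sum_eq_zero
      intro a _
      rw [if_neg]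
      exact fun h => hb.2 h.2
    rw [e1, e2, add_zero]
    apply sum_congr rfl
    intro b hb
    rw [← sum_filter]
    apply sum_congr _ (fun _ _ => rfl)
    ext x
    simp only [mem_filter]
    constructor
    · rintro ⟨h1, h2⟩
      exact ⟨⟨hAX h1, h2⟩, h1, hb⟩
    · rintro ⟨⟨_, h2⟩, h1, _⟩
      exact ⟨h1, h2⟩
  rw [sum_congr rfl h1, sum_comm, mul_sum]
  apply sum_le_sum
  intro b _
  rw [sum_comm, mul_sum]
  apply sum_le_sum
  intro a ha
  rw [mem_filter] at ha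
  rw [← sum_filter, sum_const, nsmul_eq_mul]
  exact mul_le_mul_of_nonneg_right (card_two X k a b ha.2) (hf _)

/-- the union of the windows -/
def XX {J : ℕ} (α β : Fin J → ℕ) : Finset ℕ := univ.biUnion (fun j => Ioc (α j) (β j))

lemma XX_sum {J : ℕ} (α β : Fin J → ℕ) (hd : ((univ : Finset (Fin J)) : Set (Fin J)).PairwiseDisjoint (fun j => Ioc (α j) (β j)))
    (F : ℕ → ℝ) : ∑ n ∈ XX α β, F n = ∑ j, ∑ n ∈ Ioc (α j) (β j), F n := by
  unfold XX
  rw [sum_biUnion hd]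

lemma XX_card {J : ℕ} (α β : Fin J → ℕ) (hαβ : ∀ j, α j ≤ β j)
    (hd : ((univ : Finset (Fin J)) : Set (Fin J)).PairwiseDisjoint (fun j => Ioc (α j) (β j))) :
    ((XX α β).card : ℝ) = ∑ j, ((β j : ℝ) - α j) := by
  unfold XX
  rw [card_biUnion hd]
  push_cast
  apply sum_congr rfl
  intro j _
  rw [Nat.card_Ioc, Nat.cast_sub (hαβ j)]

lemma shift_sum (f : ℕ → ℝ) (a α β : ℕ) (c L : ℝ) (hc : 0 ≤ c) (hL : 0 ≤ L) (hαβ : α ≤ β)
    (h : ∀ γ δ : ℕ, γ ≤ δ → δ ≤ β → ∑ h ∈ Ioc γ δ, f h ≤ c * (((δ : ℝ) - γ) + L)) :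
    ∑ b ∈ (Ioc α β).filter (fun b => a < b), f (b - a) ≤ c * (((β : ℝ) - α) + L) := by
  have hαβ' : (α : ℝ) ≤ β := by exact_mod_cast hαβ
  rcases lt_or_ge a β with hlt | hge
  · have e : ∑ b ∈ (Ioc α β).filter (fun b => a < b), f (b - a) = ∑ h ∈ Ioc (max α a - a) (β - a), f h := by
      apply sum_nbij' (fun b => b - a) (fun h => h + a)
      · intro b hb
        simp only [mem_filter, mem_Ioc] at hb ⊢
        omega
      · intro b hb
        simp only [mem_filter, mem_Ioc] at hb ⊢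
        omega
      · intro b hb
        simp only [mem_filter, mem_Ioc] at hb
        omega
      · intro b hb
        simp only [mem_Ioc] at hb
        omega
      · intro b _
        rfl
    rw [e]
    refine (h _ _ (by omega) (by omega)).trans ?_
    apply mul_le_mul_of_nonneg_left _ hc
    rw [Nat.cast_sub (le_max_right _ _), Nat.cast_sub hlt.le]
    have : (α : ℝ) ≤ ((max α a : ℕ) : ℝ) := by exact_mod_cast le_max_left _ _
    linarith
  · have e : (Ioc α β).filter (fun b => a < b) = ∅ := by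
      rw [filter_eq_empty_iff]
      intro b hb
      rw [mem_Ioc] at hb
      omega
    rw [e, sum_empty]
    apply mul_nonneg hc
    linarith

lemma XX_pairs {J : ℕ} (α β : Fin J → ℕ) (hαβ : ∀ j, α j ≤ β j)
    (hd : ((univ : Finset (Fin J)) : Set (Fin J)).PairwiseDisjoint (fun j => Ioc (α j) (β j)))
    (f : ℕ → ℝ) (c L : ℝ) (hc : 0 ≤ c) (hL : 0 ≤ L)
    (h : ∀ j, ∀ γ δ : ℕ, γ ≤ δ → δ ≤ β j → ∑ h ∈ Ioc γ δ, f h ≤ c * (((δ : ℝ) - γ) + L)) :
    ∑ b ∈ XX α β, ∑ a ∈ (XX α β).filter (fun a => a < b), f (b - a) ≤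
      c * ((XX α β).card * ((XX α β).card + J * L)) := by
  have e : ∑ b ∈ XX α β, ∑ a ∈ (XX α β).filter (fun a => a < b), f (b - a) =
      ∑ a ∈ XX α β, ∑ b ∈ (XX α β).filter (fun b => a < b), f (b - a) := by
    simp only [sum_filter]
    rw [sum_comm]
  rw [e]
  have h1 : ∀ a ∈ XX α β, ∑ b ∈ (XX α β).filter (fun b => a < b), f (b - a) ≤ c * ((XX α β).card + J * L) := by
    intro a _
    rw [sum_filter, XX_sum α β hd, XX_card α β hαβ hd]
    calc ∑ j, ∑ b ∈ Ioc (α j) (β j), (if a < b then f (b - a) else 0) ≤ ∑ j, c * (((β j : ℝ) - α j) + L) := by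
          apply sum_le_sum
          intro j _
          rw [← sum_filter]
          exact shift_sum f a (α j) (β j) c L hc hL (hαβ j) (h j)
      _ = c * (∑ j, ((β j : ℝ) - α j) + J * L) := by
          rw [← mul_sum, sum_add_distrib, sum_const, card_univ, Fintype.card_fin, nsmul_eq_mul]
  refine (sum_le_sum h1).trans (le_of_eq ?_)
  rw [sum_const, nsmul_eq_mul]
  ring

lemma rho_primorial_le (w : ℕ) : rho (primorial w) ≤ MP w := by
  have h1 : 1 ≤ primorial w := primorial_pos w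
  rw [rho_prod h1]
  unfold MP
  have hsub : (primorial w).primeFactors ⊆ prN w := by
    intro p hp
    rw [Nat.mem_primeFactors] at hp
    rw [mem_prN]
    exact ⟨(Nat.Prime.dvd_primorial_iff hp.1).1 hp.2.1, hp.1⟩
  have e : ∏ p ∈ (primorial w).primeFactors, ((p : ℝ) / (p - 1)) = ∏ p ∈ (primorial w).primeFactors, (1 - (p : ℝ)⁻¹)⁻¹ := by
    apply prod_congr rfl
    intro p hp
    have h2 : (2 : ℝ) ≤ p := by exact_mod_cast (Nat.prime_of_mem_primeFactors hp).two_le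
    have h3 : (p : ℝ) - 1 ≠ 0 := by linarith
    have h4 : (p : ℝ) ≠ 0 := by linarith
    field_simp
  rw [e]
  apply prod_le_prod_of_subset_of_one_le hsub
  · intro p hp
    have h2 : (2 : ℝ) ≤ p := by exact_mod_cast (Nat.prime_of_mem_primeFactors hp).two_le
    have : (p : ℝ)⁻¹ ≤ 1 := inv_le_one_of_one_le₀ (by linarith)
    apply inv_nonneg.2
    linarith
  · intro p hp _
    have h2 : (2 : ℝ) ≤ p := by exact_mod_cast (mem_prN.1 hp).2.two_le
    have h3 : (p : ℝ)⁻¹ ≤ 1 / 2 := by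
      rw [inv_le_comm₀ (by linarith) (by norm_num)]
      linarith
    have h4 : 0 < (p : ℝ)⁻¹ := by positivity
    rw [one_le_inv₀ (by linarith)]
    linarith

open Classical in
theorem L1 (s d B J : ℕ) (hs : 1 ≤ s) (hB : 1 ≤ B) (lam ε : ℝ) (hlam : 0 ≤ lam) (hε : 0 < ε) : ∃ w0 : ℕ, ∀ w : ℕ, w0 ≤ w →
    ∃ H0 : ℕ, ∀ H : ℕ, H0 ≤ H →
    ∀ v : Fin s → ℕ → ℤ, (∀ i, ∀ n : ℕ, (n : ℝ) ≤ Real.log H ^ B → |((v i n : ℤ) : ℝ)| ≤ H * Real.log H ^ B) →
    ∀ g : Fin s → Fin (d + 1) → ℤ, ∀ α β : Fin J → ℕ, (∀ j, α j ≤ β j) → (∀ j, (β j : ℝ) ≤ Real.log H ^ B) →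
    ((univ : Finset (Fin J)) : Set (Fin J)).PairwiseDisjoint (fun j => Ioc (α j) (β j)) →
    ∑ j, ((β j : ℝ) - α j) ≤ lam * Real.log H ^ s → ∀ k : ℕ, k ≤ d + 1 →
    ∑ A ∈ powersetCard k (XX α β), |PA H (primorial w) v g A -
      (if ∀ n ∈ A, okn v g (primorial w) n then ((rho (primorial w) / Real.log H) ^ s) ^ k else 0)| ≤ ε := by
  obtain ⟨D, hD⟩ : ∃ D, D = d + 1 := ⟨_, rfl⟩
  obtain ⟨C0, hC0⟩ : ∃ C0 : ℕ, C0 = (1 + 3 ^ (d + 1)) ^ (2 * s) := ⟨_, rfl⟩
  obtain ⟨C, hC⟩ : ∃ C : ℕ, C = (1 + C0) ^ (D * D) := ⟨_, rfl⟩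
  have hC1 : 1 ≤ C := by rw [hC]; exact Nat.one_le_pow _ _ (by omega)
  have hC1' : (1 : ℝ) ≤ C := by exact_mod_cast hC1
  obtain ⟨K, hK1, hK⟩ := mert
  obtain ⟨c1, hc1⟩ : ∃ c1 : ℝ, c1 = 8 * C * (lam + J + 1) ^ D * K ^ (s * D) / ε := ⟨_, rfl⟩
  have hJ0 : (0 : ℝ) ≤ J := Nat.cast_nonneg _
  have hc10 : 0 < c1 := by rw [hc1]; positivity
  obtain ⟨w1, hw1⟩ := evN _ (ev_pow (s * D) c1 1 one_pos)
  refine ⟨max (max w1 C) 2, fun w hw => ?_⟩
  have hwc := hw1 w (by omega)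
  rw [Real.rpow_one] at hwc
  have hw0 : (0 : ℝ) < w := by exact_mod_cast (by omega : 0 < w)
  have hlw : 0 < Real.log w := Real.log_pos (by exact_mod_cast (by omega : 1 < w))
  obtain ⟨W, hW⟩ : ∃ W, W = primorial w := ⟨_, rfl⟩
  have hW1 : 1 ≤ W := by rw [hW]; exact primorial_pos w
  have hρ1 : 1 ≤ rho W := rho_ge hW1
  obtain ⟨Λ, hΛ⟩ : ∃ Λ : ℝ, Λ = rho W ^ s * (lam + J + 1) := ⟨_, rfl⟩
  have hρs : 1 ≤ rho W ^ s := one_le_pow₀ hρ1
  have hΛ1 : 1 ≤ Λ := by
    rw [hΛ]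
    nlinarith
  have hΛw : 4 * C / w * Λ ^ D ≤ ε / 2 := by
    have h1 : rho W ≤ K * Real.log w := by
      rw [hW]
      exact (rho_primorial_le w).trans (hK w (by omega))
    have h2 : Λ ^ D ≤ (lam + J + 1) ^ D * K ^ (s * D) * Real.log w ^ (s * D) := by
      rw [hΛ, mul_pow, ← pow_mul]
      calc rho W ^ (s * D) * (lam + J + 1) ^ D ≤ (K * Real.log w) ^ (s * D) * (lam + J + 1) ^ D := by
            gcongr
        _ = _ := by rw [mul_pow]; ring
    have h3 : 4 * C / w * Λ ^ D ≤ 4 * C / w * ((lam + J + 1) ^ D * K ^ (s * D) * Real.log w ^ (s * D)) := by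
      gcongr
    refine h3.trans ?_
    have h4 : c1 * Real.log w ^ (s * D) * (ε / 2) ≤ w * (ε / 2) := by gcongr
    rw [div_mul_eq_mul_div, div_le_iff₀ hw0]
    refine le_trans (le_of_eq ?_) (h4.trans (le_of_eq (by ring)))
    rw [hc1]
    field_simp
    ring
  obtain ⟨δ, hδ⟩ : ∃ δ : ℝ, δ = min 1 (ε / (2 * Λ ^ D)) := ⟨_, rfl⟩
  have hΛD : 0 < Λ ^ D := by positivity
  have hδ0 : 0 < δ := by rw [hδ]; exact lt_min one_pos (by positivity)
  have hδ1 : δ ≤ 1 := by rw [hδ]; exact min_le_left _ _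
  have hδΛ : δ * Λ ^ D ≤ ε / 2 := by
    have : δ ≤ ε / (2 * Λ ^ D) := by rw [hδ]; exact min_le_right _ _
    calc δ * Λ ^ D ≤ ε / (2 * Λ ^ D) * Λ ^ D := by gcongr
      _ = ε / 2 := by field_simp
  obtain ⟨H1, h1⟩ := famP s d B δ hδ0 hδ1
  obtain ⟨H2, h2⟩ := GG_avg C B hC1 w (by omega)
  obtain ⟨H3, h3⟩ := evN _ (Real.tendsto_log_atTop.eventually_ge_atTop (W : ℝ))
  refine ⟨max H1 (max H2 H3), fun H hH v hv g α β hαβ hβ hd hN k hk => ?_⟩
  have hc3 := h3 H (by omega)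
  rw [← hW]
  have hW1' : (1 : ℝ) ≤ W := by exact_mod_cast hW1
  have hLp : 1 ≤ Real.log H := hW1'.trans hc3
  have hWB : (W : ℝ) ≤ Real.log H ^ B := hc3.trans (le_self_pow₀ hLp (by omega))
  have hfam := h1 H (by omega) W hW1 hWB v hv g
  have hgg := h2 H (by omega) W (fun p hp hpw => by rw [hW]; exact (Nat.Prime.dvd_primorial_iff hp).2 hpw)
  set L := Real.log H with hL
  have hL0 : 0 < L := by linarith
  set X := XX α β with hX
  set N : ℝ := (X.card : ℝ) with hNdef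
  have hN0 : 0 ≤ N := Nat.cast_nonneg _
  have hNle : N ≤ lam * L ^ s := by
    rw [hNdef, hX, XX_card α β hαβ hd]
    exact hN
  obtain ⟨κ, hκ⟩ : ∃ κ : ℝ, κ = (rho W / L) ^ s := ⟨_, rfl⟩
  have hκ0 : 0 < κ := by rw [hκ]; positivity
  have hκL : κ * L ^ s = rho W ^ s := by rw [hκ, div_pow]; field_simp
  have hLs : L ≤ L ^ s := le_self_pow₀ hLp (by omega)
  have hκN : κ * N ≤ Λ := by
    calc κ * N ≤ κ * (lam * L ^ s) := by gcongr
      _ = rho W ^ s * lam := by rw [← hκL]; ring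
      _ ≤ Λ := by
          rw [hΛ]
          apply mul_le_mul_of_nonneg_left _ (by positivity)
          linarith
  have hκNJ : κ * (N + J * L) ≤ Λ := by
    calc κ * (N + J * L) ≤ κ * (lam * L ^ s + J * L ^ s) := by gcongr
      _ = rho W ^ s * (lam + J) := by rw [← hκL]; ring
      _ ≤ Λ := by
          rw [hΛ]
          apply mul_le_mul_of_nonneg_left _ (by positivity)
          linarith
  -- the points are small
  have hpt : ∀ n ∈ X, (n : ℝ) ≤ L ^ B := by
    intro n hn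
    rw [hX] at hn
    unfold XX at hn
    rw [mem_biUnion] at hn
    obtain ⟨j, _, hj⟩ := hn
    rw [mem_Ioc] at hj
    have : (n : ℝ) ≤ β j := by exact_mod_cast hj.2
    exact this.trans (hβ j)
  have hGnn : ∀ h, 0 ≤ GG W h C - 1 := fun h => by
    have := GG_ge_one W h C (by positivity)
    linarith
  -- one subset
  have hone : ∀ A ∈ powersetCard k X, |PA H W v g A - (if ∀ n ∈ A, okn v g W n then ((rho W / L) ^ s) ^ k else 0)| ≤
      κ ^ k * (δ + 2 * ∑ b ∈ A, ∑ a ∈ A.filter (fun a => a < b), (GG W (b - a) C - 1)) := by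
    intro A hA
    rw [mem_powersetCard] at hA
    obtain ⟨hAX, hAk⟩ := hA
    have h4 := hfam A (by omega) (fun n hn => hpt n (hAX hn))
    rw [hAk] at h4
    rw [← hκ]
    have hLsk : 0 < (L ^ s) ^ k := by positivity
    have e1 : (L ^ s) ^ k * PA H W v g A - (if ∀ n ∈ A, okn v g W n then (rho W ^ s) ^ k else 0) =
        (L ^ s) ^ k * (PA H W v g A - (if ∀ n ∈ A, okn v g W n then κ ^ k else 0)) := by
      rw [← hκL, mul_pow]
      split_ifs
      · ring
      · ring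
    rw [e1, abs_mul, abs_of_pos hLsk, ← hκL, mul_pow] at h4
    have h5 : |PA H W v g A - (if ∀ n ∈ A, okn v g W n then κ ^ k else 0)| ≤
        κ ^ k * ((1 + δ) * GG W (dif A) ((1 + 3 ^ (d + 1)) ^ (2 * s)) - 1) := by
      have h6 : (L ^ s) ^ k * |PA H W v g A - (if ∀ n ∈ A, okn v g W n then κ ^ k else 0)| ≤
          (L ^ s) ^ k * (κ ^ k * ((1 + δ) * GG W (dif A) ((1 + 3 ^ (d + 1)) ^ (2 * s)) - 1)) := by
        refine h4.trans (le_of_eq ?_)
        ring
      exact le_of_mul_le_mul_left h6 hLsk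
    refine h5.trans ?_
    apply mul_le_mul_of_nonneg_left _ (by positivity)
    have h7 := GG_dif W A (D * D) (by rw [hAk]; exact Nat.mul_le_mul (by omega) (by omega)) ((1 + 3 ^ (d + 1)) ^ (2 * s)) (by positivity)
    have e2 : ((1 : ℝ) + (1 + 3 ^ (d + 1)) ^ (2 * s)) ^ (D * D) = (C : ℝ) := by
      rw [hC, hC0]
      push_cast
      ring
    rw [e2] at h7
    set T := ∑ b ∈ A, ∑ a ∈ A.filter (fun a => a < b), (GG W (b - a) C - 1) with hT
    have hT0 : 0 ≤ T := sum_nonneg fun b _ => sum_nonneg fun a _ => hGnn _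
    nlinarith
  refine (sum_le_sum hone).trans ?_
  rw [← mul_sum, sum_add_distrib, sum_const, card_powersetCard, nsmul_eq_mul, ← mul_sum]
  have hΛkD : Λ ^ k ≤ Λ ^ D := pow_le_pow_right₀ hΛ1 (by omega)
  have hp1 : κ ^ k * ((X.card.choose k : ℕ) * δ) ≤ ε / 2 := by
    have h4 : ((X.card.choose k : ℕ) : ℝ) ≤ N ^ k := by
      have := Nat.choose_le_pow X.card k
      rw [hNdef]
      exact_mod_cast this
    calc κ ^ k * ((X.card.choose k : ℕ) * δ) ≤ κ ^ k * (N ^ k * δ) := by gcongr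
      _ = (κ * N) ^ k * δ := by rw [mul_pow]; ring
      _ ≤ Λ ^ k * δ := by gcongr
      _ ≤ Λ ^ D * δ := by gcongr
      _ = δ * Λ ^ D := by ring
      _ ≤ ε / 2 := hδΛ
  have hp2 : κ ^ k * (2 * ∑ A ∈ powersetCard k X, ∑ b ∈ A, ∑ a ∈ A.filter (fun a => a < b), (GG W (b - a) C - 1)) ≤ ε / 2 := by
    rcases lt_or_ge k 2 with hk2 | hk2
    · have : ∑ A ∈ powersetCard k X, ∑ b ∈ A, ∑ a ∈ A.filter (fun a => a < b), (GG W (b - a) C - 1) = 0 := by
        apply sum_eq_zero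
        intro A hA
        rw [mem_powersetCard] at hA
        apply sum_eq_zero
        intro b hb
        apply sum_eq_zero
        intro a ha
        rw [mem_filter] at ha
        have : 1 < A.card := one_lt_card.2 ⟨a, ha.1, b, hb, ha.2.ne⟩
        omega
      rw [this]
      simp only [mul_zero]
      linarith
    · have h4 := pair_sum X k (fun h => GG W h C - 1) hGnn
      have h5 := XX_pairs α β hαβ hd (fun h => GG W h C - 1) (2 * C / w) L (by positivity) hL0.le (by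
        intro j γ δ' hγ hδ'
        apply hgg γ δ' hγ
        have : (δ' : ℝ) ≤ β j := by exact_mod_cast hδ'
        exact this.trans (hβ j))
      have h6 : ∑ A ∈ powersetCard k X, ∑ b ∈ A, ∑ a ∈ A.filter (fun a => a < b), (GG W (b - a) C - 1) ≤
          N ^ (k - 2) * (2 * C / w * (N * (N + J * L))) := by
        refine h4.trans ?_
        gcongr
      calc κ ^ k * (2 * ∑ A ∈ powersetCard k X, ∑ b ∈ A, ∑ a ∈ A.filter (fun a => a < b), (GG W (b - a) C - 1))
          ≤ κ ^ k * (2 * (N ^ (k - 2) * (2 * C / w * (N * (N + J * L))))) := by gcongr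
        _ = 4 * C / w * ((κ * N) ^ (k - 1) * (κ * (N + J * L))) := by
            obtain ⟨m, rfl⟩ : ∃ m, k = m + 2 := ⟨k - 2, by omega⟩
            simp only [Nat.add_sub_cancel, show m + 2 - 1 = m + 1 by omega]
            ring
        _ ≤ 4 * C / w * (Λ ^ (k - 1) * Λ) := by gcongr
        _ = 4 * C / w * Λ ^ k := by
            rw [← pow_succ]
            congr 2
            omega
        _ ≤ 4 * C / w * Λ ^ D := by gcongr
        _ ≤ ε / 2 := hΛw
  calc κ ^ k * ((X.card.choose k : ℕ) * δ + 2 * ∑ A ∈ powersetCard k X, ∑ b ∈ A, ∑ a ∈ A.filter (fun a => a < b), (GG W (b - a) C - 1))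
      = κ ^ k * ((X.card.choose k : ℕ) * δ) + κ ^ k * (2 * ∑ A ∈ powersetCard k X, ∑ b ∈ A, ∑ a ∈ A.filter (fun a => a < b), (GG W (b - a) C - 1)) := by ring
    _ ≤ ε := by linarith

end Pool.Agent.K1H89.PL
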