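import Mathlib

/-! Inclusion and exclusion for several windows. -/

set_option autoImplicit false

namespace Pool.Agent.K1H89.PL

open Finset

/-- the alternating sum -/
noncomputable def bon {J : ℕ} (I : Fin J → Finset ℕ) (r : Fin J → ℕ) (m : ℕ) (T : Finset ℕ) : ℝ :=
  ∑ b ∈ range (m + 1), (-1 : ℝ) ^ b * ((∏ j, (((T ∩ I j).card.choose (r j) : ℕ) : ℝ)) * ((T.card - ∑ j, r j).choose b : ℕ))

/-- the indicator -/
noncomputable def ind {J : ℕ} (I : Fin J → Finset ℕ) (r : Fin J → ℕ) (T : Finset ℕ) : ℝ :=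
  if ∀ j, (T ∩ I j).card = r j then 1 else 0

lemma bon_sign {J : ℕ} (I : Fin J → Finset ℕ) (r : Fin J → ℕ) (m : ℕ) (T : Finset ℕ)
    (hT : T.card = ∑ j, (T ∩ I j).card) : 0 ≤ (-1 : ℝ) ^ m * (bon I r m T - ind I r T) := by
  have hbon : bon I r m T = (∏ j, (((T ∩ I j).card.choose (r j) : ℕ) : ℝ)) *
      ∑ b ∈ range (m + 1), (-1 : ℝ) ^ b * ((T.card - ∑ j, r j).choose b : ℕ) := by
    unfold bon
    rw [mul_sum]
    apply sum_congr rfl
    intro b _
    ring
  by_cases hj : ∃ j, (T ∩ I j).card < r j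
  · obtain ⟨j, hj⟩ := hj
    have h1 : (∏ j, (((T ∩ I j).card.choose (r j) : ℕ) : ℝ)) = 0 := by
      apply prod_eq_zero (mem_univ j)
      rw [Nat.choose_eq_zero_of_lt hj]
      simp
    have h2 : ind I r T = 0 := by
      unfold ind
      rw [if_neg]
      intro h
      have := h j
      omega
    rw [hbon, h1, h2]
    simp
  · push Not at hj
    rcases (sum_le_sum (fun j (_ : j ∈ (univ : Finset (Fin J))) => hj j)).eq_or_lt with heq | hlt
    · have hall : ∀ j, (T ∩ I j).card = r j := by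
        intro j
        exact ((sum_eq_sum_iff_of_le (fun j _ => hj j)).1 heq j (mem_univ j)).symm
      have h2 : ind I r T = 1 := by
        unfold ind
        rw [if_pos hall]
      have h1 : (∏ j, (((T ∩ I j).card.choose (r j) : ℕ) : ℝ)) = 1 := by
        apply prod_eq_one
        intro j _
        rw [hall j, Nat.choose_self]
        simp
      have h3 : ∑ b ∈ range (m + 1), (-1 : ℝ) ^ b * ((T.card - ∑ j, r j).choose b : ℕ) = 1 := by
        have e : T.card - ∑ j, r j = 0 := by rw [hT, ← heq]; omega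
        rw [e, sum_range_succ']
        simp
      rw [hbon, h1, h2, h3]
      simp
    · have h2 : ind I r T = 0 := by
        unfold ind
        rw [if_neg]
        intro h
        have : ∑ j, (T ∩ I j).card = ∑ j, r j := sum_congr rfl fun j _ => h j
        omega
      obtain ⟨n, hn⟩ : ∃ n, T.card - ∑ j, r j = n + 1 := ⟨T.card - ∑ j, r j - 1, by omega⟩
      have h3 : ∑ b ∈ range (m + 1), (-1 : ℝ) ^ b * ((T.card - ∑ j, r j).choose b : ℕ) = (-1) ^ m * (n.choose m : ℕ) := by
        rw [hn]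
        have := Int.alternating_sum_range_choose_eq_choose (n := n) (m := m)
        exact_mod_cast this
      rw [hbon, h2, h3, sub_zero]
      have e : (-1 : ℝ) ^ m * ((∏ j, (((T ∩ I j).card.choose (r j) : ℕ) : ℝ)) * ((-1) ^ m * (n.choose m : ℕ))) =
          ((-1 : ℝ) ^ m * (-1) ^ m) * ((∏ j, (((T ∩ I j).card.choose (r j) : ℕ) : ℝ)) * (n.choose m : ℕ)) := by ring
      have e2 : (-1 : ℝ) ^ m * (-1) ^ m = 1 := by
        rw [← mul_pow]
        norm_num
      rw [e, e2, one_mul]
      positivity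

/-- the union of a choice of subsets -/
def UU {J : ℕ} (R : Fin J → Finset ℕ) : Finset ℕ := univ.biUnion R

/-- the choices -/
def ch {J : ℕ} (I : Fin J → Finset ℕ) (r : Fin J → ℕ) : Finset (Fin J → Finset ℕ) :=
  Fintype.piFinset (fun j => powersetCard (r j) (I j))

lemma mem_ch {J : ℕ} {I : Fin J → Finset ℕ} {r : Fin J → ℕ} {R : Fin J → Finset ℕ} :
    R ∈ ch I r ↔ ∀ j, R j ⊆ I j ∧ (R j).card = r j := by
  unfold ch
  rw [Fintype.mem_piFinset]
  simp only [mem_powersetCard]

lemma UU_card {J : ℕ} {I : Fin J → Finset ℕ} {r : Fin J → ℕ} {R : Fin J → Finset ℕ}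
    (hd : ((univ : Finset (Fin J)) : Set (Fin J)).PairwiseDisjoint I) (hR : R ∈ ch I r) : (UU R).card = ∑ j, r j := by
  rw [mem_ch] at hR
  unfold UU
  rw [card_biUnion]
  · exact sum_congr rfl fun j _ => (hR j).2
  · intro i hi j hj hij
    exact disjoint_of_subset_left (hR i).1 (disjoint_of_subset_right (hR j).1 (hd hi hj hij))

lemma UU_inter {J : ℕ} {I : Fin J → Finset ℕ} {r : Fin J → ℕ} {R : Fin J → Finset ℕ}
    (hd : ((univ : Finset (Fin J)) : Set (Fin J)).PairwiseDisjoint I) (hR : R ∈ ch I r) (j : Fin J) :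
    UU R ∩ I j = R j := by
  rw [mem_ch] at hR
  ext x
  unfold UU
  rw [mem_inter, mem_biUnion]
  constructor
  · rintro ⟨⟨i, _, hi⟩, hx⟩
    by_cases hij : i = j
    · rwa [← hij]
    · exfalso
      exact (disjoint_left.1 (hd (by simp) (by simp) hij)) ((hR i).1 hi) hx
  · intro hx
    exact ⟨⟨j, mem_univ _, hx⟩, (hR j).1 hx⟩

lemma UU_sub {J : ℕ} {I : Fin J → Finset ℕ} {r : Fin J → ℕ} {R : Fin J → Finset ℕ} (hR : R ∈ ch I r) :
    UU R ⊆ univ.biUnion I := by
  rw [mem_ch] at hR
  unfold UU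
  intro x hx
  rw [mem_biUnion] at hx ⊢
  obtain ⟨j, h1, h2⟩ := hx
  exact ⟨j, h1, (hR j).1 h2⟩

/-- the number of pairs inside a set -/
lemma count_pairs {J : ℕ} (I : Fin J → Finset ℕ) (r : Fin J → ℕ) (b : ℕ) (T : Finset ℕ)
    (hd : ((univ : Finset (Fin J)) : Set (Fin J)).PairwiseDisjoint I) (hT : T ⊆ univ.biUnion I) :
    ∑ R ∈ ch I r, ∑ B ∈ powersetCard b (univ.biUnion I \ UU R), (if UU R ∪ B ⊆ T then (1 : ℝ) else 0) =
      (∏ j, (((T ∩ I j).card.choose (r j) : ℕ) : ℝ)) * ((T.card - ∑ j, r j).choose b : ℕ) := by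
  have h1 : ∀ R ∈ ch I r, ∑ B ∈ powersetCard b (univ.biUnion I \ UU R), (if UU R ∪ B ⊆ T then (1 : ℝ) else 0) =
      if UU R ⊆ T then (((T.card - ∑ j, r j).choose b : ℕ) : ℝ) else 0 := by
    intro R hR
    split_ifs with h
    · rw [← sum_filter, sum_const, nsmul_eq_mul, mul_one]
      congr 1
      have e : (powersetCard b (univ.biUnion I \ UU R)).filter (fun B => UU R ∪ B ⊆ T) = powersetCard b (T \ UU R) := by
        ext B
        rw [mem_filter, mem_powersetCard, mem_powersetCard, union_subset_iff]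
        constructor
        · rintro ⟨⟨h2, h3⟩, _, h4⟩
          refine ⟨?_, h3⟩
          intro x hx
          rw [mem_sdiff]
          exact ⟨h4 hx, (mem_sdiff.1 (h2 hx)).2⟩
        · rintro ⟨h2, h3⟩
          refine ⟨⟨?_, h3⟩, h, ?_⟩
          · intro x hx
            have := mem_sdiff.1 (h2 hx)
            rw [mem_sdiff]
            exact ⟨hT this.1, this.2⟩
          · intro x hx
            exact (mem_sdiff.1 (h2 hx)).1
      rw [e, card_powersetCard, card_sdiff_of_subset h, UU_card hd hR]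
    · apply sum_eq_zero
      intro B _
      rw [if_neg]
      intro h2
      exact h (subset_union_left.trans h2)
  rw [sum_congr rfl h1, ← sum_filter, sum_const, nsmul_eq_mul]
  congr 1
  have e : (ch I r).filter (fun R => UU R ⊆ T) = Fintype.piFinset (fun j => powersetCard (r j) (T ∩ I j)) := by
    ext R
    rw [mem_filter, mem_ch, Fintype.mem_piFinset]
    simp only [mem_powersetCard]
    constructor
    · rintro ⟨h2, h3⟩ j
      refine ⟨?_, (h2 j).2⟩
      apply subset_inter _ (h2 j).1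
      refine subset_trans ?_ h3
      unfold UU
      exact subset_biUnion_of_mem R (mem_univ j)
    · intro h2
      refine ⟨fun j => ⟨(h2 j).1.trans inter_subset_right, (h2 j).2⟩, ?_⟩
      unfold UU
      intro x hx
      rw [mem_biUnion] at hx
      obtain ⟨j, _, hj⟩ := hx
      exact (mem_inter.1 ((h2 j).1 hj)).1
  rw [e, Fintype.card_piFinset]
  push_cast
  apply prod_congr rfl
  intro j _
  rw [card_powersetCard]

/-- the sum over pairs is at most a multiple of the sum over sets -/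
lemma pairs_le {J : ℕ} (I : Fin J → Finset ℕ) (r : Fin J → ℕ) (b : ℕ)
    (hd : ((univ : Finset (Fin J)) : Set (Fin J)).PairwiseDisjoint I) (f : Finset ℕ → ℝ) (hf : ∀ A, 0 ≤ f A) :
    ∑ R ∈ ch I r, ∑ B ∈ powersetCard b (univ.biUnion I \ UU R), f (UU R ∪ B) ≤
      2 ^ (∑ j, r j + b) * ∑ A ∈ powersetCard (∑ j, r j + b) (univ.biUnion I), f A := by
  classical
  set P := (ch I r).sigma (fun R => powersetCard b (univ.biUnion I \ UU R)) with hP
  have e1 : ∑ R ∈ ch I r, ∑ B ∈ powersetCard b (univ.biUnion I \ UU R), f (UU R ∪ B) = ∑ q ∈ P, f (UU q.1 ∪ q.2) := by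
    rw [hP, sum_sigma]
  have hmaps : ∀ q ∈ P, UU q.1 ∪ q.2 ∈ powersetCard (∑ j, r j + b) (univ.biUnion I) := by
    intro q hq
    rw [hP, mem_sigma, mem_powersetCard] at hq
    obtain ⟨h1, h2, h3⟩ := hq
    rw [mem_powersetCard]
    constructor
    · exact union_subset (UU_sub h1) (h2.trans sdiff_subset)
    · rw [card_union_of_disjoint, UU_card hd h1, h3]
      exact (disjoint_of_subset_left h2 sdiff_disjoint).symm
  rw [e1, ← sum_fiberwise_of_maps_to hmaps, mul_sum]
  apply sum_le_sum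
  intro A hA
  rw [mem_powersetCard] at hA
  have h1 : ∑ q ∈ P.filter (fun q => UU q.1 ∪ q.2 = A), f (UU q.1 ∪ q.2) =
      ((P.filter (fun q => UU q.1 ∪ q.2 = A)).card : ℝ) * f A := by
    rw [← nsmul_eq_mul, ← sum_const]
    apply sum_congr rfl
    intro q hq
    rw [(mem_filter.1 hq).2]
  rw [h1]
  apply mul_le_mul_of_nonneg_right _ (hf A)
  have h2 : (P.filter (fun q => UU q.1 ∪ q.2 = A)).card ≤ A.powerset.card := by
    apply card_le_card_of_injOn (fun q => UU q.1)
    · intro q hq
      rw [mem_coe, mem_filter] at hq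
      rw [mem_coe, mem_powerset, ← hq.2]
      exact subset_union_left
    · intro q hq q' hq' hqq
      rw [mem_coe, mem_filter, hP, mem_sigma, mem_powersetCard] at hq hq'
      simp only at hqq
      have e1 : q.1 = q'.1 := by
        funext j
        rw [← UU_inter hd hq.1.1 j, ← UU_inter hd hq'.1.1 j, hqq]
      have e2 : q.2 = q'.2 := by
        have a1 : q.2 = A \ UU q.1 := by
          rw [← hq.2, union_sdiff_left]
          symm
          exact sdiff_eq_self_of_disjoint (disjoint_of_subset_left hq.1.2.1 sdiff_disjoint)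
        have a2 : q'.2 = A \ UU q'.1 := by
          rw [← hq'.2, union_sdiff_left]
          symm
          exact sdiff_eq_self_of_disjoint (disjoint_of_subset_left hq'.1.2.1 sdiff_disjoint)
        rw [a1, a2, hqq]
      obtain ⟨x, y⟩ := q
      obtain ⟨x', y'⟩ := q'
      simp only at e1 e2
      rw [e1, e2]
  rw [card_powerset, hA.2] at h2
  exact_mod_cast h2

end Pool.Agent.K1H89.PL
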