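import Mathlib
import Pool.Agent.K1H89.PL.A11

/-! The truncated inclusion and exclusion for a random set. -/

set_option autoImplicit false

namespace Pool.Agent.K1H89.PL

open Finset

/-- the model for the alternating sum -/
noncomputable def Mn {J : ℕ} (I : Fin J → Finset ℕ) (r : Fin J → ℕ) (κ : ℝ) (Z : Finset ℕ) (m : ℕ) : ℝ :=
  ∑ b ∈ range (m + 1), (-1 : ℝ) ^ b * (κ ^ (∑ j, r j + b) *
    ((∏ j, (((Z ∩ I j).card.choose (r j) : ℕ) : ℝ)) * ((Z.card - ∑ j, r j).choose b : ℕ)))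

open Classical in
lemma bonf {Ω : Type} (S : Finset Ω) (hS : 0 < S.card) {J : ℕ} (I : Fin J → Finset ℕ) (r : Fin J → ℕ)
    (hd : ((univ : Finset (Fin J)) : Set (Fin J)).PairwiseDisjoint I) (T : Ω → Finset ℕ)
    (hT : ∀ a, T a ⊆ univ.biUnion I) (Z : Finset ℕ) (hZ : Z ⊆ univ.biUnion I) (κ ε : ℝ) (D : ℕ)
    (h : ∀ k ≤ D, ∑ A ∈ powersetCard k (univ.biUnion I),
      |((S.filter (fun a => A ⊆ T a)).card : ℝ) / S.card - (if A ⊆ Z then κ ^ k else 0)| ≤ ε)
    (m : ℕ) (hm : ∑ j, r j + m ≤ D) :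
    -((m + 1) * (2 ^ D * ε)) ≤ (-1 : ℝ) ^ m * (Mn I r κ Z m -
      ((S.filter (fun a => ∀ j, (T a ∩ I j).card = r j)).card : ℝ) / S.card) := by
  have hS0 : (0 : ℝ) < S.card := by exact_mod_cast hS
  have hε : 0 ≤ ε := le_trans (sum_nonneg fun A _ => abs_nonneg _) (h 0 (Nat.zero_le _))
  set P : Finset ℕ → ℝ := fun A => ((S.filter (fun a => A ⊆ T a)).card : ℝ) / S.card with hP
  set R := ∑ j, r j with hR
  set X := (univ : Finset (Fin J)).biUnion I with hX
  -- the expectation of `bon`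
  have hE : (∑ a ∈ S, bon I r m (T a)) / S.card =
      ∑ b ∈ range (m + 1), (-1 : ℝ) ^ b * ∑ R ∈ ch I r, ∑ B ∈ powersetCard b (X \ UU R), P (UU R ∪ B) := by
    have h1 : ∀ a ∈ S, bon I r m (T a) = ∑ b ∈ range (m + 1), (-1 : ℝ) ^ b * ∑ R ∈ ch I r,
        ∑ B ∈ powersetCard b (X \ UU R), (if UU R ∪ B ⊆ T a then (1 : ℝ) else 0) := by
      intro a _
      unfold bon
      apply sum_congr rfl
      intro b _
      rw [count_pairs I r b (T a) hd (hT a)]
    rw [sum_congr rfl h1, sum_comm, sum_div]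
    apply sum_congr rfl
    intro b _
    rw [← mul_sum, mul_div_assoc]
    congr 1
    rw [sum_comm, sum_div]
    apply sum_congr rfl
    intro R' _
    rw [sum_comm, sum_div]
    apply sum_congr rfl
    intro B _
    rw [hP]
    simp only
    rw [← sum_filter, sum_const, nsmul_eq_mul, mul_one]
  have hM : Mn I r κ Z m = ∑ b ∈ range (m + 1), (-1 : ℝ) ^ b * ∑ R' ∈ ch I r,
      ∑ B ∈ powersetCard b (X \ UU R'), (if UU R' ∪ B ⊆ Z then κ ^ (R + b) else 0) := by
    unfold Mn
    apply sum_congr rfl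
    intro b _
    rw [← count_pairs I r b Z hd hZ, mul_sum]
    congr 1
    apply sum_congr rfl
    intro R' _
    rw [mul_sum]
    apply sum_congr rfl
    intro B _
    rw [mul_ite, mul_one, mul_zero]
  have hdiff : |(∑ a ∈ S, bon I r m (T a)) / S.card - Mn I r κ Z m| ≤ (m + 1) * (2 ^ D * ε) := by
    rw [hE, hM, ← sum_sub_distrib]
    calc |∑ b ∈ range (m + 1), ((-1 : ℝ) ^ b * ∑ R' ∈ ch I r, ∑ B ∈ powersetCard b (X \ UU R'), P (UU R' ∪ B) -
          (-1 : ℝ) ^ b * ∑ R' ∈ ch I r, ∑ B ∈ powersetCard b (X \ UU R'), (if UU R' ∪ B ⊆ Z then κ ^ (R + b) else 0))|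
        ≤ ∑ b ∈ range (m + 1), |(-1 : ℝ) ^ b * ∑ R' ∈ ch I r, ∑ B ∈ powersetCard b (X \ UU R'), P (UU R' ∪ B) -
          (-1 : ℝ) ^ b * ∑ R' ∈ ch I r, ∑ B ∈ powersetCard b (X \ UU R'), (if UU R' ∪ B ⊆ Z then κ ^ (R + b) else 0)| :=
          abs_sum_le_sum_abs _ _
      _ ≤ ∑ _b ∈ range (m + 1), 2 ^ D * ε := by
          apply sum_le_sum
          intro b hb
          rw [mem_range] at hb
          rw [← mul_sub, abs_mul, abs_pow, abs_neg, abs_one, one_pow, one_mul, ← sum_sub_distrib]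
          calc |∑ R' ∈ ch I r, (∑ B ∈ powersetCard b (X \ UU R'), P (UU R' ∪ B) -
                ∑ B ∈ powersetCard b (X \ UU R'), (if UU R' ∪ B ⊆ Z then κ ^ (R + b) else 0))|
              ≤ ∑ R' ∈ ch I r, |∑ B ∈ powersetCard b (X \ UU R'), P (UU R' ∪ B) -
                ∑ B ∈ powersetCard b (X \ UU R'), (if UU R' ∪ B ⊆ Z then κ ^ (R + b) else 0)| := abs_sum_le_sum_abs _ _
            _ ≤ ∑ R' ∈ ch I r, ∑ B ∈ powersetCard b (X \ UU R'), |P (UU R' ∪ B) -
                (if UU R' ∪ B ⊆ Z then κ ^ (R + b) else 0)| := by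
                apply sum_le_sum
                intro R' _
                rw [← sum_sub_distrib]
                exact abs_sum_le_sum_abs _ _
            _ ≤ 2 ^ (R + b) * ∑ A ∈ powersetCard (R + b) X, |P A - (if A ⊆ Z then κ ^ (R + b) else 0)| :=
                pairs_le I r b hd (fun A => |P A - (if A ⊆ Z then κ ^ (R + b) else 0)|) (fun A => abs_nonneg _)
            _ ≤ 2 ^ D * ε := by
                have h2 : (2 : ℝ) ^ (R + b) ≤ 2 ^ D := pow_le_pow_right₀ (by norm_num) (by omega)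
                have h3 := h (R + b) (by omega)
                apply mul_le_mul h2 h3 _ (by positivity)
                exact sum_nonneg fun A _ => abs_nonneg _
      _ = (m + 1) * (2 ^ D * ε) := by
          rw [sum_const, card_range, nsmul_eq_mul]
          push_cast
          ring
  have hsign : 0 ≤ (-1 : ℝ) ^ m * ((∑ a ∈ S, bon I r m (T a)) / S.card -
      ((S.filter (fun a => ∀ j, (T a ∩ I j).card = r j)).card : ℝ) / S.card) := by
    have h1 : ((S.filter (fun a => ∀ j, (T a ∩ I j).card = r j)).card : ℝ) = ∑ a ∈ S, ind I r (T a) := by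
      unfold ind
      rw [← sum_filter, sum_const, nsmul_eq_mul, mul_one]
    rw [h1, ← sub_div, ← sum_sub_distrib, ← mul_div_assoc, mul_sum]
    apply div_nonneg _ hS0.le
    apply sum_nonneg
    intro a _
    apply bon_sign
    have e : T a = univ.biUnion (fun j => T a ∩ I j) := by
      rw [← inter_biUnion]
      exact (inter_eq_left.2 (hT a)).symm
    conv_lhs => rw [e]
    rw [card_biUnion]
    intro i hi j hj hij
    exact disjoint_of_subset_left inter_subset_right (disjoint_of_subset_right inter_subset_right (hd hi hj hij))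
  obtain ⟨d1, d2⟩ := abs_le.1 hdiff
  rcases Nat.even_or_odd m with he | ho
  · rw [he.neg_one_pow] at hsign ⊢
    linarith
  · rw [ho.neg_one_pow] at hsign ⊢
    linarith

end Pool.Agent.K1H89.PL
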