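import Mathlib
import Pool.Agent.K1H89.PL.A12

/-! The model is close to the truncated exponential series; the comparison with the Poisson law. -/

set_option autoImplicit false

namespace Pool.Agent.K1H89.PL

open Finset

lemma pow_close (x y K e : ℝ) (r : ℕ) (hK : 1 ≤ K) (hx : |x| ≤ K) (hy : |y| ≤ K) (h : |x - y| ≤ e) :
    |x ^ r - y ^ r| ≤ r * K ^ r * e := by
  have he : 0 ≤ e := (abs_nonneg _).trans h
  induction r with
  | zero => simp
  | succ r ih =>
    have e1 : x ^ (r + 1) - y ^ (r + 1) = x * (x ^ r - y ^ r) + (x - y) * y ^ r := by ring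
    rw [e1]
    have h1 : |y| ^ r ≤ K ^ r := pow_le_pow_left₀ (abs_nonneg _) hy _
    calc |x * (x ^ r - y ^ r) + (x - y) * y ^ r| ≤ |x * (x ^ r - y ^ r)| + |(x - y) * y ^ r| := abs_add_le _ _
      _ = |x| * |x ^ r - y ^ r| + |x - y| * |y| ^ r := by rw [abs_mul, abs_mul, abs_pow]
      _ ≤ K * (r * K ^ r * e) + e * K ^ r := by gcongr
      _ ≤ K * (r * K ^ r * e) + e * K ^ (r + 1) := by
          have : K ^ r ≤ K ^ (r + 1) := pow_le_pow_right₀ hK (by omega)
          gcongr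
      _ = ((r + 1 : ℕ) : ℝ) * K ^ (r + 1) * e := by
          push_cast
          ring

lemma choose_close (K : ℝ) (hK : 1 ≤ K) (κ μ e : ℝ) (z r : ℕ) (h0 : 0 ≤ κ) (hκ : κ ≤ e) (hz : |κ * z - μ| ≤ e)
    (hμ : 0 ≤ μ) (hb : μ + e ≤ K) :
    |κ ^ r * (z.choose r : ℕ) - μ ^ r / (r.factorial : ℕ)| ≤ r * K ^ r * ((r + 1) * e) ∧
      κ ^ r * (z.choose r : ℕ) ≤ K ^ r := by
  have he : 0 ≤ e := h0.trans hκ
  have hz0 : 0 ≤ κ * z := by positivity
  obtain ⟨z1, z2⟩ := abs_le.1 hz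
  have hzK : κ * z ≤ K := by linarith
  have hf1 : (1 : ℝ) ≤ (r.factorial : ℕ) := by exact_mod_cast Nat.factorial_pos r
  have hdf : ((z.descFactorial r : ℕ) : ℝ) = (r.factorial : ℕ) * (z.choose r : ℕ) := by
    exact_mod_cast Nat.descFactorial_eq_factorial_mul_choose z r
  have hup : κ ^ r * (z.descFactorial r : ℕ) ≤ (κ * z) ^ r := by
    rw [mul_pow]
    have := Nat.descFactorial_le_pow z r
    have h2 : ((z.descFactorial r : ℕ) : ℝ) ≤ (z : ℝ) ^ r := by exact_mod_cast this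
    gcongr
  constructor
  · rcases Nat.eq_zero_or_pos r with hr | hr
    · subst hr
      simp
    have hlow : (κ * ((z + 1 - r : ℕ) : ℝ)) ^ r ≤ κ ^ r * (z.descFactorial r : ℕ) := by
      rw [mul_pow]
      have := Nat.pow_sub_le_descFactorial z r
      have h2 : ((z + 1 - r : ℕ) : ℝ) ^ r ≤ ((z.descFactorial r : ℕ) : ℝ) := by exact_mod_cast this
      gcongr
    have e1 : κ ^ r * (z.choose r : ℕ) - μ ^ r / (r.factorial : ℕ) = (κ ^ r * (z.descFactorial r : ℕ) - μ ^ r) / (r.factorial : ℕ) := by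
      rw [hdf]
      field_simp
    rw [e1, abs_div, abs_of_pos (show (0 : ℝ) < (r.factorial : ℕ) by linarith)]
    have hw : |κ * ((z + 1 - r : ℕ) : ℝ) - μ| ≤ (r + 1) * e := by
      have h1 : ((z + 1 - r : ℕ) : ℝ) ≤ z := by exact_mod_cast (by omega : z + 1 - r ≤ z)
      have h2 : (z : ℝ) - r ≤ ((z + 1 - r : ℕ) : ℝ) := by
        have : z ≤ (z + 1 - r) + r := by omega
        have h3 : (z : ℝ) ≤ ((z + 1 - r : ℕ) : ℝ) + r := by exact_mod_cast this
        linarith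
      have h3 : κ * r ≤ r * e := by
        rw [mul_comm]
        gcongr
      have h4 : κ * ((z + 1 - r : ℕ) : ℝ) ≤ κ * z := by gcongr
      have h5 : κ * (z - r) ≤ κ * ((z + 1 - r : ℕ) : ℝ) := by gcongr
      have h6 : 0 ≤ (r : ℝ) * e := by positivity
      rw [abs_le]
      constructor <;> nlinarith
    have hwK : |κ * ((z + 1 - r : ℕ) : ℝ)| ≤ K := by
      have h1 : ((z + 1 - r : ℕ) : ℝ) ≤ z := by exact_mod_cast (by omega : z + 1 - r ≤ z)
      rw [abs_of_nonneg (by positivity)]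
      have h4 : κ * ((z + 1 - r : ℕ) : ℝ) ≤ κ * z := by gcongr
      linarith
    have hμK : |μ| ≤ K := by
      rw [abs_of_nonneg hμ]
      linarith
    have p1 := pow_close (κ * z) μ K e r hK (by rw [abs_of_nonneg hz0]; exact hzK) hμK hz
    have p2 := pow_close _ μ K _ r hK hwK hμK hw
    have p3 : (r : ℝ) * K ^ r * e ≤ r * K ^ r * ((r + 1) * e) := by
      have : e ≤ (r + 1) * e := by
        have : 0 ≤ (r : ℝ) * e := by positivity
        linarith
      gcongr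
    have p4 : |κ ^ r * (z.descFactorial r : ℕ) - μ ^ r| ≤ r * K ^ r * ((r + 1) * e) := by
      rw [abs_le] at p1 p2 ⊢
      constructor <;> linarith
    calc |κ ^ r * (z.descFactorial r : ℕ) - μ ^ r| / (r.factorial : ℕ) ≤ |κ ^ r * (z.descFactorial r : ℕ) - μ ^ r| :=
          div_le_self (abs_nonneg _) hf1
      _ ≤ _ := p4
  · have h1 : (κ * z) ^ r ≤ K ^ r := pow_le_pow_left₀ hz0 hzK _
    have h2 : κ ^ r * (z.choose r : ℕ) ≤ κ ^ r * (z.descFactorial r : ℕ) := by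
      rw [hdf]
      have : (0 : ℝ) ≤ (z.choose r : ℕ) := Nat.cast_nonneg _
      have h3 : (z.choose r : ℝ) ≤ (r.factorial : ℕ) * (z.choose r : ℕ) := by nlinarith
      gcongr
    linarith

lemma prod_close2 {ι : Type} (S : Finset ι) (x y : ι → ℝ) (K e : ℝ) (hK : 1 ≤ K) (he : 0 ≤ e)
    (hx : ∀ i ∈ S, |x i| ≤ K) (hy : ∀ i ∈ S, |y i| ≤ K) (h : ∀ i ∈ S, |x i - y i| ≤ e) :
    |∏ i ∈ S, x i - ∏ i ∈ S, y i| ≤ S.card * K ^ S.card * e ∧ |∏ i ∈ S, x i| ≤ K ^ S.card ∧ |∏ i ∈ S, y i| ≤ K ^ S.card := by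
  classical
  induction S using Finset.induction_on with
  | empty => simp
  | insert i S hi ih =>
    obtain ⟨i1, i2, i3⟩ := ih (fun j hj => hx j (mem_insert_of_mem hj)) (fun j hj => hy j (mem_insert_of_mem hj))
      (fun j hj => h j (mem_insert_of_mem hj))
    rw [prod_insert hi, prod_insert hi, card_insert_of_notMem hi]
    have h1 := h i (mem_insert_self _ _)
    have h2 := hx i (mem_insert_self _ _)
    have h3 := hy i (mem_insert_self _ _)
    have hKn : K ^ S.card ≤ K ^ (S.card + 1) := pow_le_pow_right₀ hK (by omega)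
    refine ⟨?_, ?_, ?_⟩
    · have e1 : x i * ∏ j ∈ S, x j - y i * ∏ j ∈ S, y j =
          x i * (∏ j ∈ S, x j - ∏ j ∈ S, y j) + (x i - y i) * ∏ j ∈ S, y j := by ring
      rw [e1]
      calc |x i * (∏ j ∈ S, x j - ∏ j ∈ S, y j) + (x i - y i) * ∏ j ∈ S, y j|
          ≤ |x i * (∏ j ∈ S, x j - ∏ j ∈ S, y j)| + |(x i - y i) * ∏ j ∈ S, y j| := abs_add_le _ _
        _ = |x i| * |∏ j ∈ S, x j - ∏ j ∈ S, y j| + |x i - y i| * |∏ j ∈ S, y j| := by
            rw [abs_mul, abs_mul]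
        _ ≤ K * (S.card * K ^ S.card * e) + e * K ^ S.card := by gcongr
        _ ≤ K * (S.card * K ^ S.card * e) + e * K ^ (S.card + 1) := by gcongr
        _ = ((S.card + 1 : ℕ) : ℝ) * K ^ (S.card + 1) * e := by push_cast; ring
    · rw [abs_mul, pow_succ, mul_comm (K ^ _)]
      gcongr
    · rw [abs_mul, pow_succ, mul_comm (K ^ _)]
      gcongr

/-- the truncated series -/
noncomputable def Sm (m : ℕ) (x : ℝ) : ℝ := ∑ b ∈ range (m + 1), (-1 : ℝ) ^ b * (x ^ b / (b.factorial : ℕ))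

lemma Sm_deriv (m : ℕ) (x : ℝ) : HasDerivAt (Sm (m + 1)) (-(Sm m x)) x := by
  have h : HasDerivAt (fun x => ∑ b ∈ range (m + 2), (-1 : ℝ) ^ b * (x ^ b / (b.factorial : ℕ)))
      (∑ b ∈ range (m + 2), (-1 : ℝ) ^ b * ((b : ℝ) * x ^ (b - 1) / (b.factorial : ℕ))) x := by
    apply HasDerivAt.fun_sum
    intro b _
    apply HasDerivAt.const_mul
    apply HasDerivAt.div_const
    exact hasDerivAt_pow b x
  have e : ∑ b ∈ range (m + 2), (-1 : ℝ) ^ b * ((b : ℝ) * x ^ (b - 1) / (b.factorial : ℕ)) = -(Sm m x) := by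
    rw [sum_range_succ']
    unfold Sm
    simp only [Nat.cast_zero, zero_mul, zero_div, mul_zero, add_zero, Nat.add_sub_cancel]
    rw [← sum_neg_distrib]
    apply sum_congr rfl
    intro b _
    rw [Nat.factorial_succ, pow_succ]
    push_cast
    have : ((b.factorial : ℕ) : ℝ) ≠ 0 := by exact_mod_cast (Nat.factorial_pos b).ne'
    have h2 : (b : ℝ) + 1 ≠ 0 := by positivity
    field_simp
  rw [e] at h
  exact h

lemma exp_sign (m : ℕ) : ∀ x : ℝ, 0 ≤ x → 0 ≤ (-1 : ℝ) ^ m * (Sm m x - Real.exp (-x)) := by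
  induction m with
  | zero =>
    intro x hx
    have : Real.exp (-x) ≤ 1 := Real.exp_le_one_iff.2 (by linarith)
    unfold Sm
    simp only [zero_add, sum_range_one, pow_zero, Nat.factorial_zero]
    norm_num
    exact hx
  | succ m ih =>
    intro x hx
    have hderiv : ∀ y : ℝ, HasDerivAt (fun y => (-1 : ℝ) ^ (m + 1) * (Sm (m + 1) y - Real.exp (-y)))
        ((-1 : ℝ) ^ (m + 1) * (-(Sm m y) - -Real.exp (-y))) y := by
      intro y
      apply HasDerivAt.const_mul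
      apply HasDerivAt.sub (Sm_deriv m y)
      have := (hasDerivAt_neg y).exp
      simpa using this
    have hmono : MonotoneOn (fun y => (-1 : ℝ) ^ (m + 1) * (Sm (m + 1) y - Real.exp (-y))) (Set.Ici 0) := by
      apply monotoneOn_of_deriv_nonneg (convex_Ici 0)
      · exact fun y _ => (hderiv y).continuousAt.continuousWithinAt
      · exact fun y _ => (hderiv y).differentiableAt.differentiableWithinAt
      · intro y hy
        rw [interior_Ici] at hy
        rw [(hderiv y).deriv]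
        have := ih y (le_of_lt hy)
        have e : (-1 : ℝ) ^ (m + 1) * (-(Sm m y) - -Real.exp (-y)) = (-1 : ℝ) ^ m * (Sm m y - Real.exp (-y)) := by
          rw [pow_succ]
          ring
        rw [e]
        exact this
    have h0 := hmono (Set.mem_Ici.2 le_rfl) (Set.mem_Ici.2 hx) hx
    refine le_trans (le_of_eq ?_) h0
    change (0 : ℝ) = (-1) ^ (m + 1) * (Sm (m + 1) 0 - Real.exp (-0))
    unfold Sm
    rw [sum_range_succ']
    simp

lemma Sm_succ (m : ℕ) (x : ℝ) : Sm (m + 1) x = Sm m x + (-1 : ℝ) ^ (m + 1) * (x ^ (m + 1) / ((m + 1).factorial : ℕ)) := by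
  unfold Sm
  rw [sum_range_succ]

lemma Sm_abs (m : ℕ) (x K : ℝ) (hx : 0 ≤ x) (hxK : x ≤ K) (hK : 1 ≤ K) : |Sm m x| ≤ (m + 1) * K ^ m := by
  unfold Sm
  refine (abs_sum_le_sum_abs _ _).trans ?_
  calc ∑ b ∈ range (m + 1), |(-1 : ℝ) ^ b * (x ^ b / (b.factorial : ℕ))| ≤ ∑ _b ∈ range (m + 1), K ^ m := by
        apply sum_le_sum
        intro b hb
        rw [mem_range] at hb
        rw [abs_mul, abs_pow, abs_neg, abs_one, one_pow, one_mul, abs_of_nonneg (by positivity)]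
        have hf1 : (1 : ℝ) ≤ (b.factorial : ℕ) := by exact_mod_cast Nat.factorial_pos b
        calc x ^ b / (b.factorial : ℕ) ≤ x ^ b := div_le_self (by positivity) hf1
          _ ≤ K ^ b := pow_le_pow_left₀ hx hxK _
          _ ≤ K ^ m := pow_le_pow_right₀ hK (by omega)
    _ = (m + 1) * K ^ m := by
        rw [sum_const, card_range, nsmul_eq_mul]
        push_cast
        ring

/-- the product of the main terms -/
noncomputable def Pi0 {J : ℕ} (r : Fin J → ℕ) (μ : Fin J → ℝ) : ℝ := ∏ j, (μ j ^ r j / ((r j).factorial : ℕ))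

/-- the closeness of the two sums -/
lemma Mn_close (J D : ℕ) (K0 : ℝ) (hK0 : 0 ≤ K0) : ∃ C : ℝ, 0 ≤ C ∧ ∀ (I : Fin J → Finset ℕ) (r : Fin J → ℕ) (κ e : ℝ)
    (Z : Finset ℕ) (m : ℕ) (μ : Fin J → ℝ), ∑ j, r j + m ≤ D → Z.card = ∑ j, (Z ∩ I j).card → 0 ≤ κ → κ ≤ e → e ≤ 1 →
    (∀ j, 0 ≤ μ j) → ∑ j, μ j ≤ K0 → (∀ j, |κ * (Z ∩ I j).card - μ j| ≤ e) →
    |Mn I r κ Z m - Pi0 r μ * Sm m (∑ j, μ j)| ≤ C * e := by
  obtain ⟨K, hKd⟩ : ∃ K : ℝ, K = K0 + J + D + 1 := ⟨_, rfl⟩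
  have hJ0 : (0 : ℝ) ≤ J := Nat.cast_nonneg _
  have hD0 : (0 : ℝ) ≤ D := Nat.cast_nonneg _
  have hK1 : 1 ≤ K := by rw [hKd]; linarith
  have hKD : 1 ≤ K ^ D := one_le_pow₀ hK1
  obtain ⟨c, hc⟩ : ∃ c : ℝ, c = D * K ^ D * ((D + 1) * (J + D + 1)) := ⟨_, rfl⟩
  have hc0 : 0 ≤ c := by rw [hc]; positivity
  refine ⟨(K ^ D) ^ J * ((D + 1) * c) + (J * (K ^ D) ^ J * c) * ((D + 1) * K ^ D), by positivity, ?_⟩
  intro I r κ e Z m μ hRm hZ hκ0 hκe he1 hμ0 hμK hz
  have he0 : 0 ≤ e := hκ0.trans hκe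
  have hrD : ∀ j, r j ≤ D := fun j => (single_le_sum (fun i _ => Nat.zero_le (r i)) (mem_univ j)).trans (by omega)
  have hμj : ∀ j, μ j ≤ K0 := fun j => (single_le_sum (fun i _ => hμ0 i) (mem_univ j)).trans hμK
  set R := ∑ j, r j with hR
  set μt := ∑ j, μ j with hμt
  have hμt0 : 0 ≤ μt := sum_nonneg fun j _ => hμ0 j
  have hRD : R ≤ D := by omega
  -- the model as a product
  have hM : Mn I r κ Z m = (∏ j, (κ ^ r j * (((Z ∩ I j).card.choose (r j) : ℕ) : ℝ))) *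
      ∑ b ∈ range (m + 1), (-1 : ℝ) ^ b * (κ ^ b * ((Z.card - R).choose b : ℕ)) := by
    unfold Mn
    rw [prod_mul_distrib, prod_pow_eq_pow_sum, mul_sum]
    apply sum_congr rfl
    intro b _
    rw [pow_add]
    ring
  -- the factors
  have hfac : ∀ j, |κ ^ r j * (((Z ∩ I j).card.choose (r j) : ℕ) : ℝ) - μ j ^ r j / ((r j).factorial : ℕ)| ≤ c * e ∧
      κ ^ r j * (((Z ∩ I j).card.choose (r j) : ℕ) : ℝ) ≤ K ^ D := by
    intro j
    obtain ⟨h1, h2⟩ := choose_close K hK1 κ (μ j) e (Z ∩ I j).card (r j) hκ0 hκe (hz j) (hμ0 j) (by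
      rw [hKd]
      linarith [hμj j])
    constructor
    · refine h1.trans ?_
      rw [hc]
      have q1 : (r j : ℝ) ≤ D := by exact_mod_cast hrD j
      have q2 : K ^ (r j) ≤ K ^ D := pow_le_pow_right₀ hK1 (hrD j)
      calc (r j : ℝ) * K ^ r j * ((r j + 1) * e) ≤ D * K ^ D * ((D + 1) * e) := by gcongr
        _ ≤ D * K ^ D * ((D + 1) * (J + D + 1)) * e := by
            have : 0 ≤ (D : ℝ) * K ^ D * (D + 1) * e := by positivity
            nlinarith
    · exact h2.trans (pow_le_pow_right₀ hK1 (hrD j))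
  have hfac2 : ∀ j, |μ j ^ r j / (((r j).factorial : ℕ) : ℝ)| ≤ K ^ D := by
    intro j
    have hf1 : (1 : ℝ) ≤ ((r j).factorial : ℕ) := by exact_mod_cast Nat.factorial_pos _
    have := hμ0 j
    rw [abs_of_nonneg (by positivity)]
    calc μ j ^ r j / (((r j).factorial : ℕ) : ℝ) ≤ μ j ^ r j := div_le_self (by positivity) hf1
      _ ≤ K ^ r j := pow_le_pow_left₀ (hμ0 j) (by rw [hKd]; linarith [hμj j]) _
      _ ≤ K ^ D := pow_le_pow_right₀ hK1 (hrD j)
  obtain ⟨p1, p2, p3⟩ := prod_close2 (univ : Finset (Fin J)) (fun j => κ ^ r j * (((Z ∩ I j).card.choose (r j) : ℕ) : ℝ))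
    (fun j => μ j ^ r j / (((r j).factorial : ℕ) : ℝ)) (K ^ D) (c * e) hKD (by positivity)
    (fun j _ => by rw [abs_of_nonneg (by positivity)]; exact (hfac j).2) (fun j _ => hfac2 j) (fun j _ => (hfac j).1)
  rw [card_univ, Fintype.card_fin] at p1 p2 p3
  have hSm : |Sm m μt| ≤ (D + 1) * K ^ D := by
    refine (Sm_abs m μt K hμt0 (by rw [hKd]; linarith) hK1).trans ?_
    have q1 : (m : ℝ) + 1 ≤ D + 1 := by
      have : m ≤ D := by omega
      have : (m : ℝ) ≤ D := by exact_mod_cast this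
      linarith
    have q2 : K ^ m ≤ K ^ D := pow_le_pow_right₀ hK1 (by omega)
    gcongr
  rcases lt_or_ge Z.card R with hlt | hRZ
  · have hex : ∃ j, (Z ∩ I j).card < r j := by
      by_contra hcon
      push Not at hcon
      have := sum_le_sum (fun j (_ : j ∈ (univ : Finset (Fin J))) => hcon j)
      omega
    obtain ⟨j, hj⟩ := hex
    have hP0 : ∏ j, (κ ^ r j * (((Z ∩ I j).card.choose (r j) : ℕ) : ℝ)) = 0 := by
      apply prod_eq_zero (mem_univ j)
      rw [Nat.choose_eq_zero_of_lt hj]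
      simp
    rw [hM]
    unfold Pi0
    rw [hP0, zero_sub, abs_neg] at p1
    rw [hP0, zero_mul, zero_sub, abs_neg, abs_mul]
    calc |∏ j, (μ j ^ r j / (((r j).factorial : ℕ) : ℝ))| * |Sm m μt| ≤ (J * (K ^ D) ^ J * (c * e)) * ((D + 1) * K ^ D) := by
          gcongr
      _ ≤ (K ^ D) ^ J * ((D + 1) * c) * e + (J * (K ^ D) ^ J * (c * e)) * ((D + 1) * K ^ D) := by
          have : 0 ≤ (K ^ D) ^ J * ((D + 1) * c) * e := by positivity
          linarith
      _ = ((K ^ D) ^ J * ((D + 1) * c) + (J * (K ^ D) ^ J * c) * ((D + 1) * K ^ D)) * e := by ring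
  -- the sum
  have hz' : |κ * ((Z.card - R : ℕ) : ℝ) - μt| ≤ (J + D) * e := by
    rw [Nat.cast_sub hRZ, hZ, hμt]
    push_cast
    have e1 : κ * (∑ j, ((Z ∩ I j).card : ℝ) - R) - ∑ j, μ j = ∑ j, (κ * (Z ∩ I j).card - μ j) - κ * R := by
      rw [sum_sub_distrib, mul_sub, mul_sum]
      ring
    rw [e1]
    have h1 : |∑ j, (κ * (Z ∩ I j).card - μ j)| ≤ J * e := by
      refine (abs_sum_le_sum_abs _ _).trans ((sum_le_sum fun j _ => hz j).trans (le_of_eq ?_))
      rw [sum_const, card_univ, Fintype.card_fin, nsmul_eq_mul]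
    have h2 : κ * R ≤ D * e := by
      have : (R : ℝ) ≤ D := by exact_mod_cast hRD
      calc κ * R ≤ e * D := by gcongr
        _ = D * e := mul_comm _ _
    have h3 : 0 ≤ κ * R := by positivity
    obtain ⟨a1, a2⟩ := abs_le.1 h1
    rw [abs_le]
    constructor <;> linarith
  have hsum : |∑ b ∈ range (m + 1), (-1 : ℝ) ^ b * (κ ^ b * ((Z.card - R).choose b : ℕ)) - Sm m μt| ≤ (D + 1) * c * e := by
    unfold Sm
    rw [← sum_sub_distrib]
    refine (abs_sum_le_sum_abs _ _).trans ?_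
    have h1 : ∀ b ∈ range (m + 1), |(-1 : ℝ) ^ b * (κ ^ b * ((Z.card - R).choose b : ℕ)) - (-1 : ℝ) ^ b * (μt ^ b / (b.factorial : ℕ))| ≤ c * e := by
      intro b hb
      rw [mem_range] at hb
      rw [← mul_sub, abs_mul, abs_pow, abs_neg, abs_one, one_pow, one_mul]
      obtain ⟨h2, _⟩ := choose_close K hK1 κ μt ((J + D + 1) * e) (Z.card - R) b hκ0 (by nlinarith)
        (hz'.trans (by nlinarith)) hμt0 (by
          rw [hKd]
          have : (J + D + 1) * e ≤ (J + D + 1) * 1 := by gcongr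
          linarith)
      refine h2.trans ?_
      rw [hc]
      have q1 : (b : ℝ) ≤ D := by exact_mod_cast (by omega : b ≤ D)
      have q2 : K ^ b ≤ K ^ D := pow_le_pow_right₀ hK1 (by omega)
      calc (b : ℝ) * K ^ b * ((b + 1) * ((J + D + 1) * e)) ≤ D * K ^ D * ((D + 1) * ((J + D + 1) * e)) := by gcongr
        _ = D * K ^ D * ((D + 1) * (J + D + 1)) * e := by ring
    refine (sum_le_sum h1).trans ?_
    rw [sum_const, card_range, nsmul_eq_mul]
    have q3 : ((m + 1 : ℕ) : ℝ) ≤ D + 1 := by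
      have : m + 1 ≤ D + 1 := by omega
      exact_mod_cast this
    calc ((m + 1 : ℕ) : ℝ) * (c * e) ≤ (D + 1) * (c * e) := by gcongr
      _ = (D + 1) * c * e := by ring
  rw [hM]
  unfold Pi0
  set P := ∏ j, (κ ^ r j * (((Z ∩ I j).card.choose (r j) : ℕ) : ℝ)) with hP
  set P' := ∏ j, (μ j ^ r j / (((r j).factorial : ℕ) : ℝ)) with hP'
  set S := ∑ b ∈ range (m + 1), (-1 : ℝ) ^ b * (κ ^ b * ((Z.card - R).choose b : ℕ)) with hS
  set S' := Sm m μt with hS'
  have e1 : P * S - P' * S' = P * (S - S') + (P - P') * S' := by ring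
  rw [e1]
  calc |P * (S - S') + (P - P') * S'| ≤ |P * (S - S')| + |(P - P') * S'| := abs_add_le _ _
    _ = |P| * |S - S'| + |P - P'| * |S'| := by rw [abs_mul, abs_mul]
    _ ≤ (K ^ D) ^ J * ((D + 1) * c * e) + (J * (K ^ D) ^ J * (c * e)) * ((D + 1) * K ^ D) := by
        gcongr
    _ = ((K ^ D) ^ J * ((D + 1) * c) + (J * (K ^ D) ^ J * c) * ((D + 1) * K ^ D)) * e := by ring

/-- the comparison with the law of Poisson -/
lemma poisson_cmp (m : ℕ) (p Pp x e : ℝ) (M : ℕ → ℝ) (hp : 0 ≤ p) (hPp : 0 ≤ Pp) (hx : 0 ≤ x)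
    (he : 0 ≤ e) (h1 : ∀ k ≤ m, -e ≤ (-1 : ℝ) ^ k * (M k - p)) (h2 : ∀ k ≤ m, |M k - Pp * Sm k x| ≤ e) :
    |p - Real.exp (-x) * Pp| ≤ Pp * (x ^ m / (m.factorial : ℕ)) + 2 * e := by
  have hF : ∀ k ≤ m, -(2 * e) ≤ (-1 : ℝ) ^ k * (Pp * Sm k x - p) := by
    intro k hk
    have a1 := h1 k hk
    obtain ⟨a2, a3⟩ := abs_le.1 (h2 k hk)
    rcases Nat.even_or_odd k with hev | hod
    · rw [hev.neg_one_pow] at a1 ⊢
      linarith
    · rw [hod.neg_one_pow] at a1 ⊢
      linarith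
  have hG : ∀ k, 0 ≤ (-1 : ℝ) ^ k * (Pp * Sm k x - Real.exp (-x) * Pp) := by
    intro k
    have e1 : (-1 : ℝ) ^ k * (Pp * Sm k x - Real.exp (-x) * Pp) = Pp * ((-1 : ℝ) ^ k * (Sm k x - Real.exp (-x))) := by ring
    rw [e1]
    exact mul_nonneg hPp (exp_sign k x hx)
  rcases Nat.eq_zero_or_pos m with hm | hm
  · subst hm
    have a1 := hF 0 le_rfl
    have a2 := hG 0
    have a3 : Sm 0 x = 1 := by unfold Sm; simp
    rw [a3] at a1 a2
    have a4 : 0 ≤ Real.exp (-x) * Pp := by positivity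
    simp only [pow_zero, one_mul, mul_one, Nat.factorial_zero, Nat.cast_one, div_one] at a1 a2 ⊢
    rw [abs_le]
    constructor <;> linarith
  · obtain ⟨k, rfl⟩ : ∃ k, m = k + 1 := ⟨m - 1, by omega⟩
    have a1 := hF (k + 1) le_rfl
    have a2 := hF k (by omega)
    have b1 := hG (k + 1)
    have b2 := hG k
    rw [Sm_succ] at a1 b1
    set t := x ^ (k + 1) / (((k + 1).factorial : ℕ) : ℝ) with ht
    have ht0 : 0 ≤ t := by positivity
    rcases Nat.even_or_odd k with hev | hod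
    · have hod2 : Odd (k + 1) := hev.add_one
      rw [hod2.neg_one_pow] at a1 b1
      rw [hev.neg_one_pow] at a2 b2
      rw [abs_le]
      constructor <;> nlinarith
    · have hev2 : Even (k + 1) := hod.add_one
      rw [hev2.neg_one_pow] at a1 b1
      rw [hod.neg_one_pow] at a2 b2
      rw [abs_le]
      constructor <;> nlinarith

end Pool.Agent.K1H89.PL
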