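import Mathlib

/-! Counting in periodic sets; the Chinese remainder theorem. -/

set_option autoImplicit false

namespace Pool.Agent.K1H89.PL

open Finset

/-- the number of the elements of a period -/
lemma period_count (P : ℕ → Prop) [DecidablePred P] (W : ℕ) (hP : ∀ n, P (n + W) ↔ P n) (a : ℕ) :
    ((Ioc a (a + W)).filter P).card = ((range W).filter P).card := by
  induction a with
  | zero =>
    rw [zero_add]
    rcases Nat.eq_zero_or_pos W with h | h
    · subst h
      simp
    · have e1 : Ioc 0 W = insert W (Ioo 0 W) := by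
        ext x
        simp only [mem_Ioc, mem_insert, mem_Ioo]
        omega
      have e2 : range W = insert 0 (Ioo 0 W) := by
        ext x
        simp only [mem_range, mem_insert, mem_Ioo]
        omega
      have h0 : P W ↔ P 0 := by
        have := hP 0
        rwa [zero_add] at this
      rw [e1, e2, filter_insert, filter_insert]
      by_cases hp : P 0
      · rw [if_pos hp, if_pos (h0.2 hp), card_insert_of_notMem, card_insert_of_notMem]
        · simp
        · simp
      · rw [if_neg hp, if_neg (fun h => hp (h0.1 h))]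
  | succ a ih =>
    rw [← ih]
    rcases Nat.eq_zero_or_pos W with h | h
    · subst h
      simp
    have e1 : Ioc (a + 1) (a + 1 + W) = insert (a + 1 + W) (Ioc (a + 1) (a + W)) := by
      ext x
      simp only [mem_Ioc, mem_insert]
      omega
    have e2 : Ioc a (a + W) = insert (a + 1) (Ioc (a + 1) (a + W)) := by
      ext x
      simp only [mem_Ioc, mem_insert]
      omega
    rw [e1, e2, filter_insert, filter_insert]
    by_cases hp : P (a + 1)
    · rw [if_pos hp, if_pos ((hP _).2 hp), card_insert_of_notMem, card_insert_of_notMem]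
      · simp
      · simp
    · rw [if_neg hp, if_neg (fun h => hp ((hP _).1 h))]

/-- the number of the elements of an interval -/
lemma interval_count (P : ℕ → Prop) [DecidablePred P] (W : ℕ) (hW : 1 ≤ W) (hP : ∀ n, P (n + W) ↔ P n) (a l : ℕ) :
    |(((Ioc a (a + l)).filter P).card : ℝ) - (l : ℝ) * ((((range W).filter P).card : ℝ) / W)| ≤ W := by
  have hW0 : (0 : ℝ) < W := by exact_mod_cast hW
  set N := ((range W).filter P).card with hN
  have hNW : (N : ℝ) ≤ W := by
    have := card_filter_le (range W) P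
    rw [card_range] at this
    exact_mod_cast this
  have hq : ∀ q : ℕ, ((Ioc a (a + q * W)).filter P).card = q * N := by
    intro q
    induction q with
    | zero => simp
    | succ q ih =>
      have e : Ioc a (a + (q + 1) * W) = Ioc a (a + q * W) ∪ Ioc (a + q * W) (a + q * W + W) := by
        ext x
        simp only [mem_Ioc, mem_union]
        have : (q + 1) * W = q * W + W := by ring
        rw [this]
        omega
      rw [e, filter_union, card_union_of_disjoint, ih, period_count P W hP]
      · ring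
      · rw [disjoint_left]
        intro x hx hy
        simp only [mem_filter, mem_Ioc] at hx hy
        omega
  have h1 : (l / W) * N ≤ ((Ioc a (a + l)).filter P).card := by
    rw [← hq (l / W)]
    apply card_le_card
    apply filter_subset_filter
    apply Ioc_subset_Ioc_right
    have := Nat.div_mul_le_self l W
    omega
  have h2 : ((Ioc a (a + l)).filter P).card ≤ (l / W + 1) * N := by
    rw [← hq (l / W + 1)]
    apply card_le_card
    apply filter_subset_filter
    apply Ioc_subset_Ioc_right
    have := Nat.lt_div_mul_add (a := l) (b := W) hW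
    have e : (l / W + 1) * W = l / W * W + W := by ring
    omega
  have h1' : ((l / W : ℕ) : ℝ) * N ≤ (((Ioc a (a + l)).filter P).card : ℝ) := by exact_mod_cast h1
  have h2' : (((Ioc a (a + l)).filter P).card : ℝ) ≤ (((l / W : ℕ) : ℝ) + 1) * N := by exact_mod_cast h2
  have h3 : ((l / W : ℕ) : ℝ) ≤ (l : ℝ) / W := Nat.cast_div_le
  have h4 : (l : ℝ) / W ≤ ((l / W : ℕ) : ℝ) + 1 := by
    rw [div_le_iff₀ hW0]
    have := Nat.lt_div_mul_add (a := l) (b := W) hW
    have h6 : (l : ℝ) < ((l / W * W + W : ℕ) : ℝ) := by exact_mod_cast this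
    push_cast at h6
    linarith
  have hN0 : (0 : ℝ) ≤ N := Nat.cast_nonneg _
  have e : (l : ℝ) * ((N : ℝ) / W) = (l : ℝ) / W * N := by ring
  rw [e, abs_le]
  constructor
  · have : (l : ℝ) / W * N ≤ (((l / W : ℕ) : ℝ) + 1) * N := by gcongr
    nlinarith
  · have : ((l / W : ℕ) : ℝ) * N ≤ (l : ℝ) / W * N := by gcongr
    nlinarith

/-- the Chinese remainder theorem for counting -/
lemma crt_count (m n : ℕ) (hm : 1 ≤ m) (hn : 1 ≤ n) (hmn : m.Coprime n) (P Q : ℕ → Prop) [DecidablePred P] [DecidablePred Q]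
    (hP : ∀ x, P (x + m) ↔ P x) (hQ : ∀ x, Q (x + n) ↔ Q x) :
    ((range (m * n)).filter (fun x => P x ∧ Q x)).card = ((range m).filter P).card * ((range n).filter Q).card := by
  have hPm : ∀ x, P x ↔ P (x % m) := by
    intro x
    conv_lhs => rw [← Nat.mod_add_div x m]
    induction x / m with
    | zero => simp
    | succ k ih =>
      rw [← ih]
      have : x % m + m * (k + 1) = (x % m + m * k) + m := by ring
      rw [this, hP]
  have hQn : ∀ x, Q x ↔ Q (x % n) := by
    intro x
    conv_lhs => rw [← Nat.mod_add_div x n]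
    induction x / n with
    | zero => simp
    | succ k ih =>
      rw [← ih]
      have : x % n + n * (k + 1) = (x % n + n * k) + n := by ring
      rw [this, hQ]
  rw [← card_product]
  apply card_bij (fun x _ => (x % m, x % n))
  · intro x hx
    rw [mem_filter, mem_range] at hx
    rw [mem_product, mem_filter, mem_filter, mem_range, mem_range]
    exact ⟨⟨Nat.mod_lt _ hm, (hPm x).1 hx.2.1⟩, ⟨Nat.mod_lt _ hn, (hQn x).1 hx.2.2⟩⟩
  · intro x hx y hy hxy
    rw [mem_filter, mem_range] at hx hy
    rw [Prod.mk.injEq] at hxy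
    have h1 : x ≡ y [MOD m * n] := (Nat.modEq_and_modEq_iff_modEq_mul hmn).1 ⟨hxy.1, hxy.2⟩
    exact Nat.ModEq.eq_of_lt_of_lt h1 hx.1 hy.1
  · intro q hq
    rw [mem_product, mem_filter, mem_filter, mem_range, mem_range] at hq
    obtain ⟨⟨h1, h2⟩, ⟨h3, h4⟩⟩ := hq
    set z := Nat.chineseRemainder hmn q.1 q.2 with hz
    have hzlt : (z : ℕ) < m * n := Nat.chineseRemainder_lt_mul hmn q.1 q.2 (by omega) (by omega)
    have e1 : (z : ℕ) % m = q.1 := by
      have := z.2.1
      rw [Nat.ModEq, Nat.mod_eq_of_lt h1] at this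
      exact this
    have e2 : (z : ℕ) % n = q.2 := by
      have := z.2.2
      rw [Nat.ModEq, Nat.mod_eq_of_lt h3] at this
      exact this
    refine ⟨z, ?_, ?_⟩
    · rw [mem_filter, mem_range, hPm z, hQn z, e1, e2]
      exact ⟨hzlt, h2, h4⟩
    · rw [e1, e2]

/-- the count modulo a product of distinct primes -/
lemma primes_count (f : ℕ → ℤ) (hf : ∀ p : ℕ, p.Prime → ∀ x, ((p : ℤ) ∣ f (x + p) ↔ (p : ℤ) ∣ f x)) (S : Finset ℕ)
    (hS : ∀ p ∈ S, p.Prime) :
    (((range (∏ p ∈ S, p)).filter (fun x => ∀ p ∈ S, ¬ (p : ℤ) ∣ f x)).card : ℝ) / ((∏ p ∈ S, p : ℕ) : ℝ) =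
      ∏ p ∈ S, (1 - (((Icc 1 p).filter (fun x : ℕ => (p : ℤ) ∣ f x)).card : ℝ) / p) := by
  classical
  induction S using Finset.induction_on with
  | empty => simp
  | insert q S hq ih =>
    have ih' := ih (fun p hp => hS p (mem_insert_of_mem hp))
    have hqp := hS q (mem_insert_self _ _)
    have hq0 : (0 : ℝ) < q := by exact_mod_cast hqp.pos
    have hSpos : 1 ≤ ∏ p ∈ S, p := Nat.one_le_iff_ne_zero.2 (prod_ne_zero_iff.2 fun p hp => (hS p (mem_insert_of_mem hp)).ne_zero)
    rw [prod_insert hq, prod_insert hq, ← ih']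
    have hcop : q.Coprime (∏ p ∈ S, p) := by
      apply Nat.Coprime.prod_right
      intro p hp
      exact (Nat.coprime_primes hqp (hS p (mem_insert_of_mem hp))).2 (by rintro rfl; exact hq hp)
    have hper : ∀ x, (∀ p ∈ S, ¬ (p : ℤ) ∣ f (x + ∏ p ∈ S, p)) ↔ (∀ p ∈ S, ¬ (p : ℤ) ∣ f x) := by
      intro x
      apply forall₂_congr
      intro p hp
      obtain ⟨c, hc⟩ := dvd_prod_of_mem (fun p => p) hp
      rw [not_iff_not, hc]
      clear hc
      induction c with
      | zero => simp
      | succ c ihc =>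
        rw [← ihc]
        have : x + p * (c + 1) = (x + p * c) + p := by ring
        rw [this]
        exact hf p (hS p (mem_insert_of_mem hp)) _
    have h1 := crt_count q (∏ p ∈ S, p) hqp.one_le hSpos hcop (fun x => ¬ (q : ℤ) ∣ f x) (fun x => ∀ p ∈ S, ¬ (p : ℤ) ∣ f x)
      (fun x => by rw [not_iff_not]; exact hf q hqp x) hper
    have e1 : (range (q * ∏ p ∈ S, p)).filter (fun x => ∀ p ∈ insert q S, ¬ (p : ℤ) ∣ f x) =
        (range (q * ∏ p ∈ S, p)).filter (fun x => ¬ (q : ℤ) ∣ f x ∧ ∀ p ∈ S, ¬ (p : ℤ) ∣ f x) := by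
      apply filter_congr
      intro x _
      rw [forall_mem_insert]
    rw [e1, h1]
    have h2 : ((range q).filter (fun x => ¬ (q : ℤ) ∣ f x)).card + ((Icc 1 q).filter (fun x : ℕ => (q : ℤ) ∣ f x)).card = q := by
      have h3 := period_count (fun x => (q : ℤ) ∣ f x) q (hf q hqp) 0
      have e2 : Ioc 0 (0 + q) = Icc 1 q := by
        ext x
        simp only [mem_Ioc, mem_Icc]
        omega
      rw [e2] at h3
      rw [h3, add_comm, card_filter_add_card_filter_not, card_range]
    have h3 : (((range q).filter (fun x => ¬ (q : ℤ) ∣ f x)).card : ℝ) = q - ((Icc 1 q).filter (fun x : ℕ => (q : ℤ) ∣ f x)).card := by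
      have : (((range q).filter (fun x => ¬ (q : ℤ) ∣ f x)).card : ℝ) + ((Icc 1 q).filter (fun x : ℕ => (q : ℤ) ∣ f x)).card = q := by
        exact_mod_cast h2
      linarith
    push_cast
    rw [h3]
    have hS0 : ((∏ p ∈ S, (p : ℝ))) ≠ 0 := by
      have : ((∏ p ∈ S, p : ℕ) : ℝ) ≠ 0 := by exact_mod_cast (by omega : ∏ p ∈ S, p ≠ 0)
      push_cast at this
      exact this
    field_simp

end Pool.Agent.K1H89.PL
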