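import Mathlib
import Pool.Agent.K1H89.PL.A10
import Pool.Agent.K1H89.PL.A13
import Pool.Agent.K1H89.PL.A14

/-! The law of the number of prime values. -/

set_option autoImplicit false

namespace Pool.Agent.K1H89.PL

open Finset Filter
open Pool.Agent.TH445.OI (evN ev_pow)

open Classical in
theorem main1 (s d B J : ℕ) (hs : 1 ≤ s) (hB : 1 ≤ B) (lam ε : ℝ) (hlam : 0 ≤ lam) (hε : 0 < ε) : ∃ w0 : ℕ, ∀ w : ℕ, w0 ≤ w →
    ∃ H0 : ℕ, ∀ H : ℕ, H0 ≤ H →
    ∀ v : Fin s → ℕ → ℤ, (∀ i, ∀ n : ℕ, (n : ℝ) ≤ Real.log H ^ B → |((v i n : ℤ) : ℝ)| ≤ H * Real.log H ^ B) →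
    (∀ i, ∀ n : ℕ, v i (n + primorial w) ≡ v i n [ZMOD primorial w]) →
    ∀ g : Fin s → Fin (d + 1) → ℤ, ∀ α β : Fin J → ℕ, (∀ j, α j ≤ β j) → (∀ j, (β j : ℝ) ≤ Real.log H ^ B) →
    ((univ : Finset (Fin J)) : Set (Fin J)).PairwiseDisjoint (fun j => Ioc (α j) (β j)) →
    ∑ j, ((β j : ℝ) - α j) ≤ lam * Real.log H ^ s → ∀ r : Fin J → ℕ, ∑ j, r j ≤ d + 1 →
    ∀ μ : Fin J → ℝ, (∀ j, μ j = (rho (primorial w) ^ s * ((((range (primorial w)).filter (fun n => okn v g (primorial w) n)).card : ℝ) /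
      primorial w)) * ((β j : ℝ) - α j) / Real.log H ^ s) →
    |(((fam H (primorial w) g).filter (fun a => ∀ j,
        ((Ioc (α j) (β j)).filter (fun n => ∀ i, (pv (v i) (a i) n).natAbs.Prime)).card = r j)).card : ℝ) /
        (fam H (primorial w) g).card - Real.exp (-(∑ j, μ j)) * Pi0 r μ| ≤
      Pi0 r μ * ((∑ j, μ j) ^ (d + 1 - ∑ j, r j) / ((d + 1 - ∑ j, r j).factorial : ℕ)) + ε := by
  obtain ⟨D, hD⟩ : ∃ D, D = d + 1 := ⟨_, rfl⟩
  obtain ⟨ε1, hε1⟩ : ∃ ε1 : ℝ, ε1 = ε / (4 * ((D + 1) * 2 ^ D)) := ⟨_, rfl⟩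
  have hε10 : 0 < ε1 := by rw [hε1]; positivity
  obtain ⟨w0, hw0⟩ := L1 s d B J hs hB lam ε1 hlam hε10
  refine ⟨w0, fun w hw => ?_⟩
  obtain ⟨H1, h1⟩ := hw0 w hw
  obtain ⟨W, hW⟩ : ∃ W, W = primorial w := ⟨_, rfl⟩
  have hW1 : 1 ≤ W := by rw [hW]; exact primorial_pos w
  have hW0 : (0 : ℝ) < W := by exact_mod_cast hW1
  have hρ1 : 1 ≤ rho W := rho_ge hW1
  obtain ⟨K0, hK0⟩ : ∃ K0 : ℝ, K0 = rho W ^ s * lam := ⟨_, rfl⟩
  have hK00 : 0 ≤ K0 := by rw [hK0]; positivity
  obtain ⟨C, hC0, hC⟩ := Mn_close J D K0 hK00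
  obtain ⟨H2, h2⟩ := evN _ (Real.tendsto_log_atTop.eventually_ge_atTop
    (max (rho W * (W + 1) * (4 * (C + 1) / ε + 1)) 1))
  refine ⟨max H1 (max H2 W), fun H hH v hv hper g α β hαβ hβ hd hN r hr μ hμ => ?_⟩
  have hc1 := h1 H (by omega) v hv g α β hαβ hβ hd hN
  have hc2 := h2 H (by omega)
  rw [← hW] at hc1 hper hμ ⊢
  set L := Real.log H with hL
  have hLa : rho W * (W + 1) * (4 * (C + 1) / ε + 1) ≤ L := (le_max_left _ _).trans hc2
  have hL1 : 1 ≤ L := (le_max_right _ _).trans hc2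
  have hL0 : 0 < L := by linarith
  obtain ⟨κ, hκ⟩ : ∃ κ : ℝ, κ = (rho W / L) ^ s := ⟨_, rfl⟩
  rw [← hκ] at hc1
  have hκ0 : 0 < κ := by rw [hκ]; positivity
  -- the size of `e`
  have hρL : rho W / L * (W + 1) * (4 * (C + 1) / ε + 1) ≤ 1 := by
    have : rho W / L * (W + 1) * (4 * (C + 1) / ε + 1) = rho W * (W + 1) * (4 * (C + 1) / ε + 1) / L := by ring
    rw [this, div_le_one hL0]
    exact hLa
  have hρL0 : 0 < rho W / L := by positivity
  have hq1 : (1 : ℝ) ≤ 4 * (C + 1) / ε + 1 := by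
    have : (0 : ℝ) ≤ 4 * (C + 1) / ε := by positivity
    linarith
  have hρL1 : rho W / L ≤ 1 := by
    have h3 : rho W / L * 1 * 1 ≤ rho W / L * (W + 1) * (4 * (C + 1) / ε + 1) := by
      have : (1 : ℝ) ≤ W + 1 := by linarith
      gcongr
    linarith
  have hκρ : κ ≤ rho W / L := by
    rw [hκ]
    exact pow_le_of_le_one hρL0.le hρL1 (by omega)
  obtain ⟨e, he⟩ : ∃ e : ℝ, e = κ * (W + 1) := ⟨_, rfl⟩
  have he0 : 0 ≤ e := by rw [he]; positivity
  have heb : e * (4 * (C + 1) / ε + 1) ≤ 1 := by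
    rw [he]
    calc κ * (W + 1) * (4 * (C + 1) / ε + 1) ≤ rho W / L * (W + 1) * (4 * (C + 1) / ε + 1) := by gcongr
      _ ≤ 1 := hρL
  have he1 : e ≤ 1 := by nlinarith
  have heC : C * e ≤ ε / 4 := by
    have h3 : e * (4 * (C + 1) / ε) ≤ 1 := by nlinarith
    have h4 : e * (4 * (C + 1) / ε) = (4 * (C + 1) * e) / ε := by ring
    rw [h4, div_le_one hε] at h3
    nlinarith
  have hκe : κ ≤ e := by
    rw [he]
    nlinarith
  -- the intervals
  set I : Fin J → Finset ℕ := fun j => Ioc (α j) (β j) with hI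
  have hXI : XX α β = univ.biUnion I := rfl
  rw [hXI] at hc1
  obtain ⟨Z, hZ⟩ : ∃ Z, Z = (univ.biUnion I).filter (fun n => okn v g W n) := ⟨_, rfl⟩
  have hZsub : Z ⊆ univ.biUnion I := by rw [hZ]; exact filter_subset _ _
  obtain ⟨T, hT⟩ : ∃ T : (Fin s → Fin (d + 1) → ℤ) → Finset ℕ, T = fun a => (univ.biUnion I).filter
    (fun n => ∀ i, (pv (v i) (a i) n).natAbs.Prime) := ⟨_, rfl⟩
  have hTsub : ∀ a, T a ⊆ univ.biUnion I := fun a => by rw [hT]; exact filter_subset _ _
  have hIsub : ∀ j, I j ⊆ univ.biUnion I := fun j => subset_biUnion_of_mem I (mem_univ j)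
  have hWH : W ≤ H := by omega
  have hS : 0 < (fam H W g).card := by
    unfold fam
    rw [Fintype.card_piFinset]
    exact prod_pos fun i _ => box_pos d H W (g i) hW1 hWH
  have hZI : ∀ j, Z ∩ I j = (I j).filter (fun n => okn v g W n) := by
    intro j
    ext n
    rw [hZ, mem_inter, mem_filter, mem_filter]
    exact ⟨fun h => ⟨h.2, h.1.2⟩, fun h => ⟨⟨hIsub j h.1, h.2⟩, h.1⟩⟩
  have hZcard : Z.card = ∑ j, (Z ∩ I j).card := by
    have e1 : Z = univ.biUnion (fun j => Z ∩ I j) := by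
      rw [← inter_biUnion]
      exact (inter_eq_left.2 hZsub).symm
    conv_lhs => rw [e1]
    rw [card_biUnion]
    intro i hi j hj hij
    exact disjoint_of_subset_left inter_subset_right (disjoint_of_subset_right inter_subset_right (hd hi hj hij))
  -- periodicity
  have hokper : ∀ n, okn v g W (n + W) ↔ okn v g W n := by
    intro n
    unfold okn
    apply forall_congr'
    intro i
    apply cop_congr
    unfold pv
    apply Int.ModEq.add (hper i n)
    apply Int.ModEq.sum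
    intro j _
    apply Int.ModEq.mul_left
    apply Int.ModEq.pow
    push_cast
    exact Int.add_modEq_right
  set NW : ℝ := (((range W).filter (fun n => okn v g W n)).card : ℝ) / W with hNW
  have hNW0 : 0 ≤ NW := by positivity
  have hNW1 : NW ≤ 1 := by
    rw [hNW, div_le_one hW0]
    have := card_filter_le (range W) (fun n => okn v g W n)
    rw [card_range] at this
    exact_mod_cast this
  have hμ2 : ∀ j, μ j = κ * (((β j : ℝ) - α j) * NW) := by
    intro j
    rw [hμ j, hκ, div_pow]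
    ring
  have hlen : ∀ j, (0 : ℝ) ≤ (β j : ℝ) - α j := by
    intro j
    have : (α j : ℝ) ≤ β j := by exact_mod_cast hαβ j
    linarith
  have hμ0 : ∀ j, 0 ≤ μ j := by
    intro j
    rw [hμ2 j]
    have := hlen j
    positivity
  have hμK : ∑ j, μ j ≤ K0 := by
    have e1 : ∑ j, μ j = κ * NW * ∑ j, ((β j : ℝ) - α j) := by
      rw [mul_sum]
      apply sum_congr rfl
      intro j _
      rw [hμ2 j]
      ring
    rw [e1, hK0]
    have e2 : κ * L ^ s = rho W ^ s := by rw [hκ, div_pow]; field_simp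
    calc κ * NW * ∑ j, ((β j : ℝ) - α j) ≤ κ * 1 * (lam * L ^ s) := by
          have : 0 ≤ ∑ j, ((β j : ℝ) - α j) := sum_nonneg fun j _ => hlen j
          gcongr
      _ = rho W ^ s * lam := by rw [← e2]; ring
  have hcnt : ∀ j, |κ * (Z ∩ I j).card - μ j| ≤ e := by
    intro j
    rw [hZI j]
    have h3 := interval_count (fun n => okn v g W n) W hW1 hokper (α j) (β j - α j)
    have e1 : α j + (β j - α j) = β j := by have := hαβ j; omega
    rw [e1, Nat.cast_sub (hαβ j), ← hNW] at h3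
    have e2 : κ * (((I j).filter (fun n => okn v g W n)).card : ℝ) - μ j =
        κ * ((((I j).filter (fun n => okn v g W n)).card : ℝ) - ((β j : ℝ) - α j) * NW) := by
      rw [hμ2 j]
      ring
    rw [e2, abs_mul, abs_of_pos hκ0, he]
    apply mul_le_mul_of_nonneg_left _ hκ0.le
    linarith
  have hL1' : ∀ k ≤ D, ∑ A ∈ powersetCard k (univ.biUnion I),
      |(((fam H W g).filter (fun a => A ⊆ T a)).card : ℝ) / (fam H W g).card - (if A ⊆ Z then κ ^ k else 0)| ≤ ε1 := by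
    intro k hk
    refine le_trans (le_of_eq ?_) (hc1 k (by omega))
    apply sum_congr rfl
    intro A hA
    rw [mem_powersetCard] at hA
    have e1 : (fam H W g).filter (fun a => A ⊆ T a) = (fam H W g).filter (fun a => allp v a A) := by
      apply filter_congr
      intro a _
      rw [hT]
      unfold allp
      constructor
      · intro h i n hn
        exact (mem_filter.1 (h hn)).2 i
      · intro h n hn
        rw [mem_filter]
        exact ⟨hA.1 hn, fun i => h i n hn⟩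
    have e2 : (A ⊆ Z) ↔ (∀ n ∈ A, okn v g W n) := by
      rw [hZ]
      constructor
      · intro h n hn
        exact (mem_filter.1 (h hn)).2
      · intro h n hn
        rw [mem_filter]
        exact ⟨hA.1 hn, h n hn⟩
    unfold PA
    rw [e1]
    simp only [e2]
  obtain ⟨p, hp⟩ : ∃ p : ℝ, p = (((fam H W g).filter (fun a => ∀ j, (T a ∩ I j).card = r j)).card : ℝ) / (fam H W g).card :=
    ⟨_, rfl⟩
  have hpe : (((fam H W g).filter (fun a => ∀ j,
        ((Ioc (α j) (β j)).filter (fun n => ∀ i, (pv (v i) (a i) n).natAbs.Prime)).card = r j)).card : ℝ) /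
        (fam H W g).card = p := by
    rw [hp]
    congr 3
    ext a
    rw [mem_filter, mem_filter]
    apply and_congr_right
    intro _
    apply forall_congr'
    intro j
    have : T a ∩ I j = (Ioc (α j) (β j)).filter (fun n => ∀ i, (pv (v i) (a i) n).natAbs.Prime) := by
      ext n
      rw [hT, mem_inter, mem_filter, mem_filter]
      exact ⟨fun h => ⟨h.2, h.1.2⟩, fun h => ⟨⟨hIsub j h.1, h.2⟩, h.1⟩⟩
    rw [this]
  rw [hpe]
  have hp0 : 0 ≤ p := by rw [hp]; positivity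
  have hPi : 0 ≤ Pi0 r μ := by
    unfold Pi0
    apply prod_nonneg
    intro j _
    have := hμ0 j
    positivity
  have hfin := poisson_cmp (d + 1 - ∑ j, r j) p (Pi0 r μ) (∑ j, μ j) (ε / 4) (fun k => Mn I r κ Z k) hp0 hPi
    (sum_nonneg fun j _ => hμ0 j) (by positivity) (by
      intro k hk
      have h3 := bonf (fam H W g) hS I r hd T hTsub Z hZsub κ ε1 D hL1' k (by omega)
      rw [← hp] at h3
      refine le_trans ?_ h3
      have hkD : (k : ℝ) + 1 ≤ D + 1 := by
        have : k ≤ D := by omega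
        have : (k : ℝ) ≤ D := by exact_mod_cast this
        linarith
      have h4 : ((k : ℝ) + 1) * (2 ^ D * ε1) ≤ (D + 1) * (2 ^ D * ε1) := by gcongr
      have h5 : ((D : ℝ) + 1) * (2 ^ D * ε1) = ε / 4 := by
        rw [hε1]
        field_simp
      linarith) (by
      intro k hk
      exact (hC I r κ e Z k μ (by omega) hZcard hκ0.le hκe he1 hμ0 hμK hcnt).trans heC)
  refine hfin.trans ?_
  linarith

end Pool.Agent.K1H89.PL
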