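import Mathlib
import Pool.Agent.K1H89.PL.A13
import Pool.Agent.K1H89.PL.A14
import Pool.Agent.K1H89.PL.B9

/-! Systems of polynomials: the link with the general statement. -/

set_option autoImplicit false

namespace Pool.Agent.K1H89.PL

open Finset Polynomial

/-- the system -/
noncomputable def sys {s d : ℕ} (h : Fin s → ℤ[X]) (a : Fin s → Fin (d + 1) → ℤ) (i : Fin s) : ℤ[X] :=
  h i + ∑ j, C (a i j) * X ^ (j : ℕ)

lemma sys_eval {s d : ℕ} (h : Fin s → ℤ[X]) (a : Fin s → Fin (d + 1) → ℤ) (i : Fin s) (n : ℕ) :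
    (sys h a i).eval (n : ℤ) = pv (fun n => (h i).eval (n : ℤ)) (a i) n := by
  unfold sys pv
  rw [eval_add, eval_finsetSum]
  congr 1
  apply sum_congr rfl
  intro j _
  simp

lemma eval_period (f : ℤ[X]) (n W : ℕ) : f.eval ((n + W : ℕ) : ℤ) ≡ f.eval (n : ℤ) [ZMOD W] := by
  apply Int.ModEq.symm
  rw [Int.modEq_iff_dvd]
  have h := Polynomial.sub_dvd_eval_sub ((n + W : ℕ) : ℤ) (n : ℤ) f
  have e : ((n + W : ℕ) : ℤ) - n = W := by push_cast; ring
  rwa [e] at h

lemma primorial_eq (w : ℕ) : primorial w = ∏ p ∈ prN w, p := by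
  unfold primorial
  apply prod_congr _ (fun _ _ => rfl)
  ext p
  rw [mem_filter, mem_prN, mem_range]
  constructor
  · rintro ⟨h1, h2⟩
    exact ⟨by omega, h2⟩
  · rintro ⟨h1, h2⟩
    exact ⟨by omega, h2⟩

lemma rho_primorial (w : ℕ) : rho (primorial w) = ∏ p ∈ prN w, (1 - 1 / (p : ℝ))⁻¹ := by
  rw [rho_prod (primorial_pos w)]
  have e : (primorial w).primeFactors = prN w := by
    ext p
    rw [Nat.mem_primeFactors, mem_prN]
    constructor
    · rintro ⟨h1, h2, _⟩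
      exact ⟨(Nat.Prime.dvd_primorial_iff h1).1 h2, h1⟩
    · rintro ⟨h1, h2⟩
      exact ⟨h2, (Nat.Prime.dvd_primorial_iff h2).2 h1, (primorial_pos w).ne'⟩
  rw [e]
  apply prod_congr rfl
  intro p hp
  have h2 : (2 : ℝ) ≤ p := by exact_mod_cast (mem_prN.1 hp).2.two_le
  have h3 : (p : ℝ) - 1 ≠ 0 := by linarith
  have h4 : (p : ℝ) ≠ 0 := by linarith
  field_simp

open Classical in
lemma const_eq {s d : ℕ} (h : Fin s → ℤ[X]) (g : Fin s → Fin (d + 1) → ℤ) (w : ℕ) :
    ∏ p ∈ prN w, (1 - ((((Icc 1 p).filter (fun n : ℕ => (p : ℤ) ∣ ∏ i, (sys h g i).eval (n : ℤ))).card : ℕ) : ℝ) / p) /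
      (1 - 1 / (p : ℝ)) ^ s =
    rho (primorial w) ^ s * ((((range (primorial w)).filter (fun n => okn (fun i n => (h i).eval (n : ℤ)) g (primorial w) n)).card : ℝ) /
      primorial w) := by
  have h1 := primes_count (fun n : ℕ => ∏ i, (sys h g i).eval (n : ℤ)) (by
    intro p hp x
    rw [(Nat.prime_iff_prime_int.1 hp).dvd_finsetProd_iff, (Nat.prime_iff_prime_int.1 hp).dvd_finsetProd_iff]
    apply exists_congr
    intro i
    apply and_congr_right
    intro _
    have := eval_period (sys h g i) x p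
    exact this.dvd_iff) (prN w) (fun p hp => (mem_prN.1 hp).2)
  have h2 : (range (primorial w)).filter (fun n => okn (fun i n => (h i).eval (n : ℤ)) g (primorial w) n) =
      (range (∏ p ∈ prN w, p)).filter (fun x : ℕ => ∀ p ∈ prN w, ¬ (p : ℤ) ∣ ∏ i, (sys h g i).eval (x : ℤ)) := by
    rw [← primorial_eq]
    apply filter_congr
    intro n _
    unfold okn
    constructor
    · intro hn p hp hd
      rw [mem_prN] at hp
      rw [(Nat.prime_iff_prime_int.1 hp.2).dvd_finsetProd_iff] at hd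
      obtain ⟨i, _, hi⟩ := hd
      rw [sys_eval] at hi
      have h3 := hn i
      have h4 : (p : ℤ) ∣ (primorial w : ℤ) := by exact_mod_cast (Nat.Prime.dvd_primorial_iff hp.2).2 hp.1
      obtain ⟨x, y, hxy⟩ := h3
      have h5 : (p : ℤ) ∣ 1 := by
        rw [← hxy]
        exact dvd_add (hi.mul_left _) (h4.mul_left _)
      have h6 : p ∣ 1 := by exact_mod_cast h5
      exact hp.2.one_lt.ne' (Nat.dvd_one.1 h6)
    · intro hn i
      rw [Int.isCoprime_iff_gcd_eq_one]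
      by_contra hcon
      obtain ⟨p, hp, hpd⟩ := Nat.exists_prime_and_dvd hcon
      have hp1 : (p : ℤ) ∣ pv (fun n => (h i).eval (n : ℤ)) (g i) n :=
        (Int.natCast_dvd_natCast.2 hpd).trans (Int.gcd_dvd_left _ _)
      have hp2 : (p : ℤ) ∣ ((primorial w : ℕ) : ℤ) := (Int.natCast_dvd_natCast.2 hpd).trans (Int.gcd_dvd_right _ _)
      have hp3 : p ∣ primorial w := by exact_mod_cast hp2
      apply hn p (mem_prN.2 ⟨(Nat.Prime.dvd_primorial_iff hp).1 hp3, hp⟩)
      rw [← sys_eval] at hp1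
      exact hp1.trans (dvd_prod_of_mem _ (mem_univ i))
  rw [← primorial_eq] at h1 h2
  rw [h2, h1, rho_primorial, prod_div_distrib, ← prod_pow, mul_comm]
  rw [div_eq_mul_inv, ← prod_inv_distrib]
  congr 1
  apply prod_congr rfl
  intro p _
  rw [inv_pow]

/-- the bound for large degrees -/
lemma tail_bound {J : ℕ} (r : Fin J → ℕ) (μ : Fin J → ℝ) (m : ℕ) (hμ : ∀ j, 0 ≤ μ j) :
    Pi0 r μ * ((∑ j, μ j) ^ m / (m.factorial : ℕ)) ≤ Real.exp (4 * ∑ j, μ j) / 2 ^ (∑ j, r j + m) := by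
  have hone : ∀ (x : ℝ) (n : ℕ), 0 ≤ x → x ^ n / (n.factorial : ℕ) ≤ Real.exp (2 * x) / 2 ^ n := by
    intro x n hx
    have h1 := Real.pow_div_factorial_le_exp (2 * x) (by linarith) n
    rw [le_div_iff₀ (by positivity)]
    refine le_trans (le_of_eq ?_) h1
    rw [mul_pow]
    ring
  have h1 : Pi0 r μ ≤ ∏ j, (Real.exp (2 * μ j) / 2 ^ r j) := by
    unfold Pi0
    apply Finset.prod_le_prod
    · intro j _
      have := hμ j
      positivity
    · intro j _
      exact hone _ _ (hμ j)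
  have h2 : ∏ j, (Real.exp (2 * μ j) / 2 ^ r j) = Real.exp (2 * ∑ j, μ j) / 2 ^ (∑ j, r j) := by
    rw [prod_div_distrib, prod_pow_eq_pow_sum, mul_sum, Real.exp_sum]
  have hs : 0 ≤ ∑ j, μ j := sum_nonneg fun j _ => hμ j
  have h3 := hone (∑ j, μ j) m hs
  rw [h2] at h1
  calc Pi0 r μ * ((∑ j, μ j) ^ m / (m.factorial : ℕ)) ≤
        (Real.exp (2 * ∑ j, μ j) / 2 ^ (∑ j, r j)) * (Real.exp (2 * ∑ j, μ j) / 2 ^ m) := by
        apply mul_le_mul h1 h3 (by positivity) (by positivity)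
    _ = Real.exp (4 * ∑ j, μ j) / 2 ^ (∑ j, r j + m) := by
        rw [pow_add, div_mul_div_comm, ← Real.exp_add]
        congr 2
        ring

end Pool.Agent.K1H89.PL
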