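import Mathlib
import Pool.Agent.K1H89.PL.A15
import Pool.Agent.K1H89.PL.B16

/-! Systems of polynomials: see `B16`. -/
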